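import Mathlib

/-!
The clause gadget: a finite verification.
-/

set_option autoImplicit false

namespace Pool.Agent.MP_96e1cb_lc

/-- truth values of the four terminals of a clause -/
def eC (e0 e1 e2 : Bool) (i : ℕ) : Bool :=
  if i = 0 then e0 else if i = 1 then e1 else if i = 2 then e2 else false

/-- first true position -/
def fst0 (e0 e1 : Bool) : ℕ := if e0 = true then 0 else if e1 = true then 1 else 2

/-- cyclic position after the first true position -/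
def pos (e0 e1 : Bool) (j : ℕ) : ℕ := if fst0 e0 e1 < j then j - fst0 e0 e1 else j + 4 - fst0 e0 e1

/-- neighbours of the literal vertices in the clique -/
def Wf (e0 e1 e2 : Bool) (i j : ℕ) : Bool :=
  decide (i = j) || (decide (eC e0 e1 e2 i = eC e0 e1 e2 j) &&
    (if eC e0 e1 e2 i = true then decide (i < j) else decide (pos e0 e1 i < pos e0 e1 j)))

/-- ranks of clique vertices -/
def rY (e0 e1 e2 : Bool) (j : ℕ) : ℕ :=
  if eC e0 e1 e2 j = true then 20 - j else 30 + pos e0 e1 j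

/-- ranks of the vertices of a clause gadget: `(1, i)` literal vertex, `(2, j)` clique vertex -/
def rC (e0 e1 e2 : Bool) (x : ℕ × ℕ) : ℕ :=
  if x.1 = 1 then (if eC e0 e1 e2 x.2 = true then 100 else 0) else rY e0 e1 e2 x.2

/-- adjacency in a clause gadget -/
def aC (e0 e1 e2 : Bool) (x y : ℕ × ℕ) : Bool :=
  (decide (x.1 = 2 ∧ y.1 = 2 ∧ ¬ x.2 = y.2)) ||
  ((decide (x.1 = 1 ∧ y.1 = 2) && Wf e0 e1 e2 x.2 y.2) ||
  (decide (x.1 = 2 ∧ y.1 = 1) && Wf e0 e1 e2 y.2 x.2))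

/-- all vertices of a clause gadget -/
def allC : List (ℕ × ℕ) := [(1, 0), (1, 1), (1, 2), (1, 3), (2, 0), (2, 1), (2, 2), (2, 3)]

lemma mem_allC {x : ℕ × ℕ} (h1 : x.1 = 1 ∨ x.1 = 2) (h2 : x.2 < 4) : x ∈ allC := by
  obtain ⟨a, b⟩ := x
  simp only [allC, List.mem_cons, Prod.mk.injEq, List.not_mem_nil, or_false] at *
  omega

lemma clause_ne : ∀ e0 e1 e2 : Bool, (e0 || e1 || e2) = true → ∀ x ∈ allC, ∀ y ∈ allC,
    aC e0 e1 e2 x y = true → rC e0 e1 e2 x ≠ rC e0 e1 e2 y := by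
  decide

lemma clause_trans : ∀ e0 e1 e2 : Bool, (e0 || e1 || e2) = true → ∀ x ∈ allC, ∀ y ∈ allC,
    ∀ z ∈ allC, y.1 = 2 → aC e0 e1 e2 x y = true → aC e0 e1 e2 y z = true →
    rC e0 e1 e2 x < rC e0 e1 e2 y → rC e0 e1 e2 y < rC e0 e1 e2 z → aC e0 e1 e2 x z = true := by
  decide

lemma clause_le : ∀ e0 e1 e2 : Bool, ∀ x ∈ allC, rC e0 e1 e2 x ≤ 100 := by decide

lemma clause_forb : ∀ e0 e1 e2 : Bool, (e0 || e1 || e2) = true → ∀ i ∈ List.range 4,
    ∀ j ∈ List.range 4, (j + 1 = i ∨ (i = 0 ∧ j = 3)) → Wf e0 e1 e2 i j = false := by decide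

end Pool.Agent.MP_96e1cb_lc
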