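import Pool.Agent.MP_96e1cb_lc.GrSimp

/-!
From a perfect completion to a satisfying assignment.
-/

set_option autoImplicit false

namespace Pool.Agent.MP_96e1cb_lc

open SimpleGraph

/-- a perfect completion, on names -/
structure Compl (φ : List H66.Cl) (A : SimpleGraph Name) : Prop where
  agree : ∀ x y, x ∈ verts φ.length → y ∈ verts φ.length → ¬ (x.1 = 0 ∧ y.1 = 0) →
    (A.Adj x y ↔ (gr φ).Adj x y)
  good : ∀ T : Finset Name, (∀ x ∈ T, x ∈ verts φ.length) → Good A T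

namespace Compl

variable {φ : List H66.Cl} {A : SimpleGraph Name} (h : Compl φ A)

include h

lemma not5 {a b c d e : Name} (va : a ∈ verts φ.length) (vb : b ∈ verts φ.length)
    (vc : c ∈ verts φ.length) (vd : d ∈ verts φ.length) (ve : e ∈ verts φ.length)
    (h1 : A.Adj a b) (h2 : A.Adj b c) (h3 : A.Adj c d)
    (h4 : A.Adj d e) (h5 : A.Adj e a) (n1 : ¬ A.Adj a c) (n2 : ¬ A.Adj b d) (n3 : ¬ A.Adj c e)
    (n4 : ¬ A.Adj d a) (n5 : ¬ A.Adj e b) : False := by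
  refine not_good_C5 h1 h2 h3 h4 h5 n1 n2 n3 n4 n5 (h.good _ ?_)
  intro x hx
  simp only [Finset.mem_insert, Finset.mem_singleton] at hx
  rcases hx with rfl | rfl | rfl | rfl | rfl <;> assumption

lemma not7 {a b c d e f g : Name} (va : a ∈ verts φ.length) (vb : b ∈ verts φ.length)
    (vc : c ∈ verts φ.length) (vd : d ∈ verts φ.length) (ve : e ∈ verts φ.length)
    (vf : f ∈ verts φ.length) (vg : g ∈ verts φ.length)
    (h1 : A.Adj a b) (h2 : A.Adj b c) (h3 : A.Adj c d)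
    (h4 : A.Adj d e) (h5 : A.Adj e f) (h6 : A.Adj f g) (h7 : A.Adj g a)
    (n1 : ¬ A.Adj a c) (n2 : ¬ A.Adj a d) (n3 : ¬ A.Adj a e) (n4 : ¬ A.Adj a f)
    (n5 : ¬ A.Adj b d) (n6 : ¬ A.Adj b e) (n7 : ¬ A.Adj b f) (n8 : ¬ A.Adj b g)
    (n9 : ¬ A.Adj c e) (n10 : ¬ A.Adj c f) (n11 : ¬ A.Adj c g) (n12 : ¬ A.Adj d f)
    (n13 : ¬ A.Adj d g) (n14 : ¬ A.Adj e g) : False := by
  refine not_good_C7 h1 h2 h3 h4 h5 h6 h7 n1 n2 n3 n4 n5 n6 n7 n8 n9 n10 n11 n12 n13 n14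
    (h.good _ ?_)
  intro x hx
  simp only [Finset.mem_insert, Finset.mem_singleton] at hx
  rcases hx with rfl | rfl | rfl | rfl | rfl | rfl | rfl <;> assumption

/-- agreement, reversed order -/
lemma agree' {x y : Name} (hx : x ∈ verts φ.length) (hy : y ∈ verts φ.length)
    (hxy : ¬ (x.1 = 0 ∧ y.1 = 0)) : A.Adj y x ↔ (gr φ).Adj x y := by
  rw [A.adj_comm]
  exact h.agree x y hx hy hxy

end Compl

lemma v0 {m : ℕ} {p : P3} (hp : p ∈ nps m) : ((0, p, hb) : Name) ∈ verts m :=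
  mem_verts.2 (Or.inl ⟨rfl, hp, rfl⟩)

lemma v1 {m : ℕ} {p : P3} (hp : p ∈ wsl m) : ((1, p, hb) : Name) ∈ verts m :=
  mem_verts.2 (Or.inr (Or.inl ⟨rfl, hp, rfl⟩))

lemma v2 {m : ℕ} {p q : P3} (hp : p ∈ wsl m) (hq : q ∈ wsl m) : ((2, p, q) : Name) ∈ verts m :=
  mem_verts.2 (Or.inr (Or.inr (Or.inl ⟨Or.inl rfl, hp, hq⟩)))

lemma v3 {m : ℕ} {p q : P3} (hp : p ∈ wsl m) (hq : q ∈ wsl m) : ((3, p, q) : Name) ∈ verts m :=
  mem_verts.2 (Or.inr (Or.inr (Or.inl ⟨Or.inr rfl, hp, hq⟩)))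

lemma v4 {m : ℕ} {p q : P3} (hp : p ∈ nps m) (hq : q ∈ nps m) (hn : need p q) :
    ((4, p, q) : Name) ∈ verts m :=
  mem_verts.2 (Or.inr (Or.inr (Or.inr ⟨Or.inl rfl, hp, hq, hn⟩)))

lemma v5 {m : ℕ} {p q : P3} (hp : p ∈ nps m) (hq : q ∈ nps m) (hn : need p q) :
    ((5, p, q) : Name) ∈ verts m :=
  mem_verts.2 (Or.inr (Or.inr (Or.inr ⟨Or.inr (Or.inl rfl), hp, hq, hn⟩)))

lemma v6 {m : ℕ} {p q : P3} (hp : p ∈ nps m) (hq : q ∈ nps m) (hn : need p q) :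
    ((6, p, q) : Name) ∈ verts m :=
  mem_verts.2 (Or.inr (Or.inr (Or.inr ⟨Or.inr (Or.inr rfl), hp, hq, hn⟩)))

lemma nps_of_wsl {m : ℕ} {p : P3} (hp : p ∈ wsl m) : p ∈ nps m := by
  rw [mem_wsl] at hp
  exact mem_nps.2 (Or.inr ⟨Or.inl hp.1, hp.2⟩)

lemma nps_h (m : ℕ) : hb ∈ nps m := mem_nps.2 (Or.inl rfl)

namespace Compl

variable {φ : List H66.Cl} {A : SimpleGraph Name} (h : Compl φ A)

include h

/-- forced pairs are adjacent -/
lemma forced {p q : P3} (hp : p ∈ nps φ.length) (hq : q ∈ nps φ.length) (hn : need p q)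
    (hf : frc p q) : A.Adj (0, p, hb) (0, q, hb) := by
  by_contra hcon
  have hne : p ≠ q := hn.1
  have w4 := v4 hp hq hn
  have w5 := v5 hp hq hn
  have w6 := v6 hp hq hn
  have e1 := h.agree' (x := (4, p, q)) w4 (v0 hp) (by simp)
  have e2 := h.agree (4, p, q) (0, q, hb) w4 (v0 hq) (by simp)
  have e3 := h.agree' (x := (6, p, q)) w6 (v0 hq) (by simp)
  have e4 := h.agree' (x := (5, p, q)) (y := (6, p, q)) w5 w6 (by simp)
  have e5 := h.agree (5, p, q) (0, p, hb) w5 (v0 hp) (by simp)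
  have f2 := h.agree (4, p, q) (6, p, q) w4 w6 (by simp)
  have f3 := h.agree' (x := (5, p, q)) w5 (v0 hq) (by simp)
  have f4 := h.agree (6, p, q) (0, p, hb) w6 (v0 hp) (by simp)
  have f5 := h.agree' (x := (4, p, q)) (y := (5, p, q)) w4 w5 (by simp)
  rw [gr40] at e1 e2
  rw [gr60] at e3 f4
  rw [gr56] at e4
  rw [gr50] at e5 f3
  rw [gr46] at f2
  rw [gr45] at f5
  refine h.not5 (a := (0, p, hb)) (b := (4, p, q)) (c := (0, q, hb)) (d := (6, p, q))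
    (e := (5, p, q)) (v0 hp) w4 (v0 hq) w6 w5 (e1.2 (by simp [hf])) (e2.2 (by simp [hf]))
    (e3.2 (by simp [hf])) (e4.2 hf) (e5.2 (by simp [hf])) hcon (fun h' => (f2.1 h') hf) ?_ ?_
    (fun h' => (f5.1 h') hf)
  · intro h'
    have := f3.1 h'
    simp [hf, hne.symm] at this
  · intro h'
    have := f4.1 h'
    simp [hf, hne] at this

/-- forbidden pairs are not adjacent -/
lemma forbidden {p q : P3} (hp : p ∈ nps φ.length) (hq : q ∈ nps φ.length) (hn : need p q)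
    (hf : ¬ frc p q) : ¬ A.Adj (0, p, hb) (0, q, hb) := by
  intro hcon
  have hne : p ≠ q := hn.1
  have w4 := v4 hp hq hn
  have w5 := v5 hp hq hn
  have w6 := v6 hp hq hn
  have e2 := h.agree' (x := (5, p, q)) (y := (0, q, hb)) w5 (v0 hq) (by simp)
  have e3 := h.agree' (x := (4, p, q)) (y := (5, p, q)) w4 w5 (by simp)
  have e4 := h.agree (4, p, q) (6, p, q) w4 w6 (by simp)
  have e5 := h.agree (6, p, q) (0, p, hb) w6 (v0 hp) (by simp)
  have f1 := h.agree' (x := (5, p, q)) (y := (0, p, hb)) w5 (v0 hp) (by simp)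
  have f2 := h.agree' (x := (4, p, q)) (y := (0, q, hb)) w4 (v0 hq) (by simp)
  have f3 := h.agree (5, p, q) (6, p, q) w5 w6 (by simp)
  have f4 := h.agree (4, p, q) (0, p, hb) w4 (v0 hp) (by simp)
  have f5 := h.agree (6, p, q) (0, q, hb) w6 (v0 hq) (by simp)
  rw [gr50] at e2 f1
  rw [gr45] at e3
  rw [gr46] at e4
  rw [gr60] at e5 f5
  rw [gr40] at f2 f4
  rw [gr56] at f3
  refine h.not5 (a := (0, p, hb)) (b := (0, q, hb)) (c := (5, p, q)) (d := (4, p, q))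
    (e := (6, p, q)) (v0 hp) (v0 hq) w5 w4 w6 hcon (e2.2 (by simp [hf, hne.symm])) (e3.2 hf)
    (e4.2 hf) (e5.2 (by simp [hf, hne])) ?_ ?_ (fun h' => hf (f3.1 h')) ?_ ?_
  · intro h'
    have := f1.1 h'
    simp [hf] at this
  · intro h'
    have := f2.1 h'
    simp [hf] at this
  · intro h'
    have := f4.1 h'
    simp [hf] at this
  · intro h'
    have := f5.1 h'
    simp [hf] at this

end Compl

end Pool.Agent.MP_96e1cb_lc
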