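import Pool.Agent.MP_96e1cb_lc.GrSimp
import Pool.Agent.MP_96e1cb_lc.Sound
import Pool.Agent.MP_96e1cb_lc.ClauseFin

/-!
From a satisfying assignment to a perfect completion: the base graph is a comparability graph.
-/

set_option autoImplicit false

namespace Pool.Agent.MP_96e1cb_lc

open SimpleGraph

section

variable (φ : List H66.Cl) (τ : ℕ → Bool)

/-- truth value of a terminal -/
def ev (p : P3) : Bool := decide (¬ p.2.2 = 3) && decide (τ (litP φ p).2 = (litP φ p).1)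

/-- the relation `Wf` at a clause -/
def WF (c i j : ℕ) : Bool := Wf (ev φ τ (1, c, 0)) (ev φ τ (1, c, 1)) (ev φ τ (1, c, 2)) i j

/-- added edges, one direction -/
def Dd (p q : P3) : Prop :=
  (p.1 = 2 ∧ q.1 = 2 ∧ p.2.1 = q.2.1 ∧ ¬ p.2.2 = q.2.2) ∨
  (p.1 = 0 ∧ q.1 = 1 ∧ ev φ τ q = true) ∨
  (p.1 = 1 ∧ q.1 = 2 ∧ p.2.1 = q.2.1 ∧ WF φ τ p.2.1 p.2.2 q.2.2 = true)

/-- the graph of added edges -/
def HH : SimpleGraph Name where
  Adj x y := x.1 = 0 ∧ y.1 = 0 ∧ (Dd φ τ x.2.1 y.2.1 ∨ Dd φ τ y.2.1 x.2.1)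
  symm := ⟨fun x y h => ⟨h.2.1, h.1, h.2.2.symm⟩⟩
  loopless := ⟨fun x h => by
    have h2 := h.2.2
    unfold Dd at h2
    omega⟩

lemma hh_adj (x y : Name) : (HH φ τ).Adj x y ↔
    x.1 = 0 ∧ y.1 = 0 ∧ (Dd φ τ x.2.1 y.2.1 ∨ Dd φ τ y.2.1 x.2.1) := Iff.rfl

/-- the completed graph -/
def AA : SimpleGraph Name := gr φ ⊔ HH φ τ

lemma aa_adj (x y : Name) : (AA φ τ).Adj x y ↔ (gr φ).Adj x y ∨ (HH φ τ).Adj x y := Iff.rfl

lemma aa00 (p q : P3) : (AA φ τ).Adj (0, p, hb) (0, q, hb) ↔ Dd φ τ p q ∨ Dd φ τ q p := by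
  rw [aa_adj, hh_adj]
  simp [gr00]

lemma aaX (x y : Name) (h : ¬ (x.1 = 0 ∧ y.1 = 0)) : (AA φ τ).Adj x y ↔ (gr φ).Adj x y := by
  rw [aa_adj, hh_adj]
  constructor
  · rintro (h' | h')
    · exact h'
    · exact absurd ⟨h'.1, h'.2.1⟩ h
  · exact Or.inl

/-- the rank function -/
def rk (x : Name) : ℕ :=
  if x.1 = 0 then
    (if x.2.1.1 = 0 then 0
    else if x.2.1.1 = 1 then (if ev φ τ x.2.1 = true then 100 else 0)
    else rY (ev φ τ (1, x.2.1.2.1, 0)) (ev φ τ (1, x.2.1.2.1, 1)) (ev φ τ (1, x.2.1.2.1, 2))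
      x.2.1.2.2)
  else if x.1 = 1 then (if ev φ τ x.2.1 = true then 50 else 100)
  else if x.1 = 2 then (if ev φ τ x.2.1 = true then 0 else 100)
  else (if ev φ τ x.2.1 = true then 100 else 0)

variable {φ τ}

lemma ev_same {p q : P3} (hr : rel φ p q) (hs : sgn φ p q) : ev φ τ p = ev φ τ q := by
  obtain ⟨h1, h2, h3⟩ := hr
  unfold sgn at hs
  unfold ev
  rw [h3, hs]
  simp [h1, h2]

lemma ev_opp {p q : P3} (hr : rel φ p q) (hs : ¬ sgn φ p q) : ev φ τ p = !(ev φ τ q) := by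
  obtain ⟨h1, h2, h3⟩ := hr
  unfold sgn at hs
  unfold ev
  rw [h3]
  simp only [h1, h2, not_false_eq_true, decide_true, Bool.true_and]
  revert hs
  cases (litP φ p).1 <;> cases (litP φ q).1 <;> cases τ (litP φ q).2 <;> simp

lemma eC_ev {c i : ℕ} (hi : i < 4) :
    eC (ev φ τ (1, c, 0)) (ev φ τ (1, c, 1)) (ev φ τ (1, c, 2)) i = ev φ τ (1, c, i) := by
  have : i = 0 ∨ i = 1 ∨ i = 2 ∨ i = 3 := by omega
  rcases this with rfl | rfl | rfl | rfl
  · simp [eC]
  · simp [eC]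
  · simp [eC]
  · simp [eC, ev]

lemma ev_kind (t t' c i : ℕ) : ev φ τ (t, c, i) = ev φ τ (t', c, i) := rfl

/-- rank of a terminal or clique vertex -/
lemma rk_clause {t c i : ℕ} (ht : t = 1 ∨ t = 2) (hi : i < 4) :
    rk φ τ (0, (t, c, i), hb) =
      rC (ev φ τ (1, c, 0)) (ev φ τ (1, c, 1)) (ev φ τ (1, c, 2)) (t, i) := by
  rcases ht with rfl | rfl
  · unfold rk rC
    simp [eC_ev hi]
  · unfold rk rC
    simp

/-- adjacency inside a clause -/
lemma aa_clause {t t' c i i' : ℕ} (ht : t = 1 ∨ t = 2) (ht' : t' = 1 ∨ t' = 2) :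
    (AA φ τ).Adj (0, (t, c, i), hb) (0, (t', c, i'), hb) ↔
      aC (ev φ τ (1, c, 0)) (ev φ τ (1, c, 1)) (ev φ τ (1, c, 2)) (t, i) (t', i') = true := by
  rw [aa00]
  unfold Dd aC WF
  rcases ht with rfl | rfl <;> rcases ht' with rfl | rfl <;> simp
  omega

end

section base

variable {φ : List H66.Cl} {τ : ℕ → Bool}

/-- some literal of each clause is true -/
def SatC (φ : List H66.Cl) (τ : ℕ → Bool) : Prop := ∀ c, c < φ.length →
  (ev φ τ (1, c, 0) || ev φ τ (1, c, 1) || ev φ τ (1, c, 2)) = true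

lemma satC_of (h : ∀ c ∈ φ, H66.ClSat τ c) : SatC φ τ := by
  intro c hc
  have h1 := h φ[c] (List.getElem_mem hc)
  have hg : φ.getD c ((true, 0), (true, 0), (true, 0)) = φ[c] := by
    simp [hc]
  have l0 : litP φ (1, c, 0) = φ[c].1 := by unfold litP; rw [if_pos rfl, hg]
  have l1 : litP φ (1, c, 1) = φ[c].2.1 := by
    unfold litP; rw [if_neg (by simp), if_pos rfl, hg]
  have l2 : litP φ (1, c, 2) = φ[c].2.2 := by
    unfold litP; rw [if_neg (by simp), if_neg (by simp), hg]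
  unfold H66.ClSat H66.LitSat at h1
  rw [← l0, ← l1, ← l2] at h1
  unfold ev
  simp only [Bool.or_eq_true, Bool.and_eq_true, decide_eq_true_iff]
  rcases h1 with h1 | h1 | h1
  · exact Or.inl (Or.inl ⟨by decide, h1⟩)
  · exact Or.inl (Or.inr ⟨by decide, h1⟩)
  · exact Or.inr ⟨by decide, h1⟩

/-- neighbours of clique vertices in the base graph -/
lemma nbr_y {c j : ℕ} {x : Name} (hx : x ∈ verts φ.length) (hx4 : x.1 < 4)
    (ha : (AA φ τ).Adj x (0, (2, c, j), hb)) :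
    ∃ t i, (t = 1 ∨ t = 2) ∧ i < 4 ∧ x = (0, (t, c, i), hb) := by
  obtain ⟨k, p, q⟩ := x
  rw [mem_verts] at hx
  simp only [Vd] at hx hx4
  rcases hx with ⟨rfl, hp, rfl⟩ | ⟨rfl, hp, rfl⟩ | ⟨hk, hp, hq⟩ | ⟨hk, _⟩
  · rw [aa00] at ha
    obtain ⟨t, c', i⟩ := p
    rw [mem_nps] at hp
    unfold Dd at ha
    simp only [Prod.mk.injEq] at hp ha
    have h1 : (t = 1 ∨ t = 2) ∧ c' = c := by omega
    obtain ⟨h1, rfl⟩ := h1
    refine ⟨t, i, h1, ?_, rfl⟩
    omega
  · rw [aaX _ _ _ _ (by simp), gr10] at ha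
    rw [mem_wsl] at hp
    rcases ha with ha | ha
    · simp at ha
    · rw [← ha] at hp
      simp at hp
  · rw [mem_wsl] at hp hq
    rcases hk with rfl | rfl
    · rw [aaX _ _ _ _ (by simp), gr20] at ha
      rcases ha.2 with h | h
      · rw [← h] at hp
        simp at hp
      · rw [← h.2] at hq
        simp at hq
    · rw [aaX _ _ _ _ (by simp), gr30] at ha
      rw [← ha.2.2] at hq
      simp at hq
  · omega

/-- neighbours of the vertices `t` -/
lemma nbr_t {p : P3} {x : Name} (hx : x ∈ verts φ.length) (hx4 : x.1 < 4)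
    (ha : (AA φ τ).Adj x (1, p, hb)) : x = (0, hb, hb) ∨ x = (0, p, hb) := by
  obtain ⟨k, r, s⟩ := x
  rw [mem_verts] at hx
  simp only [Vd] at hx hx4
  rcases hx with ⟨rfl, _, rfl⟩ | ⟨rfl, _, rfl⟩ | ⟨hk, _, _⟩ | ⟨hk, _⟩
  · rw [SimpleGraph.adj_comm, aaX _ _ _ _ (by simp), gr10] at ha
    rcases ha with rfl | rfl
    · exact Or.inl rfl
    · exact Or.inr rfl
  · rw [aaX _ _ _ _ (by simp)] at ha
    exact absurd ha (gr11 _ _ _)
  · rcases hk with rfl | rfl
    · rw [aaX _ _ _ _ (by simp)] at ha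
      exact absurd ha (gr21 _ _ _ _)
    · rw [aaX _ _ _ _ (by simp)] at ha
      exact absurd ha (gr31 _ _ _ _)
  · omega

lemma rk_le {x : Name} (hx : x ∈ verts φ.length) : rk φ τ x ≤ 100 := by
  obtain ⟨k, p, q⟩ := x
  by_cases hk : k = 0
  · subst hk
    rw [mem_verts] at hx
    simp only [Vd] at hx
    rcases hx with ⟨_, hp, rfl⟩ | ⟨h, _⟩ | ⟨h, _⟩ | ⟨h, _⟩
    · rw [mem_nps] at hp
      rcases hp with rfl | ⟨h1, h2, h3⟩
      · simp [rk]
      · obtain ⟨t, c, i⟩ := p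
        rw [rk_clause h1 h3]
        exact clause_le _ _ _ _ (mem_allC h1 h3)
    · omega
    · omega
    · omega
  · unfold rk
    simp only [hk, if_false]
    split_ifs <;> omega

/-- adjacent vertices of the base graph have different ranks: non-probes -/
lemma ne00 (hs : SatC φ τ) {p q : P3} (hp : p ∈ nps φ.length) (hq : q ∈ nps φ.length)
    (ha : (AA φ τ).Adj (0, p, hb) (0, q, hb)) : rk φ τ (0, p, hb) ≠ rk φ τ (0, q, hb) := by
  have main : ∀ p q : P3, p ∈ nps φ.length → q ∈ nps φ.length → Dd φ τ p q →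
      rk φ τ (0, p, hb) ≠ rk φ τ (0, q, hb) := by
    intro p q hp hq hd
    have hA : (AA φ τ).Adj (0, p, hb) (0, q, hb) := (aa00 _ _ _ _).2 (Or.inl hd)
    obtain ⟨t, c, i⟩ := p
    obtain ⟨t', c', i'⟩ := q
    rw [mem_nps] at hp hq
    unfold Dd at hd
    simp only [Prod.mk.injEq] at hp hq hd
    rcases hd with ⟨rfl, rfl, rfl, h4⟩ | ⟨rfl, rfl, h4⟩ | ⟨rfl, rfl, rfl, h4⟩
    · have h1 : i < 4 := by omega
      have h2 : i' < 4 := by omega
      have h3 : c < φ.length := by omega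
      rw [rk_clause (Or.inr rfl) h1, rk_clause (Or.inr rfl) h2]
      rw [aa_clause (Or.inr rfl) (Or.inr rfl)] at hA
      exact clause_ne _ _ _ (hs c h3) _ (mem_allC (Or.inr rfl) h1) _ (mem_allC (Or.inr rfl) h2) hA
    · simp [rk, h4]
    · have h1 : i < 4 := by omega
      have h2 : i' < 4 := by omega
      have h3 : c < φ.length := by omega
      rw [rk_clause (Or.inl rfl) h1, rk_clause (Or.inr rfl) h2]
      rw [aa_clause (Or.inl rfl) (Or.inr rfl)] at hA
      exact clause_ne _ _ _ (hs c h3) _ (mem_allC (Or.inl rfl) h1) _ (mem_allC (Or.inr rfl) h2) hA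
  rcases (aa00 _ _ _ _).1 ha with h | h
  · exact main p q hp hq h
  · exact (main q p hq hp h).symm

lemma rk_w {p : P3} (hp : p ∈ wsl φ.length) (r : P3) :
    rk φ τ (0, p, r) = if ev φ τ p = true then 100 else 0 := by
  rw [mem_wsl] at hp
  unfold rk
  simp [hp.1]

lemma ne_lt (hs : SatC φ τ) {x y : Name} (hx : x ∈ verts φ.length) (hy : y ∈ verts φ.length)
    (hx4 : x.1 < 4) (hxy : y.1 ≤ x.1) (ha : (AA φ τ).Adj x y) : rk φ τ x ≠ rk φ τ y := by
  obtain ⟨k, p, q⟩ := x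
  obtain ⟨k', p', q'⟩ := y
  rw [mem_verts] at hx hy
  simp only [Vd] at hx hy hx4 hxy
  rcases hx with ⟨rfl, hp, rfl⟩ | ⟨rfl, hp, rfl⟩ | ⟨hk, hp, hq⟩ | ⟨hk, _⟩
  · rcases hy with ⟨rfl, hp', rfl⟩ | ⟨rfl, hp', rfl⟩ | ⟨hk', hp', hq'⟩ | ⟨hk', _⟩
    · exact ne00 hs hp hp' ha
    · omega
    · omega
    · omega
  · rcases hy with ⟨rfl, hp', rfl⟩ | ⟨rfl, hp', rfl⟩ | ⟨hk', hp', hq'⟩ | ⟨hk', _⟩
    · rw [aaX _ _ _ _ (by simp), gr10] at ha
      rcases ha with rfl | rfl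
      · simp only [rk]
        cases ev φ τ p <;> simp
      · rw [rk_w hp]
        simp only [rk]
        cases ev φ τ p' <;> simp
    · rw [aaX _ _ _ _ (by simp)] at ha
      exact absurd ha (gr11 _ _ _)
    · omega
    · omega
  · rcases hy with ⟨rfl, hp', rfl⟩ | ⟨rfl, hp', rfl⟩ | ⟨hk', hp', hq'⟩ | ⟨hk', _⟩
    · rcases hk with rfl | rfl
      · rw [aaX _ _ _ _ (by simp), gr20] at ha
        obtain ⟨hr, rfl | ⟨hsg, rfl⟩⟩ := ha
        · rw [rk_w hp]
          simp only [rk]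
          cases ev φ τ p' <;> simp
        · rw [rk_w hq]
          simp only [rk]
          rw [ev_same hr hsg]
          cases ev φ τ p' <;> simp
      · rw [aaX _ _ _ _ (by simp), gr30] at ha
        obtain ⟨hr, hsg, rfl⟩ := ha
        rw [rk_w hq]
        simp only [rk]
        rw [ev_opp hr hsg]
        cases ev φ τ p' <;> simp
    · rcases hk with rfl | rfl
      · rw [aaX _ _ _ _ (by simp)] at ha
        exact absurd ha (gr21 _ _ _ _)
      · rw [aaX _ _ _ _ (by simp)] at ha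
        exact absurd ha (gr31 _ _ _ _)
    · rcases hk with rfl | rfl <;> rcases hk' with rfl | rfl
      · rw [aaX _ _ _ _ (by simp)] at ha
        exact absurd ha (gr22 _ _ _ _ _)
      · omega
      · rw [SimpleGraph.adj_comm, aaX _ _ _ _ (by simp), gr23] at ha
        obtain ⟨hr, he, _⟩ := ha
        simp only [Prod.mk.injEq] at he
        obtain ⟨rfl, rfl⟩ := he
        simp only [rk]
        cases ev φ τ p <;> simp
      · rw [aaX _ _ _ _ (by simp)] at ha
        exact absurd ha (gr33 _ _ _ _ _)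
    · omega
  · omega

/-- the base graph is transitively orientable -/
lemma base_good (hs : SatC φ τ) (T : Finset Name) (hT : ∀ x ∈ T, x ∈ verts φ.length ∧ x.1 < 4) :
    Good (AA φ τ) T := by
  refine good_of_rank (rk φ τ) _ T rfl ?_ ?_
  · intro x hx y hy ha
    obtain ⟨hx1, hx2⟩ := hT x hx
    obtain ⟨hy1, hy2⟩ := hT y hy
    rcases Nat.le_total y.1 x.1 with h | h
    · exact ne_lt hs hx1 hy1 hx2 h ha
    · exact (ne_lt hs hy1 hx1 hy2 h ha.symm).symm
  · intro x hx y hy z hz hxy hyz h1 h2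
    obtain ⟨hx1, hx2⟩ := hT x hx
    obtain ⟨hy1, hy2⟩ := hT y hy
    obtain ⟨hz1, hz2⟩ := hT z hz
    have h3 : rk φ τ z ≤ 100 := rk_le hz1
    have h4 : 0 < rk φ τ y := by omega
    have h5 : rk φ τ y < 100 := by omega
    obtain ⟨k, p, q⟩ := y
    have hy1' := hy1
    rw [mem_verts] at hy1'
    simp only [Vd] at hy1' hy2
    rcases hy1' with ⟨rfl, hp, rfl⟩ | ⟨rfl, hp, rfl⟩ | ⟨hk, hp, hq⟩ | ⟨hk, _⟩
    · rw [mem_nps] at hp
      rcases hp with rfl | ⟨h6, h7, h8⟩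
      · simp [rk] at h4
      · obtain ⟨t, c, j⟩ := p
        simp only at h6 h7 h8
        rcases h6 with rfl | rfl
        · exfalso
          rw [rk_w (mem_wsl.2 ⟨rfl, h7, h8⟩)] at h4 h5
          cases h9 : ev φ τ (1, c, j) <;> simp [h9] at h4 h5
        · obtain ⟨t, i, ht, hi, rfl⟩ := nbr_y hx1 hx2 hxy
          obtain ⟨t', i', ht', hi', rfl⟩ := nbr_y hz1 hz2 hyz.symm
          rw [aa_clause ht (Or.inr rfl)] at hxy
          rw [aa_clause (Or.inr rfl) ht'] at hyz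
          rw [aa_clause ht ht']
          rw [rk_clause ht hi, rk_clause (Or.inr rfl) h8] at h1
          rw [rk_clause ht' hi', rk_clause (Or.inr rfl) h8] at h2
          exact clause_trans _ _ _ (hs c h7) _ (mem_allC ht hi) _ (mem_allC (Or.inr rfl) h8) _
            (mem_allC ht' hi') rfl hxy hyz h1 h2
    · have h9 : ev φ τ p = true := by
        simp only [rk] at h5
        by_contra h9
        simp [h9] at h5
      have r0 : rk φ τ (0, hb, hb) = 0 := by simp [rk]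
      have r1 : rk φ τ (0, p, hb) = 100 := by rw [rk_w hp, if_pos h9]
      have r2 : rk φ τ (1, p, hb) = 50 := by simp [rk, h9]
      rw [r2] at h1 h2
      rcases nbr_t hx1 hx2 hxy with rfl | rfl
      · rcases nbr_t hz1 hz2 hyz.symm with rfl | rfl
        · omega
        · rw [aa00]
          exact Or.inl (Or.inr (Or.inl ⟨rfl, (mem_wsl.1 hp).1, h9⟩))
      · omega
    · exfalso
      rcases hk with rfl | rfl
      · simp only [rk] at h4 h5
        cases h9 : ev φ τ p <;> simp [h9] at h4 h5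
      · simp only [rk] at h4 h5
        cases h9 : ev φ τ p <;> simp [h9] at h4 h5
    · omega

end base

end Pool.Agent.MP_96e1cb_lc
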