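import Pool.Agent.MP_96e1cb_lc.Complete

/-!
From a satisfying assignment to a perfect completion: the gadgets.
-/

set_option autoImplicit false

namespace Pool.Agent.MP_96e1cb_lc

open SimpleGraph

variable {φ : List H66.Cl} {τ : ℕ → Bool}

lemma eq_np {p : P3} {y : Name} (hy : y ∈ verts φ.length) :
    y = (0, p, hb) ↔ y.1 = 0 ∧ y.2.1 = p := by
  obtain ⟨k, r, s⟩ := y
  rw [mem_verts] at hy
  simp only [Vd] at hy
  simp only [Prod.mk.injEq]
  constructor
  · rintro ⟨h1, h2, _⟩
    exact ⟨h1, h2⟩
  · rintro ⟨h1, h2⟩
    refine ⟨h1, h2, ?_⟩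
    rcases hy with ⟨_, _, h⟩ | ⟨h, _⟩ | ⟨h, _⟩ | ⟨h, _⟩
    · exact h
    · omega
    · omega
    · omega

lemma sp4 (p q : P3) (y : Name) : (Sp φ (4, p, q) y ∨ Sp φ y (4, p, q)) ↔
    (y.1 = 0 ∧ (y.2.1 = p ∨ y.2.1 = q)) := by
  unfold Sp
  simp

lemma sp5 (p q : P3) (y : Name) : (Sp φ (5, p, q) y ∨ Sp φ y (5, p, q)) ↔
    ((y.1 = 0 ∧ y.2.1 = p) ∨ (y.1 = 6 ∧ y.2 = (p, q))) := by
  unfold Sp
  simp

lemma sp6 (p q : P3) (y : Name) : (Sp φ (6, p, q) y ∨ Sp φ y (6, p, q)) ↔
    ((y.1 = 0 ∧ y.2.1 = q) ∨ (y.1 = 5 ∧ (p, q) = y.2)) := by
  unfold Sp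
  simp

lemma aux1 (a b c : Prop) : ¬ (a ∧ (b ∨ c)) ↔ ¬ (a ∧ b) ∧ ¬ (a ∧ c) := by tauto

lemma aux2 {a S H1 H2 : Prop} (ha : a) (h : H1) : (a ∧ ¬ (S ↔ (H1 ∨ H2))) ↔ ¬ S := by tauto

lemma aux3 {b c : Prop} (h : ¬ c) : ¬ (b ∨ c) ↔ ¬ b := by tauto

/-- an added edge is allowed -/
lemma dd_ok (hs : SatC φ τ) {p q : P3} (hp : p ∈ nps φ.length) (hq : q ∈ nps φ.length)
    (hd : Dd φ τ p q) : frc1 p q ∨ opt1 p q := by
  obtain ⟨t, c, i⟩ := p
  obtain ⟨t', c', i'⟩ := q
  rw [mem_nps] at hp hq
  unfold Dd at hd
  unfold frc1 opt1
  simp only [Prod.mk.injEq] at hp hq hd ⊢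
  rcases hd with ⟨rfl, rfl, rfl, h4⟩ | ⟨rfl, rfl, h4⟩ | ⟨rfl, rfl, rfl, h4⟩
  · exact Or.inl (Or.inl ⟨rfl, rfl, rfl, h4⟩)
  · refine Or.inr (Or.inl ⟨rfl, rfl, ?_⟩)
    intro h5
    subst h5
    simp [ev] at h4
  · have h1 : i < 4 := by omega
    have h2 : i' < 4 := by omega
    have h3 : c < φ.length := by omega
    by_cases h5 : i = i'
    · exact Or.inl (Or.inr ⟨rfl, rfl, rfl, h5⟩)
    · refine Or.inr (Or.inr ⟨rfl, rfl, rfl, h5, ?_, ?_⟩)
      · intro h6
        have h7 := clause_forb _ _ _ (hs c h3) i (List.mem_range.2 h1) i' (List.mem_range.2 h2)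
          (Or.inl h6)
        unfold WF at h4
        rw [h7] at h4
        exact Bool.noConfusion h4
      · intro h6
        have h7 := clause_forb _ _ _ (hs c h3) i (List.mem_range.2 h1) i' (List.mem_range.2 h2)
          (Or.inr h6)
        unfold WF at h4
        rw [h7] at h4
        exact Bool.noConfusion h4

/-- forced edges are added -/
lemma dd_frc {p q : P3} (h : frc p q) : Dd φ τ p q ∨ Dd φ τ q p := by
  have main : ∀ p q : P3, frc1 p q → Dd φ τ p q := by
    intro p q h
    rcases h with h | ⟨h1, h2, h3, h4⟩
    · exact Or.inl h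
    · refine Or.inr (Or.inr ⟨h1, h2, h3, ?_⟩)
      unfold WF Wf
      simp [h4]
  rcases h with h | h
  · exact Or.inl (main p q h)
  · exact Or.inr (main q p h)

/-- **The completed graph is perfect.** -/
theorem all_good (hs : SatC φ τ) : ∀ (n : ℕ) (T : Finset Name), T.card = n →
    (∀ x ∈ T, x ∈ verts φ.length) → Good (AA φ τ) T := by
  classical
  intro n
  induction n using Nat.strong_induction_on with
  | _ n ih =>
    intro T hn hT
    by_cases hH : ∃ x ∈ T, 4 ≤ x.1
    swap
    · push Not at hH
      exact base_good hs T (fun x hx => ⟨hT x hx, hH x hx⟩)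
    -- choose a gadget, preferably of a forbidden pair
    have hch : ∃ x ∈ T, 4 ≤ x.1 ∧ ((¬ frc x.2.1 x.2.2) ∨ ∀ y ∈ T, ¬ High y) := by
      by_cases h1 : ∃ x ∈ T, High x
      · obtain ⟨x, hx, h2⟩ := h1
        exact ⟨x, hx, h2.1, Or.inl h2.2⟩
      · push Not at h1
        obtain ⟨x, hx, h2⟩ := hH
        exact ⟨x, hx, h2, Or.inr h1⟩
    obtain ⟨x, hxT, hx4, hxch⟩ := hch
    obtain ⟨k, p, q⟩ := x
    simp only at hx4 hxch
    have hxv := hT _ hxT
    rw [mem_verts] at hxv
    simp only [Vd] at hxv
    have hxv' : p ∈ nps φ.length ∧ q ∈ nps φ.length ∧ need p q := by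
      rcases hxv with ⟨h, _⟩ | ⟨h, _⟩ | ⟨h, _⟩ | ⟨_, h⟩
      · omega
      · omega
      · omega
      · exact h
    obtain ⟨hp, hq, hneed⟩ := hxv'
    have hpq : p ≠ q := hneed.1
    let T' : Finset Name := T.filter (fun y => ¬ (4 ≤ y.1 ∧ y.2 = (p, q)))
    have hT'm : ∀ y, y ∈ T' ↔ y ∈ T ∧ ¬ (4 ≤ y.1 ∧ y.2 = (p, q)) := fun y => by
      simp only [T', Finset.mem_filter]
    have hsub : T' ⊆ T := Finset.filter_subset _ _
    have hlt : T'.card < n := by
      rw [← hn]
      apply Finset.card_lt_card
      refine ⟨hsub, fun h => ?_⟩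
      exact ((hT'm _).1 (h hxT)).2 ⟨hx4, rfl⟩
    have hgood : ∀ U, U ⊆ T' → Good (AA φ τ) U := by
      intro U hU
      exact ih _ (lt_of_le_of_lt (Finset.card_le_card hU) hlt) U rfl
        (fun y hy => hT y (hsub (hU hy)))
    have hD : ∀ y ∈ T, y ∉ T' → y = (4, p, q) ∨ y = (5, p, q) ∨ y = (6, p, q) := by
      intro y hy hy'
      rw [hT'm] at hy'
      push Not at hy'
      obtain ⟨h1, h2⟩ := hy' hy
      obtain ⟨k', r⟩ := y
      simp only at h1 h2
      subst h2
      have hyv := hT _ hy
      rw [mem_verts] at hyv
      simp only [Vd] at hyv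
      have : k' = 4 ∨ k' = 5 ∨ k' = 6 := by omega
      rcases this with rfl | rfl | rfl
      · exact Or.inl rfl
      · exact Or.inr (Or.inl rfl)
      · exact Or.inr (Or.inr rfl)
    have n4 : ((4, p, q) : Name) ∉ T' := fun h => ((hT'm _).1 h).2 ⟨by simp, rfl⟩
    have n5 : ((5, p, q) : Name) ∉ T' := fun h => ((hT'm _).1 h).2 ⟨by simp, rfl⟩
    have n6 : ((6, p, q) : Name) ∉ T' := fun h => ((hT'm _).1 h).2 ⟨by simp, rfl⟩
    by_cases hf : frc p q
    · -- forced pair; no vertex is high
      have hnoH : ∀ y ∈ T, ¬ High y := hxch.resolve_left (fun h => h hf)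
      have nH : ∀ k : ℕ, ¬ High (k, p, q) := fun k h => h.2 hf
      have hab : (AA φ τ).Adj (0, p, hb) (0, q, hb) := (aa00 _ _ _ _).2 (dd_frc hf)
      have adj4 : ∀ y ∈ T', (AA φ τ).Adj (4, p, q) y → y = (0, p, hb) ∨ y = (0, q, hb) := by
        intro y hy ha
        have hyT := hsub hy
        rw [aaX _ _ _ _ (by simp), gr_adj] at ha
        have h1 : (Sp φ (4, p, q) y ∨ Sp φ y (4, p, q)) := by
          by_contra h1
          exact ha.2 ⟨fun h => absurd h h1, fun h => absurd h (by
            rintro (h | h)
            · exact nH 4 h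
            · exact hnoH y hyT h)⟩
        rw [sp4] at h1
        rw [eq_np (hT y hyT), eq_np (hT y hyT)]
        rcases h1 with ⟨h2, h3 | h3⟩
        · exact Or.inl ⟨h2, h3⟩
        · exact Or.inr ⟨h2, h3⟩
      have adj5 : ∀ y ∈ T', (AA φ τ).Adj (5, p, q) y → y = (0, p, hb) := by
        intro y hy ha
        have hyT := hsub hy
        rw [aaX _ _ _ _ (by simp), gr_adj] at ha
        have h1 : (Sp φ (5, p, q) y ∨ Sp φ y (5, p, q)) := by
          by_contra h1
          exact ha.2 ⟨fun h => absurd h h1, fun h => absurd h (by
            rintro (h | h)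
            · exact nH 5 h
            · exact hnoH y hyT h)⟩
        rw [sp5] at h1
        rw [eq_np (hT y hyT)]
        rcases h1 with h1 | ⟨h1, h2⟩
        · exact h1
        · exact absurd ⟨by omega, h2⟩ ((hT'm y).1 hy).2
      have adj6 : ∀ y ∈ T', (AA φ τ).Adj (6, p, q) y → y = (0, q, hb) := by
        intro y hy ha
        have hyT := hsub hy
        rw [aaX _ _ _ _ (by simp), gr_adj] at ha
        have h1 : (Sp φ (6, p, q) y ∨ Sp φ y (6, p, q)) := by
          by_contra h1
          exact ha.2 ⟨fun h => absurd h h1, fun h => absurd h (by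
            rintro (h | h)
            · exact nH 6 h
            · exact hnoH y hyT h)⟩
        rw [sp6] at h1
        rw [eq_np (hT y hyT)]
        rcases h1 with h1 | ⟨h1, h2⟩
        · exact h1
        · exact absurd ⟨by omega, h2.symm⟩ ((hT'm y).1 hy).2
      have n45 : ¬ (AA φ τ).Adj (4, p, q) (5, p, q) := by
        rw [aaX _ _ _ _ (by simp), gr45]
        exact fun h => h hf
      have n46 : ¬ (AA φ τ).Adj (4, p, q) (6, p, q) := by
        rw [aaX _ _ _ _ (by simp), gr46]
        exact fun h => h hf
      -- first the vertices of kinds 5 and 6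
      have step1 : ∃ T1 : Finset Name, Good (AA φ τ) T1 ∧
          ∀ y, y ∈ T1 ↔ y ∈ T' ∨ (y ∈ T ∧ (y = (5, p, q) ∨ y = (6, p, q))) := by
        have g0 := hgood T' (Finset.Subset.refl _)
        by_cases h5 : ((5, p, q) : Name) ∈ T
        · by_cases h6 : ((6, p, q) : Name) ∈ T
          · by_cases ha : ((0, p, hb) : Name) ∈ T'
            · by_cases hb' : ((0, q, hb) : Name) ∈ T'
              · refine ⟨_, good_insert_path g0 ha hb' hab n5 n6 (by simp) adj5 adj6, ?_⟩
                intro y
                simp only [Finset.mem_insert]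
                constructor
                · rintro (rfl | rfl | h)
                  · exact Or.inr ⟨h5, Or.inl rfl⟩
                  · exact Or.inr ⟨h6, Or.inr rfl⟩
                  · exact Or.inl h
                · rintro (h | ⟨_, h | h⟩)
                  · exact Or.inr (Or.inr h)
                  · exact Or.inl h
                  · exact Or.inr (Or.inl h)
              · -- first 5, then 6
                have g1 := good_insert g0 n5 (fun x hx y hy h1 h2 h3 =>
                  absurd ((adj5 x hx h1).trans (adj5 y hy h2).symm) h3)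
                have g2 := good_insert (v := ((6, p, q) : Name)) g1 (by
                  rw [Finset.mem_insert, not_or]
                  exact ⟨by simp, n6⟩) (fun x hx y hy h1 h2 h3 => by
                  have hx' : x = (5, p, q) := by
                    rcases Finset.mem_insert.1 hx with h | h
                    · exact h
                    · exact absurd ((adj6 x h h1) ▸ h) hb'
                  have hy' : y = (5, p, q) := by
                    rcases Finset.mem_insert.1 hy with h | h
                    · exact h
                    · exact absurd ((adj6 y h h2) ▸ h) hb'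
                  exact absurd (hx'.trans hy'.symm) h3)
                refine ⟨_, g2, ?_⟩
                intro y
                simp only [Finset.mem_insert]
                constructor
                · rintro (rfl | rfl | h)
                  · exact Or.inr ⟨h6, Or.inr rfl⟩
                  · exact Or.inr ⟨h5, Or.inl rfl⟩
                  · exact Or.inl h
                · rintro (h | ⟨_, h | h⟩)
                  · exact Or.inr (Or.inr h)
                  · exact Or.inr (Or.inl h)
                  · exact Or.inl h
            · -- first 6, then 5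
              have g1 := good_insert g0 n6 (fun x hx y hy h1 h2 h3 =>
                absurd ((adj6 x hx h1).trans (adj6 y hy h2).symm) h3)
              have g2 := good_insert (v := ((5, p, q) : Name)) g1 (by
                rw [Finset.mem_insert, not_or]
                exact ⟨by simp, n5⟩) (fun x hx y hy h1 h2 h3 => by
                have hx' : x = (6, p, q) := by
                  rcases Finset.mem_insert.1 hx with h | h
                  · exact h
                  · exact absurd ((adj5 x h h1) ▸ h) ha
                have hy' : y = (6, p, q) := by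
                  rcases Finset.mem_insert.1 hy with h | h
                  · exact h
                  · exact absurd ((adj5 y h h2) ▸ h) ha
                exact absurd (hx'.trans hy'.symm) h3)
              refine ⟨_, g2, ?_⟩
              intro y
              simp only [Finset.mem_insert]
              constructor
              · rintro (rfl | rfl | h)
                · exact Or.inr ⟨h5, Or.inl rfl⟩
                · exact Or.inr ⟨h6, Or.inr rfl⟩
                · exact Or.inl h
              · rintro (h | ⟨_, h | h⟩)
                · exact Or.inr (Or.inr h)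
                · exact Or.inl h
                · exact Or.inr (Or.inl h)
          · have g1 := good_insert g0 n5 (fun x hx y hy h1 h2 h3 =>
              absurd ((adj5 x hx h1).trans (adj5 y hy h2).symm) h3)
            refine ⟨_, g1, ?_⟩
            intro y
            simp only [Finset.mem_insert]
            constructor
            · rintro (rfl | h)
              · exact Or.inr ⟨h5, Or.inl rfl⟩
              · exact Or.inl h
            · rintro (h | ⟨h', h | h⟩)
              · exact Or.inr h
              · exact Or.inl h
              · exact absurd (h ▸ h') h6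
        · by_cases h6 : ((6, p, q) : Name) ∈ T
          · have g1 := good_insert g0 n6 (fun x hx y hy h1 h2 h3 =>
              absurd ((adj6 x hx h1).trans (adj6 y hy h2).symm) h3)
            refine ⟨_, g1, ?_⟩
            intro y
            simp only [Finset.mem_insert]
            constructor
            · rintro (rfl | h)
              · exact Or.inr ⟨h6, Or.inr rfl⟩
              · exact Or.inl h
            · rintro (h | ⟨h', h | h⟩)
              · exact Or.inr h
              · exact absurd (h ▸ h') h5
              · exact Or.inl h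
          · refine ⟨T', g0, ?_⟩
            intro y
            constructor
            · exact Or.inl
            · rintro (h | ⟨h', h | h⟩)
              · exact h
              · exact absurd (h ▸ h') h5
              · exact absurd (h ▸ h') h6
      obtain ⟨T1, g1, hT1⟩ := step1
      by_cases h4 : ((4, p, q) : Name) ∈ T
      · have hT1n : ((4, p, q) : Name) ∉ T1 := by
          rw [hT1]
          rintro (h | ⟨_, h | h⟩)
          · exact n4 h
          · simp at h
          · simp at h
        have nb : ∀ y ∈ T1, (AA φ τ).Adj (4, p, q) y → y = (0, p, hb) ∨ y = (0, q, hb) := by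
          intro y hy ha
          rcases (hT1 y).1 hy with h | ⟨_, h | h⟩
          · exact adj4 y h ha
          · rw [h] at ha
            exact absurd ha n45
          · rw [h] at ha
            exact absurd ha n46
        have g2 := good_insert g1 hT1n (fun x hx y hy h1 h2 h3 => by
          rcases nb x hx h1 with rfl | rfl <;> rcases nb y hy h2 with rfl | rfl
          · exact absurd rfl h3
          · exact hab
          · exact hab.symm
          · exact absurd rfl h3)
        have : T = insert (4, p, q) T1 := by
          ext y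
          rw [Finset.mem_insert, hT1]
          constructor
          · intro hy
            by_cases hy' : y ∈ T'
            · exact Or.inr (Or.inl hy')
            · rcases hD y hy hy' with h | h
              · exact Or.inl h
              · exact Or.inr (Or.inr ⟨hy, h⟩)
          · rintro (h | h | h)
            · rw [h]; exact h4
            · exact hsub h
            · exact h.1
        rw [this]
        exact g2
      · have : T = T1 := by
          ext y
          rw [hT1]
          constructor
          · intro hy
            by_cases hy' : y ∈ T'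
            · exact Or.inl hy'
            · rcases hD y hy hy' with h | h
              · exact absurd (h ▸ hy) h4
              · exact Or.inr ⟨hy, h⟩
          · rintro (h | h)
            · exact hsub h
            · exact h.1
        rw [this]
        exact g1
    · -- forbidden pair
      have yH : ∀ k : ℕ, 4 ≤ k → High (k, p, q) := fun k hk => ⟨hk, hf⟩
      have hab : ¬ (AA φ τ).Adj (0, p, hb) (0, q, hb) := by
        rw [aa00]
        rintro (h | h)
        · rcases dd_ok hs hp hq h with h | h
          · exact hf (Or.inl h)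
          · exact hneed.2.1 h
        · rcases dd_ok hs hq hp h with h | h
          · exact hf (Or.inr h)
          · exact hneed.2.2 h
      have hred : ∀ (k : ℕ), 4 ≤ k → ∀ y, ((k, p, q) : Name) ≠ y →
          ((AA φ τ).Adj (k, p, q) y ↔ ¬ (Sp φ (k, p, q) y ∨ Sp φ y (k, p, q))) := by
        intro k hk y hne
        have hk0 : k ≠ 0 := by omega
        rw [aaX _ _ _ _ (by simp [hk0]), gr_adj]
        exact aux2 hne (yH k hk)
      refine good_high (a := (0, p, hb)) (b := (0, q, hb)) (α := (4, p, q)) (β := (5, p, q))
        (γ := (6, p, q)) hsub hD hgood n4 n5 n6 ?_ ?_ ?_ ?_ ?_ ?_ hab (by simp [hpq])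
      · intro y hy
        have hyT := hsub hy
        rw [hred 4 (by omega) y (fun h => n4 (h ▸ hy)), sp4, Ne, Ne, eq_np (hT y hyT),
          eq_np (hT y hyT)]
        exact aux1 _ _ _
      · intro y hy
        have hyT := hsub hy
        rw [hred 5 (by omega) y (fun h => n5 (h ▸ hy)), sp5, Ne, eq_np (hT y hyT)]
        exact aux3 (fun h => ((hT'm y).1 hy).2 ⟨by omega, h.2⟩)
      · intro y hy
        have hyT := hsub hy
        rw [hred 6 (by omega) y (fun h => n6 (h ▸ hy)), sp6, Ne, eq_np (hT y hyT)]
        exact aux3 (fun h => ((hT'm y).1 hy).2 ⟨by omega, h.2.symm⟩)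
      · rw [aaX _ _ _ _ (by simp), gr45]
        exact hf
      · rw [aaX _ _ _ _ (by simp), gr46]
        exact hf
      · rw [aaX _ _ _ _ (by simp), gr56]
        exact hf

end Pool.Agent.MP_96e1cb_lc
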