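import Mathlib

/-!
Perfect graphs, partitioned probe perfect graphs, and the encoding of the inputs.
-/

set_option autoImplicit false

namespace Pool.Agent.MP_96e1cb_lc

open SimpleGraph

/-- `G` is perfect: the chromatic number of each induced subgraph is its clique number. -/
def IsPerfect {V : Type} (G : SimpleGraph V) : Prop :=
  ∀ s : Set V, (G.induce s).chromaticNumber = ((G.induce s).cliqueNum : ℕ∞)

/-- Inputs of the recognition problem: a graph on `n` vertices with its vertices partitioned into
non-probes (`N i = true`) and probes (`N i = false`). -/
structure ProbeInput where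
  n : ℕ
  G : SimpleGraph (Fin n)
  decAdj : DecidableRel G.Adj
  N : Fin n → Bool

/-- code of an input: `1^n 0`, the adjacency matrix row by row, the indicator of the non-probes -/
def ProbeInput.encode (I : ProbeInput) : List Bool :=
  haveI := I.decAdj
  List.replicate I.n true ++ false ::
    ((List.ofFn fun i : Fin I.n => List.ofFn fun j : Fin I.n => decide (I.G.Adj i j)).flatten ++
      List.ofFn I.N)

/-- `(P, N, E)` is a partitioned probe perfect graph: the non-probes form an independent set, and
adding the edges of some graph `H` all of whose edges join two non-probes yields a perfect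
graph. -/
def IsProbePerfect (I : ProbeInput) : Prop :=
  (∀ i j, I.N i = true → I.N j = true → ¬ I.G.Adj i j) ∧
  ∃ H : SimpleGraph (Fin I.n), (∀ i j, H.Adj i j → I.N i = true ∧ I.N j = true) ∧
    IsPerfect (I.G ⊔ H)

end Pool.Agent.MP_96e1cb_lc
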