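import Pool.Agent.MP_96e1cb_lc.RedPT

/-!
NP-hardness of recognising partitioned probe perfect graphs.
-/

set_option autoImplicit false

namespace Pool.Agent.MP_96e1cb_lc

open Turing Lib.helper60

/-- Every language in NP is reducible in polynomial time to the recognition of partitioned probe
perfect graphs. -/
theorem probe_hard {L : Set (List Bool)} (hL : InNP L) : ∃ f : List Bool → ProbeInput,
    Nonempty (TM2ComputableInPolyTime (fun w : List Bool => w) ProbeInput.encode f) ∧
    ∀ w, w ∈ L ↔ IsProbePerfect (f w) := by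
  obtain ⟨f, hf, hfL⟩ := H66.cook_levin hL.toH66
  obtain ⟨h1⟩ := hf.tm2_raw
  have h2 := red_polytime
  have e : (H66.enc : List H66.Cl → List Bool) = (fun φ : List H66.Cl => (toD φ).enc) := by
    funext φ
    exact ((Same.bool.prod Same.nat).prod ((Same.bool.prod Same.nat).prod
      (Same.bool.prod Same.nat))).list φ
  rw [← e] at h2
  obtain ⟨h2⟩ := h2
  refine ⟨red ∘ f, TM2_comp h1 h2, ?_⟩
  intro w
  rw [hfL w]
  exact red_correct (f w)

end Pool.Agent.MP_96e1cb_lc
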