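import Pool.Agent.MP_96e1cb_lc.Ver2
import Pool.Agent.MP_96e1cb_lc.Hard

/-!
A polynomial-time algorithm exists if and only if P = NP.
-/

set_option autoImplicit false

namespace Pool.Agent.MP_96e1cb_lc

open SimpleGraph Lib.helper60 Turing Computability

/-- negation of a decision procedure given on raw strings -/
lemma neg_machine {α : Type} {ea : α → List Bool} {d : List Bool → Bool}
    (hd : Nonempty (TM2ComputableInPolyTime (fun w : List Bool => w) encodeBool d)) :
    Nonempty (TM2ComputableInPolyTime ea encodeBool (fun a => !(d (ea a)))) := by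
  obtain ⟨hd⟩ := hd
  have h1 : TM2ComputableInPolyTime ea encodeBool (fun a => d (ea a)) := TM2_precomp hd
  have h2 : Nonempty (TM2ComputableInPolyTime encodeBool encodeBool (fun b : Bool => !b)) :=
    PT.decider (F := fun w : List Bool => !(w.headD false)) (PT.bnot (PT.headD PT.id
      (PT.const false))) (fun _ => rfl)
  obtain ⟨h2⟩ := h2
  exact TM2_comp h1 h2

/-- a polynomial-time algorithm from P = NP -/
theorem algorithm_of_eq (h : ∀ L : Set (List Bool), InNP L → InP L) :
    ∃ d : List Bool → Bool,
      Nonempty (TM2ComputableInPolyTime (fun w : List Bool => w) encodeBool d) ∧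
      ∀ I : ProbeInput, d I.encode = true ↔ IsProbePerfect I := by
  -- level 1
  let V : List Bool × List Bool → Bool := fun p => verif (unpair (unpair p.1).1,
    ((unpair p.1).2, p.2))
  have hV : PT V := by
    have h1 : PT (fun p : List Bool × List Bool => ((unpair (unpair p.1).1,
        ((unpair p.1).2, p.2)) : (List Bool × List Bool) × (List Bool × List Bool))) :=
      PT.pair (PT_unpair.comp (PT_unpair.comp PT.fst).p1) (PT.pair (PT_unpair.comp PT.fst).p2
        PT.snd)
    exact PT_verif.comp h1
  obtain ⟨d1, hd1, hL1⟩ := h {u | ∃ c : List Bool,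
    c.length ≤ (Polynomial.X + Polynomial.X * Polynomial.X : Polynomial ℕ).eval u.length ∧
      V (u, c) = true} ⟨V, _, PT.verifier hV, fun w => Iff.rfl⟩
  -- level 2
  obtain ⟨d2, hd2, hL2⟩ := h {v | ∃ X : List Bool,
    X.length ≤ (Polynomial.X : Polynomial ℕ).eval v.length ∧ (!(d1 (encPair (v, X)))) = true}
    ⟨fun p => !(d1 (encPair p)), _, neg_machine hd1, fun w => Iff.rfl⟩
  -- level 3
  obtain ⟨d3, hd3, hL3⟩ := h {w | ∃ E : List Bool,
    E.length ≤ (Polynomial.X * Polynomial.X : Polynomial ℕ).eval w.length ∧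
      (!(d2 (encPair (w, E)))) = true}
    ⟨fun p => !(d2 (encPair p)), _, neg_machine hd2, fun w => Iff.rfl⟩
  refine ⟨d3, hd3, ?_⟩
  intro I
  have lenPair : ∀ a b : List Bool, a.length ≤ (encPair (a, b)).length := by
    intro a b
    unfold encPair
    have : (a.flatMap (fun b => [b, b])).length = 2 * a.length := by
      induction a with
      | nil => rfl
      | cons x a ih => rw [List.flatMap_cons, List.length_append, ih, List.length_cons,
          List.length_cons, List.length_cons, List.length_nil]; ring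
    rw [List.length_append, this]
    omega
  have hn := n_le I
  have k1 : ∀ E X : List Bool, d1 (encPair (encPair (I.encode, E), X)) = true ↔
      ∃ c : List Bool, c.length ≤ I.n + I.n * I.n ∧ chk I.n I.rest E X c = true := by
    intro E X
    rw [← hL1]
    have e : ∀ c : List Bool, V (encPair (encPair (I.encode, E), X), c) =
        chk I.n I.rest E X c := by
      intro c
      simp only [V, unpair_enc]
      exact verif_eq I E X c
    constructor
    · rintro ⟨c, _, hc⟩
      rw [e] at hc
      obtain ⟨h1, h2⟩ := chk_sound I hc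
      exact chk_complete I h1 h2
    · rintro ⟨c, hc1, hc2⟩
      refine ⟨c, ?_, by rw [e]; exact hc2⟩
      have h1 := lenPair I.encode E
      have h2 := lenPair (encPair (I.encode, E)) X
      simp only [Polynomial.eval_add, Polynomial.eval_mul, Polynomial.eval_X]
      have h3 : I.n ≤ (encPair (encPair (I.encode, E), X)).length := by omega
      exact hc1.trans (add_le_add h3 (Nat.mul_le_mul h3 h3))
  have k2 : ∀ E : List Bool, d2 (encPair (I.encode, E)) = true ↔ ∃ X : List Bool,
      X.length ≤ I.n ∧ ¬ ∃ c : List Bool, c.length ≤ I.n + I.n * I.n ∧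
        chk I.n I.rest E X c = true := by
    intro E
    rw [← hL2]
    constructor
    · rintro ⟨X, _, hX⟩
      rw [Bool.not_eq_true', ← Bool.not_eq_true, k1] at hX
      obtain ⟨X', hX', e⟩ := exists_setOf' I.n (setOf' I.n X)
      refine ⟨X', hX'.le, fun ⟨c, hc1, hc2⟩ => hX ?_⟩
      obtain ⟨h1, h2⟩ := chk_sound I hc2
      rw [e] at h2
      exact chk_complete I h1 h2
    · rintro ⟨X, hX1, hX2⟩
      refine ⟨X, ?_, ?_⟩
      · have h1 := lenPair I.encode E
        simp only [Polynomial.eval_X]
        omega
      · rw [Bool.not_eq_true', ← Bool.not_eq_true, k1]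
        exact hX2
  rw [← hL3, probePerfect_iff]
  constructor
  · rintro ⟨E, _, hE⟩
    rw [Bool.not_eq_true', ← Bool.not_eq_true, k2] at hE
    obtain ⟨E', hE', e⟩ := exists_addG I (addG I E) (fun i j hij => hij.1)
    refine ⟨E', hE'.le, ?_⟩
    intro X hX
    by_contra hcon
    refine hE ⟨X, hX, fun ⟨c, hc1, hc2⟩ => hcon ?_⟩
    obtain ⟨h1, h2⟩ := chk_sound I hc2
    rw [← e] at h2
    exact chk_complete I h1 h2
  · rintro ⟨E, hE, hX⟩
    refine ⟨E, ?_, ?_⟩
    · simp only [Polynomial.eval_mul, Polynomial.eval_X]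
      exact hE.trans (Nat.mul_le_mul hn hn)
    · rw [Bool.not_eq_true', ← Bool.not_eq_true, k2]
      rintro ⟨X, hX1, hX2⟩
      exact hX2 (hX X hX1)

/-- P = NP from a polynomial-time algorithm -/
theorem eq_of_algorithm {d : ProbeInput → Bool}
    (hd : Nonempty (TM2ComputableInPolyTime ProbeInput.encode encodeBool d))
    (hc : ∀ I : ProbeInput, d I = true ↔ IsProbePerfect I)
    (L : Set (List Bool)) (hL : InNP L) : InP L := by
  obtain ⟨f, ⟨hf⟩, hfL⟩ := probe_hard hL
  obtain ⟨hd⟩ := hd
  refine ⟨d ∘ f, TM2_comp hf hd, ?_⟩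
  intro w
  rw [hfL w]
  exact (hc (f w)).symm

end Pool.Agent.MP_96e1cb_lc
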