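import Pool.Agent.MP_96e1cb_lc.Names

/-!
Adjacency in the graph on names, kind by kind.
-/

set_option autoImplicit false

namespace Pool.Agent.MP_96e1cb_lc

open SimpleGraph

variable (φ : List H66.Cl) (p q r s : P3)

lemma gr00 : ¬ (gr φ).Adj (0, p, hb) (0, q, hb) := by simp [gr_adj, Sp, High]

lemma gr10 : (gr φ).Adj (1, p, hb) (0, r, hb) ↔ r = hb ∨ r = p := by
  simp [gr_adj, Sp, High]
  tauto

lemma gr20 : (gr φ).Adj (2, p, q) (0, r, hb) ↔ rel φ p q ∧ (r = p ∨ (sgn φ p q ∧ r = q)) := by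
  simp [gr_adj, Sp, High]
  tauto

lemma gr30 : (gr φ).Adj (3, p, q) (0, r, hb) ↔ rel φ p q ∧ ¬ sgn φ p q ∧ r = q := by
  simp [gr_adj, Sp, High]

lemma gr40 : (gr φ).Adj (4, p, q) (0, r, hb) ↔ ¬ ((r = p ∨ r = q) ↔ ¬ frc p q) := by
  simp [gr_adj, Sp, High]

lemma gr50 : (gr φ).Adj (5, p, q) (0, r, hb) ↔ ¬ (r = p ↔ ¬ frc p q) := by
  simp [gr_adj, Sp, High]

lemma gr60 : (gr φ).Adj (6, p, q) (0, r, hb) ↔ ¬ (r = q ↔ ¬ frc p q) := by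
  simp [gr_adj, Sp, High]

lemma gr11 : ¬ (gr φ).Adj (1, p, hb) (1, q, hb) := by simp [gr_adj, Sp, High]

lemma gr21 : ¬ (gr φ).Adj (2, p, q) (1, r, hb) := by simp [gr_adj, Sp, High]

lemma gr31 : ¬ (gr φ).Adj (3, p, q) (1, r, hb) := by simp [gr_adj, Sp, High]

lemma gr23 : (gr φ).Adj (2, p, q) (3, r, s) ↔ rel φ p q ∧ (r, s) = (p, q) ∧ ¬ sgn φ p q := by
  simp [gr_adj, Sp, High]
  tauto

lemma gr22 : ¬ (gr φ).Adj (2, p, q) (2, r, s) := by simp [gr_adj, Sp, High]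

lemma gr33 : ¬ (gr φ).Adj (3, p, q) (3, r, s) := by simp [gr_adj, Sp, High]

lemma gr45 : (gr φ).Adj (4, p, q) (5, p, q) ↔ ¬ frc p q := by
  simp [gr_adj, Sp, High]

lemma gr46 : (gr φ).Adj (4, p, q) (6, p, q) ↔ ¬ frc p q := by
  simp [gr_adj, Sp, High]

lemma gr56 : (gr φ).Adj (5, p, q) (6, p, q) ↔ frc p q := by
  simp [gr_adj, Sp, High]

end Pool.Agent.MP_96e1cb_lc
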