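import Pool.Agent.MP_96e1cb_lc.Perf3
import Pool.Agent.Lib.helper66.Tableau

/-!
The probe graph of a 3-CNF formula: names of the vertices and adjacency.
-/

set_option autoImplicit false

namespace Pool.Agent.MP_96e1cb_lc

open SimpleGraph

/-- names of non-probes: kind (`0` hub, `1` literal, `2` clique vertex), clause, position -/
abbrev P3 : Type := ℕ × ℕ × ℕ

/-- names of vertices: kind and two non-probes -/
abbrev Name : Type := ℕ × P3 × P3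

/-- the hub -/
abbrev hb : P3 := (0, 0, 0)

/-- the literal at a position of a clause -/
def litP (φ : List H66.Cl) (p : P3) : Bool × ℕ :=
  if p.2.2 = 0 then (φ.getD p.2.1 ((true, 0), (true, 0), (true, 0))).1
  else if p.2.2 = 1 then (φ.getD p.2.1 ((true, 0), (true, 0), (true, 0))).2.1
  else (φ.getD p.2.1 ((true, 0), (true, 0), (true, 0))).2.2

/-- two positions carry the same variable -/
def rel (φ : List H66.Cl) (p q : P3) : Prop :=
  ¬ p.2.2 = 3 ∧ ¬ q.2.2 = 3 ∧ (litP φ p).2 = (litP φ q).2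

instance (φ : List H66.Cl) (p q : P3) : Decidable (rel φ p q) := by unfold rel; infer_instance

/-- two positions carry the same sign -/
def sgn (φ : List H66.Cl) (p q : P3) : Prop := (litP φ p).1 = (litP φ q).1

instance (φ : List H66.Cl) (p q : P3) : Decidable (sgn φ p q) := by unfold sgn; infer_instance

/-- optional pairs, one direction -/
def opt1 (p q : P3) : Prop :=
  (p.1 = 0 ∧ q.1 = 1 ∧ ¬ q.2.2 = 3) ∨
  (p.1 = 1 ∧ q.1 = 2 ∧ p.2.1 = q.2.1 ∧ ¬ p.2.2 = q.2.2 ∧ ¬ q.2.2 + 1 = p.2.2 ∧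
    ¬ (p.2.2 = 0 ∧ q.2.2 = 3))

instance (p q : P3) : Decidable (opt1 p q) := by unfold opt1; infer_instance

/-- forced pairs, one direction -/
def frc1 (p q : P3) : Prop :=
  (p.1 = 2 ∧ q.1 = 2 ∧ p.2.1 = q.2.1 ∧ ¬ p.2.2 = q.2.2) ∨
  (p.1 = 1 ∧ q.1 = 2 ∧ p.2.1 = q.2.1 ∧ p.2.2 = q.2.2)

instance (p q : P3) : Decidable (frc1 p q) := by unfold frc1; infer_instance

/-- forced pairs -/
def frc (p q : P3) : Prop := frc1 p q ∨ frc1 q p

instance (p q : P3) : Decidable (frc p q) := by unfold frc; infer_instance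

/-- pairs that get a gadget -/
def need (p q : P3) : Prop := ¬ p = q ∧ ¬ opt1 p q ∧ ¬ opt1 q p

instance (p q : P3) : Decidable (need p q) := by unfold need; infer_instance

/-- special pairs, directed -/
def Sp (φ : List H66.Cl) (x y : Name) : Prop :=
  (x.1 = 1 ∧ y.1 = 0 ∧ (y.2.1 = hb ∨ y.2.1 = x.2.1)) ∨
  (x.1 = 2 ∧ rel φ x.2.1 x.2.2 ∧
    ((y.1 = 0 ∧ (y.2.1 = x.2.1 ∨ (sgn φ x.2.1 x.2.2 ∧ y.2.1 = x.2.2))) ∨
      (y.1 = 3 ∧ y.2 = x.2 ∧ ¬ sgn φ x.2.1 x.2.2))) ∨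
  (x.1 = 3 ∧ rel φ x.2.1 x.2.2 ∧ ¬ sgn φ x.2.1 x.2.2 ∧ y.1 = 0 ∧ y.2.1 = x.2.2) ∨
  (x.1 = 4 ∧ y.1 = 0 ∧ (y.2.1 = x.2.1 ∨ y.2.1 = x.2.2)) ∨
  (x.1 = 5 ∧ ((y.1 = 0 ∧ y.2.1 = x.2.1) ∨ (y.1 = 6 ∧ y.2 = x.2))) ∨
  (x.1 = 6 ∧ y.1 = 0 ∧ y.2.1 = x.2.2)

instance (φ : List H66.Cl) (x y : Name) : Decidable (Sp φ x y) := by unfold Sp; infer_instance

/-- vertices of the gadgets of forbidden pairs -/
def High (x : Name) : Prop := 4 ≤ x.1 ∧ ¬ frc x.2.1 x.2.2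

instance (x : Name) : Decidable (High x) := by unfold High; infer_instance

/-- the graph on names -/
def gr (φ : List H66.Cl) : SimpleGraph Name where
  Adj x y := x ≠ y ∧ ¬ ((Sp φ x y ∨ Sp φ y x) ↔ (High x ∨ High y))
  symm := ⟨fun x y h => ⟨h.1.symm, by rw [or_comm (a := Sp φ y x), or_comm (a := High y)]; exact h.2⟩⟩
  loopless := ⟨fun x h => h.1 rfl⟩

lemma gr_adj (φ : List H66.Cl) (x y : Name) :
    (gr φ).Adj x y ↔ x ≠ y ∧ ¬ ((Sp φ x y ∨ Sp φ y x) ↔ (High x ∨ High y)) := Iff.rfl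

instance (φ : List H66.Cl) : DecidableRel (gr φ).Adj := fun x y =>
  decidable_of_iff _ (gr_adj φ x y).symm

/-- the non-probes -/
def nps (m : ℕ) : List P3 :=
  hb :: (List.range m).flatMap (fun c => (List.range 4).flatMap (fun i => [(1, c, i), (2, c, i)]))

/-- the literal vertices -/
def wsl (m : ℕ) : List P3 :=
  (List.range m).flatMap (fun c => (List.range 4).map (fun i => (1, c, i)))

lemma mem_nps {m : ℕ} {p : P3} : p ∈ nps m ↔
    p = hb ∨ ((p.1 = 1 ∨ p.1 = 2) ∧ p.2.1 < m ∧ p.2.2 < 4) := by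
  obtain ⟨t, c, i⟩ := p
  simp only [nps, List.mem_cons, List.mem_flatMap, List.mem_range, List.not_mem_nil, or_false,
    Prod.mk.injEq]
  constructor
  · rintro (h | ⟨c', hc, i', hi, h | h⟩)
    · exact Or.inl h
    · right; omega
    · right; omega
  · rintro (h | ⟨h, h2, h3⟩)
    · exact Or.inl h
    · right
      refine ⟨c, h2, i, h3, ?_⟩
      rcases h with h | h
      · left; exact ⟨h, rfl, rfl⟩
      · right; exact ⟨h, rfl, rfl⟩

lemma mem_wsl {m : ℕ} {p : P3} : p ∈ wsl m ↔ p.1 = 1 ∧ p.2.1 < m ∧ p.2.2 < 4 := by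
  obtain ⟨t, c, i⟩ := p
  simp only [wsl, List.mem_flatMap, List.mem_map, List.mem_range, Prod.mk.injEq]
  constructor
  · rintro ⟨c', hc, i', hi, h⟩
    omega
  · rintro ⟨h, h2, h3⟩
    exact ⟨c, h2, i, h3, h.symm, rfl, rfl⟩

/-- all vertices -/
def verts (m : ℕ) : List Name :=
  (nps m).map (fun p => (0, p, hb)) ++ ((wsl m).map (fun p => (1, p, hb)) ++
    ((wsl m).flatMap (fun p => (wsl m).flatMap (fun q => [(2, p, q), (3, p, q)])) ++
      (nps m).flatMap (fun p => (nps m).flatMap (fun q =>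
        if need p q then [(4, p, q), (5, p, q), (6, p, q)] else []))))

/-- description of the vertices -/
def Vd (m : ℕ) (x : Name) : Prop :=
  (x.1 = 0 ∧ x.2.1 ∈ nps m ∧ x.2.2 = hb) ∨ (x.1 = 1 ∧ x.2.1 ∈ wsl m ∧ x.2.2 = hb) ∨
  ((x.1 = 2 ∨ x.1 = 3) ∧ x.2.1 ∈ wsl m ∧ x.2.2 ∈ wsl m) ∨
  ((x.1 = 4 ∨ x.1 = 5 ∨ x.1 = 6) ∧ x.2.1 ∈ nps m ∧ x.2.2 ∈ nps m ∧ need x.2.1 x.2.2)

lemma mem_verts {m : ℕ} {x : Name} : x ∈ verts m ↔ Vd m x := by
  obtain ⟨k, p, q⟩ := x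
  unfold verts Vd
  simp only [List.mem_append, List.mem_map, List.mem_flatMap]
  constructor
  · rintro (⟨p', hp, h⟩ | ⟨p', hp, h⟩ | ⟨p', hp, q', hq, h⟩ | ⟨p', hp, q', hq, h⟩)
    · simp only [Prod.mk.injEq] at h
      obtain ⟨rfl, rfl, rfl⟩ := h
      exact Or.inl ⟨rfl, hp, rfl⟩
    · simp only [Prod.mk.injEq] at h
      obtain ⟨rfl, rfl, rfl⟩ := h
      exact Or.inr (Or.inl ⟨rfl, hp, rfl⟩)
    · simp only [List.mem_cons, List.not_mem_nil, or_false, Prod.mk.injEq] at h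
      rcases h with ⟨rfl, rfl, rfl⟩ | ⟨rfl, rfl, rfl⟩
      · exact Or.inr (Or.inr (Or.inl ⟨Or.inl rfl, hp, hq⟩))
      · exact Or.inr (Or.inr (Or.inl ⟨Or.inr rfl, hp, hq⟩))
    · split_ifs at h with hn
      · simp only [List.mem_cons, List.not_mem_nil, or_false, Prod.mk.injEq] at h
        rcases h with ⟨rfl, rfl, rfl⟩ | ⟨rfl, rfl, rfl⟩ | ⟨rfl, rfl, rfl⟩
        · exact Or.inr (Or.inr (Or.inr ⟨Or.inl rfl, hp, hq, hn⟩))
        · exact Or.inr (Or.inr (Or.inr ⟨Or.inr (Or.inl rfl), hp, hq, hn⟩))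
        · exact Or.inr (Or.inr (Or.inr ⟨Or.inr (Or.inr rfl), hp, hq, hn⟩))
      · simp at h
  · rintro (⟨h1, h2, h3⟩ | ⟨h1, h2, h3⟩ | ⟨h1, h2, h3⟩ | ⟨h1, h2, h3, h4⟩)
    · subst h1 h3
      exact Or.inl ⟨p, h2, rfl⟩
    · subst h1 h3
      exact Or.inr (Or.inl ⟨p, h2, rfl⟩)
    · refine Or.inr (Or.inr (Or.inl ⟨p, h2, q, h3, ?_⟩))
      rcases h1 with rfl | rfl
      · simp
      · simp
    · refine Or.inr (Or.inr (Or.inr ⟨p, h2, q, h3, ?_⟩))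
      rw [if_pos h4]
      rcases h1 with rfl | rfl | rfl
      · simp
      · simp
      · simp

end Pool.Agent.MP_96e1cb_lc
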