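import Pool.Agent.MP_96e1cb_lc.Defs

/-!
Perfection in terms of finite vertex sets; extension lemmas; odd cycles.
-/

set_option autoImplicit false

namespace Pool.Agent.MP_96e1cb_lc

open SimpleGraph

section good

variable {X : Type} [DecidableEq X] (A : SimpleGraph X)

/-- the subgraph induced on `T` has a clique and a colouring with the same number `k` -/
def Good (T : Finset X) : Prop :=
  ∃ k : ℕ, (∃ K : Finset X, K ⊆ T ∧ K.card = k ∧ ∀ x ∈ K, ∀ y ∈ K, x ≠ y → A.Adj x y) ∧
    ∃ c : X → ℕ, (∀ x ∈ T, c x < k) ∧ ∀ x ∈ T, ∀ y ∈ T, A.Adj x y → c x ≠ c y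

variable {A}

/-- transitively orientable graphs (the orientation is given by a rank function) -/
lemma good_of_rank (r : X → ℕ) : ∀ (n : ℕ) (T : Finset X), T.card = n →
    (∀ x ∈ T, ∀ y ∈ T, A.Adj x y → r x ≠ r y) →
    (∀ x ∈ T, ∀ y ∈ T, ∀ z ∈ T, A.Adj x y → A.Adj y z → r x < r y → r y < r z → A.Adj x z) →
    Good A T := by
  classical
  intro n
  induction n using Nat.strong_induction_on with
  | _ n ih =>
    intro T hn h1 h2
    by_cases hT : T = ∅
    · subst hT
      exact ⟨0, ⟨∅, by simp, by simp, by simp⟩, fun _ => 0, by simp, by simp⟩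
    · have hTn : T.Nonempty := Finset.nonempty_iff_ne_empty.2 hT
      let M : Finset X := T.filter (fun x => ∀ y ∈ T, A.Adj x y → ¬ r x < r y)
      have hM : ∀ x, x ∈ M ↔ x ∈ T ∧ ∀ y ∈ T, A.Adj x y → ¬ r x < r y := fun x => by
        simp only [M, Finset.mem_filter]
      obtain ⟨x₀, hx₀, hmax⟩ := T.exists_max_image r hTn
      have hx₀M : x₀ ∈ M := (hM x₀).2 ⟨hx₀, fun y hy _ => not_lt.2 (hmax y hy)⟩
      have hcard : (T \ M).card < n := by
        rw [← hn]
        apply Finset.card_lt_card
        refine ⟨Finset.sdiff_subset, fun h => ?_⟩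
        exact (Finset.mem_sdiff.1 (h hx₀)).2 hx₀M
      have hsub : ∀ x ∈ T \ M, x ∈ T := fun x hx => (Finset.mem_sdiff.1 hx).1
      obtain ⟨k, ⟨K, hK, hKc, hKa⟩, c, hc1, hc2⟩ := ih _ hcard (T \ M) rfl
        (fun x hx y hy => h1 x (hsub x hx) y (hsub y hy))
        (fun x hx y hy z hz => h2 x (hsub x hx) y (hsub y hy) z (hsub z hz))
      refine ⟨k + 1, ?_, fun z => if z ∈ M then k else c z, ?_, ?_⟩
      · by_cases hKe : K = ∅
        · refine ⟨{x₀}, by simpa using hx₀, ?_, ?_⟩
          · subst hKe
            simp at hKc
            simp [← hKc]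
          · intro x hx y hy hxy
            simp at hx hy
            exact absurd (hx.trans hy.symm) hxy
        · obtain ⟨x, hx, hxmax⟩ := K.exists_max_image r (Finset.nonempty_iff_ne_empty.2 hKe)
          have hxT := hsub x (hK hx)
          have hxM : x ∉ M := (Finset.mem_sdiff.1 (hK hx)).2
          rw [hM] at hxM
          push Not at hxM
          obtain ⟨y, hy, hxy, hr⟩ := hxM hxT
          have hyK : y ∉ K := fun h => absurd (hxmax y h) (not_le.2 hr)
          have hz : ∀ z ∈ K, A.Adj z y := by
            intro z hz
            by_cases hzx : z = x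
            · rw [hzx]; exact hxy
            · have hzx' := hKa z hz x hx hzx
              have h3 : r z < r x := lt_of_le_of_ne (hxmax z hz)
                (h1 z (hsub z (hK hz)) x hxT hzx')
              exact h2 z (hsub z (hK hz)) x hxT y hy hzx' hxy h3 hr
          refine ⟨insert y K, ?_, ?_, ?_⟩
          · intro z hzz
            rcases Finset.mem_insert.1 hzz with rfl | h
            · exact hy
            · exact hsub z (hK h)
          · rw [Finset.card_insert_of_notMem hyK, hKc]
          · intro u hu w hw huw
            rcases Finset.mem_insert.1 hu with hu' | hu'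
            · rcases Finset.mem_insert.1 hw with hw' | hw'
              · exact absurd (hu'.trans hw'.symm) huw
              · rw [hu']; exact (hz w hw').symm
            · rcases Finset.mem_insert.1 hw with hw' | hw'
              · rw [hw']; exact hz u hu'
              · exact hKa u hu' w hw' huw
      · intro x hx
        beta_reduce
        split_ifs with h
        · omega
        · have := hc1 x (Finset.mem_sdiff.2 ⟨hx, h⟩)
          omega
      · intro x hx y hy hxy
        beta_reduce
        split_ifs with h h' h'
        · exfalso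
          have h3 := ((hM x).1 h).2 y hy hxy
          have h4 := ((hM y).1 h').2 x hx hxy.symm
          have h5 := h1 x hx y hy hxy
          omega
        · have := hc1 y (Finset.mem_sdiff.2 ⟨hy, h'⟩)
          omega
        · have := hc1 x (Finset.mem_sdiff.2 ⟨hx, h⟩)
          omega
        · exact hc2 x (Finset.mem_sdiff.2 ⟨hx, h⟩) y (Finset.mem_sdiff.2 ⟨hy, h'⟩) hxy

/-- adding a simplicial vertex -/
lemma good_insert {T : Finset X} {v : X} (hT : Good A T) (hv : v ∉ T)
    (hN : ∀ x ∈ T, ∀ y ∈ T, A.Adj v x → A.Adj v y → x ≠ y → A.Adj x y) : Good A (insert v T) := by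
  classical
  obtain ⟨k, ⟨K, hK, hKc, hKa⟩, c, hc1, hc2⟩ := hT
  let N : Finset X := T.filter (fun x => A.Adj v x)
  have hNm : ∀ x, x ∈ N ↔ x ∈ T ∧ A.Adj v x := fun x => by simp only [N, Finset.mem_filter]
  have hinj : Set.InjOn c (N : Set X) := by
    intro x hx y hy hxy
    by_contra hne
    have hx' := (hNm x).1 hx
    have hy' := (hNm y).1 hy
    exact hc2 x hx'.1 y hy'.1 (hN x hx'.1 y hy'.1 hx'.2 hy'.2 hne) hxy
  have himg : (N.image c).card = N.card := Finset.card_image_of_injOn hinj
  have hsub : N.image c ⊆ Finset.range k := by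
    intro j hj
    obtain ⟨x, hx, rfl⟩ := Finset.mem_image.1 hj
    exact Finset.mem_range.2 (hc1 x ((hNm x).1 hx).1)
  have hle : N.card ≤ k := by
    rw [← himg]
    simpa using Finset.card_le_card hsub
  by_cases hlt : N.card < k
  · have hex : ∃ j ∈ Finset.range k, j ∉ N.image c := by
      apply Finset.exists_mem_notMem_of_card_lt_card
      rw [himg]
      simpa using hlt
    obtain ⟨j, hj, hjn⟩ := hex
    refine ⟨k, ⟨K, hK.trans (Finset.subset_insert _ _), hKc, hKa⟩,
      fun x => if x = v then j else c x, ?_, ?_⟩
    · intro x hx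
      beta_reduce
      split_ifs with h
      · exact Finset.mem_range.1 hj
      · exact hc1 x ((Finset.mem_insert.1 hx).resolve_left h)
    · intro x hx y hy hxy
      beta_reduce
      split_ifs with h h' h'
      · exact absurd (h.trans h'.symm) hxy.ne
      · intro hcj
        apply hjn
        rw [hcj]
        refine Finset.mem_image_of_mem _ ((hNm y).2 ⟨(Finset.mem_insert.1 hy).resolve_left h', ?_⟩)
        rw [← h]; exact hxy
      · intro hcj
        apply hjn
        rw [← hcj]
        refine Finset.mem_image_of_mem _ ((hNm x).2 ⟨(Finset.mem_insert.1 hx).resolve_left h, ?_⟩)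
        rw [← h']; exact hxy.symm
      · exact hc2 x ((Finset.mem_insert.1 hx).resolve_left h) y
          ((Finset.mem_insert.1 hy).resolve_left h') hxy
  · have heq : N.card = k := le_antisymm hle (not_lt.1 hlt)
    refine ⟨k + 1, ⟨insert v N, ?_, ?_, ?_⟩, fun x => if x = v then k else c x, ?_, ?_⟩
    · intro x hx
      rcases Finset.mem_insert.1 hx with rfl | h
      · exact Finset.mem_insert_self _ _
      · exact Finset.mem_insert_of_mem ((hNm x).1 h).1
    · rw [Finset.card_insert_of_notMem (fun h => hv ((hNm v).1 h).1), heq]
    · intro x hx y hy hxy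
      rcases Finset.mem_insert.1 hx with rfl | hx
      · rcases Finset.mem_insert.1 hy with rfl | hy
        · exact absurd rfl hxy
        · exact ((hNm y).1 hy).2
      · rcases Finset.mem_insert.1 hy with rfl | hy
        · exact ((hNm x).1 hx).2.symm
        · exact hN x ((hNm x).1 hx).1 y ((hNm y).1 hy).1 ((hNm x).1 hx).2 ((hNm y).1 hy).2 hxy
    · intro x hx
      beta_reduce
      split_ifs with h
      · omega
      · have := hc1 x ((Finset.mem_insert.1 hx).resolve_left h)
        omega
    · intro x hx y hy hxy
      beta_reduce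
      split_ifs with h h' h'
      · exact absurd (h.trans h'.symm) hxy.ne
      · have := hc1 y ((Finset.mem_insert.1 hy).resolve_left h')
        omega
      · have := hc1 x ((Finset.mem_insert.1 hx).resolve_left h)
        omega
      · exact hc2 x ((Finset.mem_insert.1 hx).resolve_left h) y
          ((Finset.mem_insert.1 hy).resolve_left h') hxy

/-- adding the inner vertices of a path with three edges between adjacent vertices -/
lemma good_insert_path {T : Finset X} {a b β γ : X} (hT : Good A T) (ha : a ∈ T) (hb : b ∈ T)
    (hab : A.Adj a b) (hβ : β ∉ T) (hγ : γ ∉ T) (hβγ : β ≠ γ)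
    (hβa : ∀ x ∈ T, A.Adj β x → x = a) (hγb : ∀ x ∈ T, A.Adj γ x → x = b) :
    Good A (insert β (insert γ T)) := by
  obtain ⟨k, ⟨K, hK, hKc, hKa⟩, c, hc1, hc2⟩ := hT
  have hcab := hc2 a ha b hb hab
  refine ⟨k, ⟨K, fun x hx => Finset.mem_insert_of_mem (Finset.mem_insert_of_mem (hK hx)), hKc,
    hKa⟩, fun x => if x = β then c b else if x = γ then c a else c x, ?_, ?_⟩
  · intro x hx
    simp only [Finset.mem_insert] at hx
    beta_reduce
    split_ifs with h h'
    · exact hc1 b hb
    · exact hc1 a ha
    · exact hc1 x ((hx.resolve_left h).resolve_left h')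
  · have key : ∀ x y, x = β ∨ x = γ ∨ x ∈ T → y = β ∨ y = γ ∨ y ∈ T → A.Adj x y →
        (if x = β then c b else if x = γ then c a else c x) ≠
        (if y = β then c b else if y = γ then c a else c y) := by
      intro x y hx hy hxy
      by_cases h1 : x = β
      · subst h1
        by_cases h2 : y = x
        · exact absurd h2.symm hxy.ne
        · rw [if_pos rfl, if_neg h2]
          by_cases h3 : y = γ
          · rw [if_pos h3]; exact hcab.symm
          · rw [if_neg h3, hβa y ((hy.resolve_left h2).resolve_left h3) hxy]
            exact hcab.symm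
      · rw [if_neg h1]
        by_cases h3 : x = γ
        · subst h3
          rw [if_pos rfl]
          by_cases h2 : y = β
          · rw [if_pos h2]; exact hcab
          · rw [if_neg h2]
            by_cases h4 : y = x
            · exact absurd h4.symm hxy.ne
            · rw [if_neg h4, hγb y ((hy.resolve_left h2).resolve_left h4) hxy]
              exact hcab
        · rw [if_neg h3]
          have hxT := (hx.resolve_left h1).resolve_left h3
          by_cases h2 : y = β
          · subst h2
            rw [if_pos rfl, hβa x hxT hxy.symm]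
            exact hcab
          · rw [if_neg h2]
            by_cases h4 : y = γ
            · subst h4
              rw [if_pos rfl, hγb x hxT hxy.symm]
              exact hcab.symm
            · rw [if_neg h4]
              exact hc2 x hxT y ((hy.resolve_left h2).resolve_left h4) hxy
    intro x hx y hy hxy
    simp only [Finset.mem_insert] at hx hy
    exact key x y hx hy hxy

end good

end Pool.Agent.MP_96e1cb_lc
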