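import Pool.Agent.MP_96e1cb_lc.Perf

/-!
The co-gadget extension lemma, induced odd cycles, and the bridge to `IsPerfect`.
-/

set_option autoImplicit false

namespace Pool.Agent.MP_96e1cb_lc

open SimpleGraph

section high

variable {X : Type} [DecidableEq X] {A : SimpleGraph X}

/-- adding one vertex adjacent to everything except possibly one vertex -/
lemma good_high_one {T' T : Finset X} {a β : X} (hsub : T' ⊆ T) (hβT : β ∈ T)
    (hT : ∀ x ∈ T, x ∉ T' → x = β) (hgood : ∀ U, U ⊆ T' → Good A U) (hβ' : β ∉ T')
    (hβ : ∀ x ∈ T', A.Adj β x ↔ x ≠ a) : Good A T := by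
  classical
  obtain ⟨k, ⟨K, hK, hKc, hKa⟩, c, hc1, hc2⟩ := hgood (T'.filter (fun x => x ≠ a))
    (Finset.filter_subset _ _)
  have hKm : ∀ x ∈ K, x ∈ T' ∧ x ≠ a := fun x hx => Finset.mem_filter.1 (hK hx)
  have hKβ : β ∉ K := fun h => hβ' (hKm β h).1
  have inT : ∀ x ∈ T, ¬ (x = β ∨ x = a) → x ∈ T'.filter (fun x => x ≠ a) := by
    intro x hx h
    push Not at h
    refine Finset.mem_filter.2 ⟨?_, h.2⟩
    by_contra h'
    exact h.1 (hT x hx h')
  have n2 : ∀ x ∈ T, ∀ y ∈ T, (x = β ∨ x = a) → (y = β ∨ y = a) → ¬ A.Adj x y := by
    intro x hx y hy h3 h4 h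
    have hxT : x ≠ β → x ∈ T' := fun h5 => by
      by_contra h6
      exact h5 (hT x hx h6)
    have hyT : y ≠ β → y ∈ T' := fun h5 => by
      by_contra h6
      exact h5 (hT y hy h6)
    by_cases h5 : x = β
    · by_cases h6 : y = β
      · rw [h5, h6] at h; exact h.ne rfl
      · rw [h5] at h
        exact (hβ y (hyT h6)).1 h (h4.resolve_left h6)
    · by_cases h6 : y = β
      · rw [h6] at h
        exact (hβ x (hxT h5)).1 h.symm (h3.resolve_left h5)
      · rw [h3.resolve_left h5, h4.resolve_left h6] at h
        exact h.ne rfl
  refine ⟨k + 1, ⟨insert β K, ?_, ?_, ?_⟩, fun x => if x = β ∨ x = a then k else c x, ?_, ?_⟩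
  · intro x hx
    rcases Finset.mem_insert.1 hx with rfl | h
    · exact hβT
    · exact hsub (hKm x h).1
  · rw [Finset.card_insert_of_notMem hKβ, hKc]
  · intro x hx y hy hxy
    simp only [Finset.mem_insert] at hx hy
    rcases hx with hx | hx <;> rcases hy with hy | hy
    · exact absurd (hx.trans hy.symm) hxy
    · rw [hx]; exact (hβ y (hKm y hy).1).2 (hKm y hy).2
    · rw [hy]; exact ((hβ x (hKm x hx).1).2 (hKm x hx).2).symm
    · exact hKa x hx y hy hxy
  · intro x hx
    beta_reduce
    split_ifs with h
    · omega
    · have := hc1 x (inT x hx h)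
      omega
  · intro x hx y hy hxy
    beta_reduce
    split_ifs with h1 h2 h3
    · exact absurd hxy (n2 x hx y hy h1 h2)
    · have := hc1 y (inT y hy h2)
      omega
    · have := hc1 x (inT x hx h1)
      omega
    · exact hc2 x (inT x hx h1) y (inT y hy h3) hxy

/-- adding a co-gadget that forbids the edge `ab` -/
lemma good_high {T' T : Finset X} {a b α β γ : X} (hsub : T' ⊆ T)
    (hT : ∀ x ∈ T, x ∉ T' → x = α ∨ x = β ∨ x = γ) (hgood : ∀ U, U ⊆ T' → Good A U)
    (hα' : α ∉ T') (hβ' : β ∉ T') (hγ' : γ ∉ T')
    (hα : ∀ x ∈ T', A.Adj α x ↔ x ≠ a ∧ x ≠ b) (hβ : ∀ x ∈ T', A.Adj β x ↔ x ≠ a)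
    (hγ : ∀ x ∈ T', A.Adj γ x ↔ x ≠ b) (hαβ : A.Adj α β) (hαγ : A.Adj α γ) (hβγ : ¬ A.Adj β γ)
    (hab : ¬ A.Adj a b) (hne : a ≠ b) : Good A T := by
  classical
  have hcases : ∀ x ∈ T, x ∈ T' ∨ x = α ∨ x = β ∨ x = γ := by
    intro x hx
    by_cases h : x ∈ T'
    · exact Or.inl h
    · exact Or.inr (hT x hx h)
  by_cases hαT : α ∈ T
  · -- remove a and b
    obtain ⟨k, ⟨K, hK, hKc, hKa⟩, c, hc1, hc2⟩ := hgood (T'.filter (fun x => x ≠ a ∧ x ≠ b))
      (Finset.filter_subset _ _)
    have hKm : ∀ x ∈ K, x ∈ T' ∧ x ≠ a ∧ x ≠ b := fun x hx => Finset.mem_filter.1 (hK hx)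
    have hKα : α ∉ K := fun h => hα' (hKm α h).1
    have hKβ : β ∉ K := fun h => hβ' (hKm β h).1
    have hKγ : γ ∉ K := fun h => hγ' (hKm γ h).1
    by_cases hD : β ∈ T ∨ γ ∈ T
    · -- two new colours
      have hclq : ∃ δ, δ ∈ T ∧ δ ∉ K ∧ A.Adj α δ ∧ ∀ x ∈ K, A.Adj δ x := by
        rcases hD with h | h
        · exact ⟨β, h, hKβ, hαβ, fun x hx => (hβ x (hKm x hx).1).2 (hKm x hx).2.1⟩
        · exact ⟨γ, h, hKγ, hαγ, fun x hx => (hγ x (hKm x hx).1).2 (hKm x hx).2.2⟩
      obtain ⟨δ, hδT, hδK, hαδ, hδa⟩ := hclq
      refine ⟨k + 2, ⟨insert α (insert δ K), ?_, ?_, ?_⟩,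
        fun x => if x = β ∨ x = γ then k + 1 else if x = α ∨ x = a ∨ x = b then k else c x, ?_, ?_⟩
      · intro x hx
        simp only [Finset.mem_insert] at hx
        rcases hx with rfl | rfl | h
        · exact hαT
        · exact hδT
        · exact hsub (hKm x h).1
      · rw [Finset.card_insert_of_notMem, Finset.card_insert_of_notMem hδK, hKc]
        simp only [Finset.mem_insert, not_or]
        exact ⟨hαδ.ne, hKα⟩
      · intro x hx y hy hxy
        simp only [Finset.mem_insert] at hx hy
        rcases hx with hx | hx | hx <;> rcases hy with hy | hy | hy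
        · exact absurd (hx.trans hy.symm) hxy
        · rw [hx, hy]; exact hαδ
        · rw [hx]; exact (hα y (hKm y hy).1).2 (hKm y hy).2
        · rw [hx, hy]; exact hαδ.symm
        · exact absurd (hx.trans hy.symm) hxy
        · rw [hx]; exact hδa y hy
        · rw [hy]; exact ((hα x (hKm x hx).1).2 (hKm x hx).2).symm
        · rw [hy]; exact (hδa x hx).symm
        · exact hKa x hx y hy hxy
      · intro x hx
        beta_reduce
        split_ifs with h h'
        · omega
        · omega
        · push Not at h h'
          have h1 : x ∈ T' := by
            rcases hcases x hx with h2 | h2 | h2 | h2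
            · exact h2
            · exact absurd h2 h'.1
            · exact absurd h2 h.1
            · exact absurd h2 h.2
          have := hc1 x (Finset.mem_filter.2 ⟨h1, h'.2⟩)
          omega
      · have inT : ∀ x ∈ T, ¬ (x = β ∨ x = γ) → ¬ (x = α ∨ x = a ∨ x = b) →
            x ∈ T'.filter (fun x => x ≠ a ∧ x ≠ b) := by
          intro x hx h h'
          push Not at h h'
          refine Finset.mem_filter.2 ⟨?_, h'.2⟩
          rcases hcases x hx with h2 | h2 | h2 | h2
          · exact h2
          · exact absurd h2 h'.1
          · exact absurd h2 h.1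
          · exact absurd h2 h.2
        have n1 : ∀ x y, (x = β ∨ x = γ) → (y = β ∨ y = γ) → ¬ A.Adj x y := by
          rintro x y (rfl | rfl) (rfl | rfl) h
          · exact h.ne rfl
          · exact hβγ h
          · exact hβγ h.symm
          · exact h.ne rfl
        have n2 : ∀ x ∈ T, ∀ y ∈ T, ¬ (x = β ∨ x = γ) → ¬ (y = β ∨ y = γ) →
            (x = α ∨ x = a ∨ x = b) → (y = α ∨ y = a ∨ y = b) → ¬ A.Adj x y := by
          intro x hx y hy h1 h2 h3 h4 h
          push Not at h1 h2
          have hxT : x ≠ α → x ∈ T' := fun h5 => by
            rcases hcases x hx with h6 | h6 | h6 | h6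
            · exact h6
            · exact absurd h6 h5
            · exact absurd h6 h1.1
            · exact absurd h6 h1.2
          have hyT : y ≠ α → y ∈ T' := fun h5 => by
            rcases hcases y hy with h6 | h6 | h6 | h6
            · exact h6
            · exact absurd h6 h5
            · exact absurd h6 h2.1
            · exact absurd h6 h2.2
          by_cases hxα : x = α
          · by_cases hyα : y = α
            · rw [hxα, hyα] at h; exact h.ne rfl
            · rw [hxα] at h
              have := (hα y (hyT hyα)).1 h
              rcases h4 with h4 | h4 | h4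
              · exact hyα h4
              · exact this.1 h4
              · exact this.2 h4
          · by_cases hyα : y = α
            · rw [hyα] at h
              have := (hα x (hxT hxα)).1 h.symm
              rcases h3 with h3 | h3 | h3
              · exact hxα h3
              · exact this.1 h3
              · exact this.2 h3
            · rcases h3 with h3 | h3 | h3
              · exact hxα h3
              · rcases h4 with h4 | h4 | h4
                · exact hyα h4
                · rw [h3, h4] at h; exact h.ne rfl
                · rw [h3, h4] at h; exact hab h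
              · rcases h4 with h4 | h4 | h4
                · exact hyα h4
                · rw [h3, h4] at h; exact hab h.symm
                · rw [h3, h4] at h; exact h.ne rfl
        intro x hx y hy hxy
        beta_reduce
        split_ifs with h1 h2 h3 h4 h5 h6 h7 h8
        · exact absurd hxy (n1 x y h1 h2)
        · omega
        · have := hc1 y (inT y hy h2 h3)
          omega
        · omega
        · exact absurd hxy (n2 x hx y hy h1 h5 h4 h6)
        · have := hc1 y (inT y hy h5 h6)
          omega
        · have := hc1 x (inT x hx h1 h4)
          omega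
        · have := hc1 x (inT x hx h1 h4)
          omega
        · exact hc2 x (inT x hx h1 h4) y (inT y hy h7 h8) hxy
    · push Not at hD
      refine ⟨k + 1, ⟨insert α K, ?_, ?_, ?_⟩,
        fun x => if x = α ∨ x = a ∨ x = b then k else c x, ?_, ?_⟩
      · intro x hx
        rcases Finset.mem_insert.1 hx with rfl | h
        · exact hαT
        · exact hsub (hKm x h).1
      · rw [Finset.card_insert_of_notMem hKα, hKc]
      · intro x hx y hy hxy
        simp only [Finset.mem_insert] at hx hy
        rcases hx with hx | hx <;> rcases hy with hy | hy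
        · exact absurd (hx.trans hy.symm) hxy
        · rw [hx]; exact (hα y (hKm y hy).1).2 (hKm y hy).2
        · rw [hy]; exact ((hα x (hKm x hx).1).2 (hKm x hx).2).symm
        · exact hKa x hx y hy hxy
      · intro x hx
        beta_reduce
        split_ifs with h
        · omega
        · push Not at h
          have h1 : x ∈ T' := by
            rcases hcases x hx with h2 | h2 | h2 | h2
            · exact h2
            · exact absurd h2 h.1
            · exact absurd (h2 ▸ hx) hD.1
            · exact absurd (h2 ▸ hx) hD.2
          have := hc1 x (Finset.mem_filter.2 ⟨h1, h.2⟩)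
          omega
      · have inT : ∀ x ∈ T, ¬ (x = α ∨ x = a ∨ x = b) →
            x ∈ T'.filter (fun x => x ≠ a ∧ x ≠ b) := by
          intro x hx h'
          push Not at h'
          refine Finset.mem_filter.2 ⟨?_, h'.2⟩
          rcases hcases x hx with h2 | h2 | h2 | h2
          · exact h2
          · exact absurd h2 h'.1
          · exact absurd (h2 ▸ hx) hD.1
          · exact absurd (h2 ▸ hx) hD.2
        have n2 : ∀ x ∈ T, ∀ y ∈ T,
            (x = α ∨ x = a ∨ x = b) → (y = α ∨ y = a ∨ y = b) → ¬ A.Adj x y := by
          intro x hx y hy h3 h4 h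
          have hxT : x ≠ α → x ∈ T' := fun h5 => by
            rcases hcases x hx with h6 | h6 | h6 | h6
            · exact h6
            · exact absurd h6 h5
            · exact absurd (h6 ▸ hx) hD.1
            · exact absurd (h6 ▸ hx) hD.2
          have hyT : y ≠ α → y ∈ T' := fun h5 => by
            rcases hcases y hy with h6 | h6 | h6 | h6
            · exact h6
            · exact absurd h6 h5
            · exact absurd (h6 ▸ hy) hD.1
            · exact absurd (h6 ▸ hy) hD.2
          by_cases hxα : x = α
          · by_cases hyα : y = α
            · rw [hxα, hyα] at h; exact h.ne rfl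
            · rw [hxα] at h
              have := (hα y (hyT hyα)).1 h
              rcases h4 with h4 | h4 | h4
              · exact hyα h4
              · exact this.1 h4
              · exact this.2 h4
          · by_cases hyα : y = α
            · rw [hyα] at h
              have := (hα x (hxT hxα)).1 h.symm
              rcases h3 with h3 | h3 | h3
              · exact hxα h3
              · exact this.1 h3
              · exact this.2 h3
            · rcases h3 with h3 | h3 | h3
              · exact hxα h3
              · rcases h4 with h4 | h4 | h4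
                · exact hyα h4
                · rw [h3, h4] at h; exact h.ne rfl
                · rw [h3, h4] at h; exact hab h
              · rcases h4 with h4 | h4 | h4
                · exact hyα h4
                · rw [h3, h4] at h; exact hab h.symm
                · rw [h3, h4] at h; exact h.ne rfl
        intro x hx y hy hxy
        beta_reduce
        split_ifs with h1 h2 h3
        · exact absurd hxy (n2 x hx y hy h1 h2)
        · have := hc1 y (inT y hy h2)
          omega
        · have := hc1 x (inT x hx h1)
          omega
        · exact hc2 x (inT x hx h1) y (inT y hy h3) hxy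
  · -- α is not there
    by_cases hβT : β ∈ T
    · by_cases hγT : γ ∈ T
      · -- β and γ
        obtain ⟨k, ⟨K, hK, hKc, hKa⟩, c, hc1, hc2⟩ := hgood T' (Finset.Subset.refl _)
        have hKβ : β ∉ K := fun h => hβ' (hK h)
        have hKγ : γ ∉ K := fun h => hγ' (hK h)
        have hclq : ∃ δ, δ ∈ T ∧ δ ∉ K ∧ ∀ x ∈ K, A.Adj δ x := by
          by_cases haK : a ∈ K
          · refine ⟨γ, hγT, hKγ, fun x hx => (hγ x (hK hx)).2 ?_⟩
            rintro rfl
            exact hab (hKa a haK x hx hne)
          · refine ⟨β, hβT, hKβ, fun x hx => (hβ x (hK hx)).2 ?_⟩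
            rintro rfl
            exact haK hx
        obtain ⟨δ, hδT, hδK, hδa⟩ := hclq
        refine ⟨k + 1, ⟨insert δ K, ?_, ?_, ?_⟩, fun x => if x = β ∨ x = γ then k else c x, ?_, ?_⟩
        · intro x hx
          rcases Finset.mem_insert.1 hx with rfl | h
          · exact hδT
          · exact hsub (hK h)
        · rw [Finset.card_insert_of_notMem hδK, hKc]
        · intro x hx y hy hxy
          simp only [Finset.mem_insert] at hx hy
          rcases hx with hx | hx <;> rcases hy with hy | hy
          · exact absurd (hx.trans hy.symm) hxy
          · rw [hx]; exact hδa y hy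
          · rw [hy]; exact (hδa x hx).symm
          · exact hKa x hx y hy hxy
        · intro x hx
          beta_reduce
          split_ifs with h
          · omega
          · push Not at h
            have h1 : x ∈ T' := by
              rcases hcases x hx with h2 | h2 | h2 | h2
              · exact h2
              · exact absurd (h2 ▸ hx) hαT
              · exact absurd h2 h.1
              · exact absurd h2 h.2
            have := hc1 x h1
            omega
        · have inT : ∀ x ∈ T, ¬ (x = β ∨ x = γ) → x ∈ T' := by
            intro x hx h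
            push Not at h
            rcases hcases x hx with h2 | h2 | h2 | h2
            · exact h2
            · exact absurd (h2 ▸ hx) hαT
            · exact absurd h2 h.1
            · exact absurd h2 h.2
          have n1 : ∀ x y, (x = β ∨ x = γ) → (y = β ∨ y = γ) → ¬ A.Adj x y := by
            rintro x y (rfl | rfl) (rfl | rfl) h
            · exact h.ne rfl
            · exact hβγ h
            · exact hβγ h.symm
            · exact h.ne rfl
          intro x hx y hy hxy
          beta_reduce
          split_ifs with h1 h2 h3
          · exact absurd hxy (n1 x y h1 h2)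
          · have := hc1 y (inT y hy h2)
            omega
          · have := hc1 x (inT x hx h1)
            omega
          · exact hc2 x (inT x hx h1) y (inT y hy h3) hxy
      · -- only β
        exact good_high_one hsub (a := a) (β := β) hβT (fun x hx h => by
          rcases hT x hx h with h2 | h2 | h2
          · exact absurd (h2 ▸ hx) hαT
          · exact h2
          · exact absurd (h2 ▸ hx) hγT) hgood hβ' hβ
    · by_cases hγT : γ ∈ T
      · exact good_high_one hsub (a := b) (β := γ) hγT (fun x hx h => by
          rcases hT x hx h with h2 | h2 | h2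
          · exact absurd (h2 ▸ hx) hαT
          · exact absurd (h2 ▸ hx) hβT
          · exact h2) hgood hγ' hγ
      · have : T = T' := by
          apply Finset.Subset.antisymm _ hsub
          intro x hx
          rcases hcases x hx with h2 | h2 | h2 | h2
          · exact h2
          · exact absurd (h2 ▸ hx) hαT
          · exact absurd (h2 ▸ hx) hβT
          · exact absurd (h2 ▸ hx) hγT
        rw [this]
        exact hgood T' (Finset.Subset.refl _)

end high

end Pool.Agent.MP_96e1cb_lc
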