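import Pool.Agent.MP_96e1cb_lc.Perf2

/-!
Induced cycles with five or seven vertices; the bridge to `IsPerfect`.
-/

set_option autoImplicit false

namespace Pool.Agent.MP_96e1cb_lc

open SimpleGraph

section cyc

variable {X : Type} [DecidableEq X] {A : SimpleGraph X}

/-- a set of vertices that spans a fixed pattern which is not perfect -/
lemma not_good_of_pattern {n : ℕ} (C : Fin n → Fin n → Bool) (v : Fin n → X)
    (hinj : Function.Injective v) (hadj : ∀ i j, A.Adj (v i) (v j) ↔ C i j = true)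
    (hK : ∀ K : Finset (Fin n), (∀ i ∈ K, ∀ j ∈ K, i ≠ j → C i j = true) → K.card ≤ 2)
    (hc : ∀ c : Fin n → Bool, ∃ i j, C i j = true ∧ c i = c j) :
    ¬ Good A (Finset.univ.image v) := by
  rintro ⟨k, ⟨K, hKs, hKc, hKa⟩, c, hc1, hc2⟩
  have hk : k ≤ 2 := by
    let K' : Finset (Fin n) := Finset.univ.filter (fun i => v i ∈ K)
    have himg : K'.image v = K := by
      ext x
      simp only [K', Finset.mem_image, Finset.mem_filter, Finset.mem_univ, true_and]
      constructor
      · rintro ⟨i, hi, rfl⟩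
        exact hi
      · intro hx
        obtain ⟨i, _, rfl⟩ := Finset.mem_image.1 (hKs hx)
        exact ⟨i, hx, rfl⟩
    have hcard : K'.card = k := by
      rw [← hKc, ← himg, Finset.card_image_of_injective _ hinj]
    rw [← hcard]
    apply hK
    intro i hi j hj hij
    simp only [K', Finset.mem_filter, Finset.mem_univ, true_and] at hi hj
    exact (hadj i j).1 (hKa _ hi _ hj (fun h => hij (hinj h)))
  obtain ⟨i, j, hij, hcij⟩ := hc (fun i => decide (c (v i) = 0))
  have hmem : ∀ i, v i ∈ Finset.univ.image v := fun i =>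
    Finset.mem_image_of_mem _ (Finset.mem_univ i)
  have h1 := hc1 _ (hmem i)
  have h2 := hc1 _ (hmem j)
  have h3 := hc2 _ (hmem i) _ (hmem j) ((hadj i j).2 hij)
  have h4 : (c (v i) = 0) ↔ (c (v j) = 0) := by simpa using hcij
  omega

/-- adjacency of the 5-cycle -/
def C5 (i j : Fin 5) : Bool := decide (j = i + 1 ∨ i = j + 1)

/-- adjacency of the 7-cycle -/
def C7 (i j : Fin 7) : Bool := decide (j = i + 1 ∨ i = j + 1)

lemma C5_rows : ∀ i j : Fin 5, (∀ l, C5 i l = C5 j l) → i = j := by decide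

lemma C7_rows : ∀ i j : Fin 7, (∀ l, C7 i l = C7 j l) → i = j := by decide

lemma C5_clique : ∀ K : Finset (Fin 5), (∀ i ∈ K, ∀ j ∈ K, i ≠ j → C5 i j = true) →
    K.card ≤ 2 := by decide

set_option maxRecDepth 100000 in
lemma C7_clique : ∀ K : Finset (Fin 7), (∀ i ∈ K, ∀ j ∈ K, i ≠ j → C7 i j = true) →
    K.card ≤ 2 := by decide

lemma C5_color (c : Fin 5 → Bool) : ∃ i j, C5 i j = true ∧ c i = c j := by
  by_contra h
  push Not at h
  have h0 := h 0 1 (by decide)
  have h1 := h 1 2 (by decide)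
  have h2 := h 2 3 (by decide)
  have h3 := h 3 4 (by decide)
  have h4 := h 4 0 (by decide)
  revert h0 h1 h2 h3 h4
  generalize c 0 = a
  generalize c 1 = b
  generalize c 2 = d
  generalize c 3 = e
  generalize c 4 = f
  cases a <;> cases b <;> cases d <;> cases e <;> cases f <;> simp

lemma C7_color (c : Fin 7 → Bool) : ∃ i j, C7 i j = true ∧ c i = c j := by
  by_contra h
  push Not at h
  have h0 := h 0 1 (by decide)
  have h1 := h 1 2 (by decide)
  have h2 := h 2 3 (by decide)
  have h3 := h 3 4 (by decide)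
  have h4 := h 4 5 (by decide)
  have h5 := h 5 6 (by decide)
  have h6 := h 6 0 (by decide)
  revert h0 h1 h2 h3 h4 h5 h6
  generalize c 0 = a
  generalize c 1 = b
  generalize c 2 = d
  generalize c 3 = e
  generalize c 4 = f
  generalize c 5 = g
  generalize c 6 = k
  cases a <;> cases b <;> cases d <;> cases e <;> cases f <;> cases g <;> cases k <;> simp

lemma not_good_C5 {a b c d e : X} (h1 : A.Adj a b) (h2 : A.Adj b c) (h3 : A.Adj c d)
    (h4 : A.Adj d e) (h5 : A.Adj e a) (n1 : ¬ A.Adj a c) (n2 : ¬ A.Adj b d) (n3 : ¬ A.Adj c e)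
    (n4 : ¬ A.Adj d a) (n5 : ¬ A.Adj e b) : ¬ Good A {a, b, c, d, e} := by
  have hadj : ∀ i j, A.Adj (![a, b, c, d, e] i) (![a, b, c, d, e] j) ↔ C5 i j = true := by
    have s1 := h1.symm
    have s2 := h2.symm
    have s3 := h3.symm
    have s4 := h4.symm
    have s5 := h5.symm
    have m1 : ¬ A.Adj c a := fun h => n1 h.symm
    have m2 : ¬ A.Adj d b := fun h => n2 h.symm
    have m3 : ¬ A.Adj e c := fun h => n3 h.symm
    have m4 : ¬ A.Adj a d := fun h => n4 h.symm
    have m5 : ¬ A.Adj b e := fun h => n5 h.symm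
    simp only [Fin.forall_fin_succ]
    simp [C5, h1, h2, h3, h4, h5, n1, n2, n3, n4, n5, s1, s2, s3, s4, s5, m1, m2, m3, m4, m5]
  have hinj : Function.Injective ![a, b, c, d, e] := by
    intro i j hij
    apply C5_rows
    intro l
    rw [Bool.eq_iff_iff, ← hadj, ← hadj, hij]
  have himg : ({a, b, c, d, e} : Finset X) = Finset.univ.image ![a, b, c, d, e] := by
    ext x
    simp [Fin.exists_fin_succ, eq_comm]
  rw [himg]
  exact not_good_of_pattern C5 _ hinj hadj C5_clique C5_color

lemma not_good_C7 {a b c d e f g : X} (h1 : A.Adj a b) (h2 : A.Adj b c) (h3 : A.Adj c d)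
    (h4 : A.Adj d e) (h5 : A.Adj e f) (h6 : A.Adj f g) (h7 : A.Adj g a)
    (n1 : ¬ A.Adj a c) (n2 : ¬ A.Adj a d) (n3 : ¬ A.Adj a e) (n4 : ¬ A.Adj a f)
    (n5 : ¬ A.Adj b d) (n6 : ¬ A.Adj b e) (n7 : ¬ A.Adj b f) (n8 : ¬ A.Adj b g)
    (n9 : ¬ A.Adj c e) (n10 : ¬ A.Adj c f) (n11 : ¬ A.Adj c g) (n12 : ¬ A.Adj d f)
    (n13 : ¬ A.Adj d g) (n14 : ¬ A.Adj e g) : ¬ Good A {a, b, c, d, e, f, g} := by
  have hadj : ∀ i j, A.Adj (![a, b, c, d, e, f, g] i) (![a, b, c, d, e, f, g] j) ↔
      C7 i j = true := by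
    have s1 := h1.symm
    have s2 := h2.symm
    have s3 := h3.symm
    have s4 := h4.symm
    have s5 := h5.symm
    have s6 := h6.symm
    have s7 := h7.symm
    have m1 : ¬ A.Adj c a := fun h => n1 h.symm
    have m2 : ¬ A.Adj d a := fun h => n2 h.symm
    have m3 : ¬ A.Adj e a := fun h => n3 h.symm
    have m4 : ¬ A.Adj f a := fun h => n4 h.symm
    have m5 : ¬ A.Adj d b := fun h => n5 h.symm
    have m6 : ¬ A.Adj e b := fun h => n6 h.symm
    have m7 : ¬ A.Adj f b := fun h => n7 h.symm
    have m8 : ¬ A.Adj g b := fun h => n8 h.symm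
    have m9 : ¬ A.Adj e c := fun h => n9 h.symm
    have m10 : ¬ A.Adj f c := fun h => n10 h.symm
    have m11 : ¬ A.Adj g c := fun h => n11 h.symm
    have m12 : ¬ A.Adj f d := fun h => n12 h.symm
    have m13 : ¬ A.Adj g d := fun h => n13 h.symm
    have m14 : ¬ A.Adj g e := fun h => n14 h.symm
    simp only [Fin.forall_fin_succ]
    simp [C7, h1, h2, h3, h4, h5, h6, h7, s1, s2, s3, s4, s5, s6, s7, n1, n2, n3, n4, n5, n6, n7,
      n8, n9, n10, n11, n12, n13, n14, m1, m2, m3, m4, m5, m6, m7, m8, m9, m10, m11, m12, m13, m14]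
  have hinj : Function.Injective ![a, b, c, d, e, f, g] := by
    intro i j hij
    apply C7_rows
    intro l
    rw [Bool.eq_iff_iff, ← hadj, ← hadj, hij]
  have himg : ({a, b, c, d, e, f, g} : Finset X) = Finset.univ.image ![a, b, c, d, e, f, g] := by
    ext x
    simp [Fin.exists_fin_succ, eq_comm]
  rw [himg]
  exact not_good_of_pattern C7 _ hinj hadj C7_clique C7_color

end cyc

/-! ### the bridge -/

section bridge

variable {V : Type} [Fintype V] [DecidableEq V]

lemma isPerfect_iff_good (G : SimpleGraph V) : IsPerfect G ↔ ∀ T : Finset V, Good G T := by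
  classical
  constructor
  · intro h T
    have h1 := h (T : Set V)
    obtain ⟨K, hK⟩ := (G.induce (T : Set V)).exists_isNClique_cliqueNum
    have hcol : (G.induce (T : Set V)).Colorable ((G.induce (T : Set V)).cliqueNum) := by
      rw [← SimpleGraph.chromaticNumber_le_iff_colorable, h1]
    obtain ⟨C⟩ := hcol
    refine ⟨(G.induce (T : Set V)).cliqueNum, ⟨K.map (Function.Embedding.subtype _), ?_, ?_, ?_⟩,
      fun x => if hx : x ∈ (T : Set V) then (C ⟨x, hx⟩).val else 0, ?_, ?_⟩
    · intro x hx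
      obtain ⟨y, _, rfl⟩ := Finset.mem_map.1 hx
      exact y.2
    · rw [Finset.card_map]
      exact hK.card_eq
    · intro x hx y hy hxy
      obtain ⟨x', hx', rfl⟩ := Finset.mem_map.1 hx
      obtain ⟨y', hy', rfl⟩ := Finset.mem_map.1 hy
      have h2 : x' ≠ y' := fun h => hxy (congrArg _ h)
      have h3 : (G.induce (T : Set V)).Adj x' y' := hK.isClique hx' hy' h2
      exact h3
    · intro x hx
      have hx' : x ∈ (T : Set V) := hx
      simp only [hx', dif_pos]
      exact (C ⟨x, hx'⟩).isLt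
    · intro x hx y hy hxy
      have hx' : x ∈ (T : Set V) := hx
      have hy' : y ∈ (T : Set V) := hy
      simp only [hx', hy', dif_pos]
      have : (G.induce (T : Set V)).Adj ⟨x, hx'⟩ ⟨y, hy'⟩ := by simpa using hxy
      have := C.valid this
      intro h
      exact this (Fin.ext h)
  · intro h s
    obtain ⟨k, ⟨K, hK, hKc, hKa⟩, c, hc1, hc2⟩ := h s.toFinset
    have hlow : k ≤ (G.induce s).cliqueNum := by
      have hKs : ∀ x : K, x.1 ∈ s := fun x => by simpa using hK x.2
      let emb : K ↪ s := ⟨fun x => ⟨x.1, hKs x⟩, fun x y hxy => by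
        have h1 : x.1 = y.1 := congrArg (fun z : s => z.1) hxy
        exact Subtype.ext h1⟩
      let K' : Finset s := Finset.univ.map emb
      have hc : (G.induce s).IsClique (K' : Set s) := by
        intro x hx y hy hxy
        obtain ⟨x', _, rfl⟩ := Finset.mem_map.1 hx
        obtain ⟨y', _, rfl⟩ := Finset.mem_map.1 hy
        have h2 : x'.1 ≠ y'.1 := fun h => hxy (congrArg emb (Subtype.ext h))
        exact hKa x'.1 x'.2 y'.1 y'.2 h2
      have h3 := hc.card_le_cliqueNum
      have h4 : K'.card = k := by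
        rw [Finset.card_map, Finset.card_univ, Fintype.card_coe, hKc]
      rw [← h4]
      exact h3
    have hup : (G.induce s).chromaticNumber ≤ k := by
      rw [SimpleGraph.chromaticNumber_le_iff_colorable]
      refine ⟨SimpleGraph.Coloring.mk (fun x => (⟨c x.1, hc1 x.1 (by simp)⟩ : Fin k)) ?_⟩
      intro x y hxy heq
      have hxy' : G.Adj x.1 y.1 := by simpa using hxy
      exact hc2 x.1 (by simp) y.1 (by simp) hxy' (by simpa using heq)
    have hmid : ((G.induce s).cliqueNum : ℕ∞) ≤ (G.induce s).chromaticNumber :=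
      SimpleGraph.cliqueNum_le_chromaticNumber
    apply le_antisymm
    · exact hup.trans (by exact_mod_cast hlow)
    · exact hmid

end bridge

end Pool.Agent.MP_96e1cb_lc
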