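import Pool.Agent.MP_96e1cb_lc.Sound2
import Pool.Agent.MP_96e1cb_lc.Complete2

/-!
The reduction and its correctness.
-/

set_option autoImplicit false

namespace Pool.Agent.MP_96e1cb_lc

open SimpleGraph

/-- names of the vertices of the finite graph -/
def vm (φ : List H66.Cl) : Fin (verts φ.length).length → Name := fun i => (verts φ.length).get i

/-- the reduction -/
def red (φ : List H66.Cl) : ProbeInput where
  n := (verts φ.length).length
  G := (gr φ).comap (vm φ)
  decAdj := fun i j => decidable_of_iff ((gr φ).Adj (vm φ i) (vm φ j)) Iff.rfl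
  N := fun i => decide ((vm φ i).1 = 0)

lemma vm_mem (φ : List H66.Cl) (i : Fin (verts φ.length).length) : vm φ i ∈ verts φ.length :=
  List.get_mem _ _

lemma exists_idx {φ : List H66.Cl} {x : Name} (hx : x ∈ verts φ.length) :
    ∃ i, vm φ i = x := by
  obtain ⟨n, hn, h⟩ := List.mem_iff_getElem.1 hx
  exact ⟨⟨n, hn⟩, h⟩

lemma gr_np {φ : List H66.Cl} {x y : Name} (hx : x.1 = 0) (hy : y.1 = 0) : ¬ (gr φ).Adj x y := by
  rw [gr_adj]
  unfold Sp High
  simp [hx, hy]

/-- `Good` for an induced copy -/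
lemma good_comap {V X : Type} [DecidableEq V] [DecidableEq X] {A : SimpleGraph X} (f : V → X)
    (T : Finset V) (h : Good A (T.image f)) : Good (A.comap f) T := by
  classical
  obtain ⟨k, ⟨K, hK, hKc, hKa⟩, c, hc1, hc2⟩ := h
  have hs : ∀ z : K, ∃ v ∈ T, f v = z.1 := fun z => by
    simpa using Finset.mem_image.1 (hK z.2)
  choose s hs1 hs2 using hs
  refine ⟨k, ⟨Finset.univ.image s, ?_, ?_, ?_⟩, fun v => c (f v), ?_, ?_⟩
  · intro v hv
    obtain ⟨z, _, rfl⟩ := Finset.mem_image.1 hv
    exact hs1 z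
  · rw [Finset.card_image_of_injective, Finset.card_univ, Fintype.card_coe, hKc]
    intro z z' hzz
    apply Subtype.ext
    rw [← hs2 z, ← hs2 z', hzz]
  · intro v hv w hw hvw
    obtain ⟨z, _, rfl⟩ := Finset.mem_image.1 hv
    obtain ⟨z', _, rfl⟩ := Finset.mem_image.1 hw
    rw [SimpleGraph.comap_adj, hs2, hs2]
    refine hKa _ z.2 _ z'.2 ?_
    intro h
    apply hvw
    rw [Subtype.ext h]
  · intro v hv
    exact hc1 _ (Finset.mem_image_of_mem _ hv)
  · intro v hv w hw ha
    exact hc2 _ (Finset.mem_image_of_mem _ hv) _ (Finset.mem_image_of_mem _ hw) ha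

/-- a satisfiable formula gives a probe perfect graph -/
theorem red_of_sat {φ : List H66.Cl} (h : H66.Sat3 φ) : IsProbePerfect (red φ) := by
  classical
  obtain ⟨τ, hτ⟩ := h
  have hs := satC_of hτ
  refine ⟨?_, (HH φ τ).comap (vm φ), ?_, ?_⟩
  · intro i j hi hj ha
    exact gr_np (of_decide_eq_true hi) (of_decide_eq_true hj) ha
  · intro i j ha
    exact ⟨decide_eq_true ha.1, decide_eq_true ha.2.1⟩
  · have he : (red φ).G ⊔ (HH φ τ).comap (vm φ) = (AA φ τ).comap (vm φ) := by
      ext i j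
      exact Iff.rfl
    rw [he, isPerfect_iff_good]
    intro T
    apply good_comap
    refine all_good hs _ _ rfl ?_
    intro x hx
    obtain ⟨i, _, rfl⟩ := Finset.mem_image.1 hx
    exact vm_mem φ i

/-- a probe perfect graph gives a satisfiable formula -/
theorem sat_of_red {φ : List H66.Cl} (h : IsProbePerfect (red φ)) : H66.Sat3 φ := by
  classical
  obtain ⟨_, H, hH, hp⟩ := h
  rw [isPerfect_iff_good] at hp
  have hne : Nonempty (Fin (red φ).n) :=
    ⟨(exists_idx (v0 (nps_h φ.length))).choose⟩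
  have hg : ∀ x : Name, ∃ i : Fin (red φ).n, x ∈ verts φ.length → vm φ i = x := by
    intro x
    by_cases hx : x ∈ verts φ.length
    · obtain ⟨i, hi⟩ := exists_idx hx
      exact ⟨i, fun _ => hi⟩
    · exact ⟨hne.some, fun h => absurd h hx⟩
  choose g hg using hg
  let A' : SimpleGraph Name :=
    { Adj := fun x y => x ∈ verts φ.length ∧ y ∈ verts φ.length ∧ ((red φ).G ⊔ H).Adj (g x) (g y)
      symm := ⟨fun x y h => ⟨h.2.1, h.1, h.2.2.symm⟩⟩
      loopless := ⟨fun x h => h.2.2.ne rfl⟩ }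
  have hA' : ∀ x y, A'.Adj x y ↔ x ∈ verts φ.length ∧ y ∈ verts φ.length ∧
      ((red φ).G ⊔ H).Adj (g x) (g y) := fun x y => Iff.rfl
  have hinj : ∀ x y, x ∈ verts φ.length → y ∈ verts φ.length → g x = g y → x = y := by
    intro x y hx hy hxy
    rw [← hg x hx, ← hg y hy, hxy]
  apply Compl.sat (A := A')
  constructor
  · intro x y hx hy hxy
    rw [hA', SimpleGraph.sup_adj]
    have e1 : (red φ).G.Adj (g x) (g y) ↔ (gr φ).Adj x y := by
      have h1 : (red φ).G.Adj (g x) (g y) ↔ (gr φ).Adj (vm φ (g x)) (vm φ (g y)) := Iff.rfl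
      rw [h1, hg x hx, hg y hy]
    rw [e1]
    constructor
    · rintro ⟨_, _, h | h⟩
      · exact h
      · have h2 := hH _ _ h
        have h3 : (vm φ (g x)).1 = 0 := of_decide_eq_true h2.1
        have h4 : (vm φ (g y)).1 = 0 := of_decide_eq_true h2.2
        rw [hg x hx] at h3
        rw [hg y hy] at h4
        exact absurd ⟨h3, h4⟩ hxy
    · intro h
      exact ⟨hx, hy, Or.inl h⟩
  · intro T hT
    obtain ⟨k, ⟨K, hK, hKc, hKa⟩, c, hc1, hc2⟩ := hp (T.image g)
    refine ⟨k, ⟨T.filter (fun x => g x ∈ K), Finset.filter_subset _ _, ?_, ?_⟩,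
      fun x => c (g x), ?_, ?_⟩
    · have h1 : (T.filter (fun x => g x ∈ K)).image g = K := by
        ext i
        simp only [Finset.mem_image, Finset.mem_filter]
        constructor
        · rintro ⟨x, ⟨_, h⟩, rfl⟩
          exact h
        · intro hi
          obtain ⟨x, hx, rfl⟩ := Finset.mem_image.1 (hK hi)
          exact ⟨x, ⟨hx, hi⟩, rfl⟩
      have h2 : ((T.filter (fun x => g x ∈ K)).image g).card =
          (T.filter (fun x => g x ∈ K)).card := by
        apply Finset.card_image_of_injOn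
        intro x hx y hy hxy
        have hx' := (Finset.mem_filter.1 hx).1
        have hy' := (Finset.mem_filter.1 hy).1
        exact hinj x y (hT x hx') (hT y hy') hxy
      rw [← h2, h1, hKc]
    · intro x hx y hy hxy
      obtain ⟨hx1, hx2⟩ := Finset.mem_filter.1 hx
      obtain ⟨hy1, hy2⟩ := Finset.mem_filter.1 hy
      refine ⟨hT x hx1, hT y hy1, hKa _ hx2 _ hy2 ?_⟩
      intro h
      exact hxy (hinj x y (hT x hx1) (hT y hy1) h)
    · intro x hx
      exact hc1 _ (Finset.mem_image_of_mem _ hx)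
    · intro x hx y hy ha
      exact hc2 _ (Finset.mem_image_of_mem _ hx) _ (Finset.mem_image_of_mem _ hy) ha.2.2

/-- **Correctness of the reduction.** -/
theorem red_correct (φ : List H66.Cl) : H66.Sat3 φ ↔ IsProbePerfect (red φ) :=
  ⟨red_of_sat, sat_of_red⟩

end Pool.Agent.MP_96e1cb_lc
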