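import Pool.Agent.MP_96e1cb_lc.Red
import Pool.Agent.Lib.helper60.Bridge
import Pool.Agent.Lib.helper60.PTLib

/-!
The reduction is computable in polynomial time.
-/

set_option autoImplicit false

namespace Pool.Agent.MP_96e1cb_lc

open SimpleGraph Lib.helper60

section

variable {α : Type} [DEnc α]

lemma PT_eq3 {f g : α → P3} (hf : PT f) (hg : PT g) : PT (fun a => decide (f a = g a)) := by
  refine (PT.dand (p := fun a => (f a).1 = (g a).1)
    (q := fun a => (f a).2.1 = (g a).2.1 ∧ (f a).2.2 = (g a).2.2) (PT.neq hf.p1 hg.p1)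
    (PT.dand (PT.neq hf.p2.p1 hg.p2.p1) (PT.neq hf.p2.p2 hg.p2.p2))).congr ?_
  intro a
  rw [Bool.eq_iff_iff, decide_eq_true_iff, decide_eq_true_iff, Prod.ext_iff, Prod.ext_iff]

lemma PT_eq33 {f g : α → P3 × P3} (hf : PT f) (hg : PT g) :
    PT (fun a => decide (f a = g a)) := by
  refine (PT.dand (p := fun a => (f a).1 = (g a).1)
    (q := fun a => (f a).2 = (g a).2) (PT_eq3 hf.p1 hg.p1) (PT_eq3 hf.p2 hg.p2)).congr ?_
  intro a
  rw [Bool.eq_iff_iff, decide_eq_true_iff, decide_eq_true_iff]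
  exact ⟨fun h => Prod.ext h.1 h.2, fun h => ⟨congrArg Prod.fst h, congrArg Prod.snd h⟩⟩

lemma PT_eqN {f g : α → Name} (hf : PT f) (hg : PT g) : PT (fun a => decide (f a = g a)) := by
  refine (PT.dand (p := fun a => (f a).1 = (g a).1)
    (q := fun a => (f a).2 = (g a).2) (PT.neq hf.p1 hg.p1) (PT_eq33 hf.p2 hg.p2)).congr ?_
  intro a
  rw [Bool.eq_iff_iff, decide_eq_true_iff, decide_eq_true_iff]
  exact ⟨fun h => Prod.ext h.1 h.2, fun h => ⟨congrArg Prod.fst h, congrArg Prod.snd h⟩⟩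

variable {φ : α → List H66.Cl} {p q : α → P3} {x y : α → Name}

lemma PT_litP (hφ : PT φ) (hp : PT p) : PT (fun a => litP (φ a) (p a)) := by
  unfold litP
  have hg : PT (fun a => (φ a).getD (p a).2.1 ((true, 0), (true, 0), (true, 0))) :=
    PT.getD hφ hp.p2.p1 (PT.const _)
  exact PT.ite (PT.neq hp.p2.p2 (PT.const 0)) hg.p1
    (PT.ite (PT.neq hp.p2.p2 (PT.const 1)) hg.p2.p1 hg.p2.p2)

lemma PT_rel (hφ : PT φ) (hp : PT p) (hq : PT q) :
    PT (fun a => decide (rel (φ a) (p a) (q a))) := by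
  unfold rel
  exact PT.dand (PT.dnot (PT.neq hp.p2.p2 (PT.const 3))) (PT.dand
    (PT.dnot (PT.neq hq.p2.p2 (PT.const 3))) (PT.neq (PT_litP hφ hp).p2 (PT_litP hφ hq).p2))

lemma PT_sgn (hφ : PT φ) (hp : PT p) (hq : PT q) :
    PT (fun a => decide (sgn (φ a) (p a) (q a))) := by
  unfold sgn
  exact PT.beq (PT_litP hφ hp).p1 (PT_litP hφ hq).p1

lemma PT_opt1 (hp : PT p) (hq : PT q) : PT (fun a => decide (opt1 (p a) (q a))) := by
  unfold opt1
  refine PT.dor (PT.dand (PT.neq hp.p1 (PT.const 0)) (PT.dand (PT.neq hq.p1 (PT.const 1))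
    (PT.dnot (PT.neq hq.p2.p2 (PT.const 3))))) ?_
  refine PT.dand (PT.neq hp.p1 (PT.const 1)) (PT.dand (PT.neq hq.p1 (PT.const 2)) (PT.dand
    (PT.neq hp.p2.p1 hq.p2.p1) (PT.dand (PT.dnot (PT.neq hp.p2.p2 hq.p2.p2)) (PT.dand
    (PT.dnot (PT.neq (PT.nsucc hq.p2.p2) hp.p2.p2)) (PT.dnot (PT.dand
    (PT.neq hp.p2.p2 (PT.const 0)) (PT.neq hq.p2.p2 (PT.const 3))))))))

lemma PT_frc1 (hp : PT p) (hq : PT q) : PT (fun a => decide (frc1 (p a) (q a))) := by
  unfold frc1
  exact PT.dor (PT.dand (PT.neq hp.p1 (PT.const 2)) (PT.dand (PT.neq hq.p1 (PT.const 2))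
    (PT.dand (PT.neq hp.p2.p1 hq.p2.p1) (PT.dnot (PT.neq hp.p2.p2 hq.p2.p2)))))
    (PT.dand (PT.neq hp.p1 (PT.const 1)) (PT.dand (PT.neq hq.p1 (PT.const 2))
    (PT.dand (PT.neq hp.p2.p1 hq.p2.p1) (PT.neq hp.p2.p2 hq.p2.p2))))

lemma PT_frc (hp : PT p) (hq : PT q) : PT (fun a => decide (frc (p a) (q a))) := by
  unfold frc
  exact PT.dor (PT_frc1 hp hq) (PT_frc1 hq hp)

lemma PT_need (hp : PT p) (hq : PT q) : PT (fun a => decide (need (p a) (q a))) := by
  unfold need
  exact PT.dand (PT.dnot (PT_eq3 hp hq)) (PT.dand (PT.dnot (PT_opt1 hp hq))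
    (PT.dnot (PT_opt1 hq hp)))

lemma PT_High (hx : PT x) : PT (fun a => decide (High (x a))) := by
  unfold High
  exact PT.dand (PT.nle (PT.const 4) hx.p1) (PT.dnot (PT_frc hx.p2.p1 hx.p2.p2))

lemma PT_Sp (hφ : PT φ) (hx : PT x) (hy : PT y) :
    PT (fun a => decide (Sp (φ a) (x a) (y a))) := by
  unfold Sp
  have c : ∀ {z : α → Name}, PT z → ∀ k : ℕ, PT (fun a => decide ((z a).1 = k)) :=
    fun hz k => PT.neq hz.p1 (PT.const k)
  have hr := PT_rel hφ hx.p2.p1 hx.p2.p2
  have hs := PT_sgn hφ hx.p2.p1 hx.p2.p2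
  have e1 : PT (fun a => decide ((y a).2.1 = (x a).2.1)) := PT_eq3 hy.p2.p1 hx.p2.p1
  have e2 : PT (fun a => decide ((y a).2.1 = (x a).2.2)) := PT_eq3 hy.p2.p1 hx.p2.p2
  have e3 : PT (fun a => decide ((y a).2 = (x a).2)) := PT_eq33 hy.p2 hx.p2
  refine PT.dor (PT.dand (c hx 1) (PT.dand (c hy 0) (PT.dor (PT_eq3 hy.p2.p1 (PT.const hb)) e1))) ?_
  refine PT.dor (PT.dand (c hx 2) (PT.dand hr (PT.dor (PT.dand (c hy 0) (PT.dor e1
    (PT.dand hs e2))) (PT.dand (c hy 3) (PT.dand e3 (PT.dnot hs)))))) ?_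
  refine PT.dor (PT.dand (c hx 3) (PT.dand hr (PT.dand (PT.dnot hs) (PT.dand (c hy 0) e2)))) ?_
  refine PT.dor (PT.dand (c hx 4) (PT.dand (c hy 0) (PT.dor e1 e2))) ?_
  refine PT.dor (PT.dand (c hx 5) (PT.dor (PT.dand (c hy 0) e1) (PT.dand (c hy 6) e3))) ?_
  exact PT.dand (c hx 6) (PT.dand (c hy 0) e2)

/-- adjacency as a Boolean function -/
def adjB (φ : List H66.Cl) (x y : Name) : Bool :=
  (!(decide (x = y))) &&
  (bif (decide (Sp φ x y) || decide (Sp φ y x)) then !(decide (High x) || decide (High y))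
    else (decide (High x) || decide (High y)))

lemma adjB_iff (φ : List H66.Cl) (x y : Name) : adjB φ x y = true ↔ (gr φ).Adj x y := by
  rw [gr_adj]
  unfold adjB
  by_cases h1 : x = y
  · simp [h1]
  · by_cases h2 : Sp φ x y <;> by_cases h3 : Sp φ y x <;> by_cases h4 : High x <;>
      by_cases h5 : High y <;> simp [h1, h2, h3, h4, h5]

lemma PT_adjB (hφ : PT φ) (hx : PT x) (hy : PT y) : PT (fun a => adjB (φ a) (x a) (y a)) := by
  unfold adjB
  have h1 := PT_Sp hφ hx hy
  have h2 := PT_Sp hφ hy hx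
  have h3 := PT_High hx
  have h4 := PT_High hy
  exact PT.band (PT.bnot (PT_eqN hx hy)) (PT.cond (PT.bor h1 h2) (PT.bnot (PT.bor h3 h4))
    (PT.bor h3 h4))

lemma PT_mk3 {t c i : α → ℕ} (ht : PT t) (hc : PT c) (hi : PT i) :
    PT (fun a => ((t a, c a, i a) : P3)) := PT.pair ht (PT.pair hc hi)

lemma PT_nps {m : α → ℕ} (hm : PT m) : PT (fun a => nps (m a)) := by
  unfold nps
  refine PT.cons (PT.const _) ?_
  refine PT.flatMap (g := fun z : α × ℕ => (List.range 4).flatMap
    (fun i => [((1, z.2, i) : P3), (2, z.2, i)])) (PT.range hm) ?_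
  refine PT.flatMap (g := fun z : (α × ℕ) × ℕ => [((1, z.1.2, z.2) : P3), (2, z.1.2, z.2)])
    (PT.const _) ?_
  exact PT.cons (PT_mk3 (PT.const 1) PT.fst.p2 PT.snd) (PT.cons
    (PT_mk3 (PT.const 2) PT.fst.p2 PT.snd) (PT.const []))

lemma PT_wsl {m : α → ℕ} (hm : PT m) : PT (fun a => wsl (m a)) := by
  unfold wsl
  refine PT.flatMap (g := fun z : α × ℕ => (List.range 4).map
    (fun i => ((1, z.2, i) : P3))) (PT.range hm) ?_
  exact PT.map (g := fun z : (α × ℕ) × ℕ => ((1, z.1.2, z.2) : P3))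
    (PT.const _) (PT_mk3 (PT.const 1) PT.fst.p2 PT.snd)

lemma PT_mkN {k : α → ℕ} {p q : α → P3} (hk : PT k) (hp : PT p) (hq : PT q) :
    PT (fun a => ((k a, p a, q a) : Name)) := PT.pair hk (PT.pair hp hq)

lemma PT_verts {m : α → ℕ} (hm : PT m) : PT (fun a => verts (m a)) := by
  unfold verts
  refine PT.append ?_ (PT.append ?_ (PT.append ?_ ?_))
  · exact PT.map (g := fun z : α × P3 => ((0, z.2, hb) : Name)) (PT_nps hm)
      (PT_mkN (PT.const 0) PT.snd (PT.const hb))
  · exact PT.map (g := fun z : α × P3 => ((1, z.2, hb) : Name)) (PT_wsl hm)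
      (PT_mkN (PT.const 1) PT.snd (PT.const hb))
  · refine PT.flatMap (g := fun z : α × P3 => (wsl (m z.1)).flatMap
      (fun q => [((2, z.2, q) : Name), (3, z.2, q)])) (PT_wsl hm) ?_
    refine PT.flatMap (g := fun z : (α × P3) × P3 => [((2, z.1.2, z.2) : Name), (3, z.1.2, z.2)])
      (PT_wsl (hm.comp PT.fst)) ?_
    exact PT.cons (PT_mkN (PT.const 2) PT.fst.p2 PT.snd) (PT.cons
      (PT_mkN (PT.const 3) PT.fst.p2 PT.snd) (PT.const []))
  · refine PT.flatMap (g := fun z : α × P3 => (nps (m z.1)).flatMap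
      (fun q => if need z.2 q then [((4, z.2, q) : Name), (5, z.2, q), (6, z.2, q)] else []))
      (PT_nps hm) ?_
    refine PT.flatMap (g := fun z : (α × P3) × P3 => if need z.1.2 z.2 then
      [((4, z.1.2, z.2) : Name), (5, z.1.2, z.2), (6, z.1.2, z.2)] else [])
      (PT_nps (hm.comp PT.fst)) ?_
    exact PT.ite (PT_need PT.fst.p2 PT.snd) (PT.cons (PT_mkN (PT.const 4) PT.fst.p2 PT.snd)
      (PT.cons (PT_mkN (PT.const 5) PT.fst.p2 PT.snd) (PT.cons
      (PT_mkN (PT.const 6) PT.fst.p2 PT.snd) (PT.const [])))) (PT.const [])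

end

/-! ### the code of the output -/

lemma ofFn_matrix {α : Type} (V : List α) (g : α → α → Bool) :
    (List.ofFn fun i : Fin V.length => List.ofFn fun j : Fin V.length =>
      g (V.get i) (V.get j)).flatten = V.flatMap (fun x => V.map (fun y => g x y)) := by
  have h2 : ∀ i : Fin V.length, (List.ofFn fun j : Fin V.length => g (V.get i) (V.get j)) =
      V.map (fun y => g (V.get i) y) := by
    intro i
    have h3 : (fun j : Fin V.length => g (V.get i) (V.get j)) = (fun y => g (V.get i) y) ∘ V.get :=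
      rfl
    rw [h3, ← List.map_ofFn, List.ofFn_get]
  have h4 : (fun i : Fin V.length => List.ofFn fun j : Fin V.length => g (V.get i) (V.get j)) =
      (fun x => V.map (fun y => g x y)) ∘ V.get := by
    funext i
    exact h2 i
  rw [h4, ← List.map_ofFn, List.ofFn_get, List.flatMap_def]

lemma encode_mk {n : ℕ} (G : SimpleGraph (Fin n)) (d : DecidableRel G.Adj) (N : Fin n → Bool)
    (g : Fin n → Fin n → Bool) (hg : ∀ i j, g i j = true ↔ G.Adj i j) :
    ProbeInput.encode ⟨n, G, d, N⟩ = List.replicate n true ++ false ::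
      ((List.ofFn fun i : Fin n => List.ofFn fun j : Fin n => g i j).flatten ++ List.ofFn N) := by
  unfold ProbeInput.encode
  have : (fun i : Fin n => List.ofFn fun j : Fin n => @decide (G.Adj i j) (d i j)) =
      (fun i : Fin n => List.ofFn fun j : Fin n => g i j) := by
    funext i
    congr 1
    funext j
    rw [Bool.eq_iff_iff, decide_eq_true_iff]
    exact (hg i j).symm
  simp only [this]

lemma enc_red (φ : List H66.Cl) : (red φ).encode =
    List.replicate (verts φ.length).length true ++ false ::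
      ((verts φ.length).flatMap (fun x => (verts φ.length).map (fun y => adjB φ x y)) ++
        (verts φ.length).map (fun x => decide (x.1 = 0))) := by
  rw [← ofFn_matrix]
  have h1 : (List.ofFn fun i : Fin (verts φ.length).length => decide ((vm φ i).1 = 0)) =
      (verts φ.length).map (fun x => decide (x.1 = 0)) := by
    have h3 : (fun i : Fin (verts φ.length).length => decide ((vm φ i).1 = 0)) =
        (fun x : Name => decide (x.1 = 0)) ∘ (verts φ.length).get := rfl
    rw [h3, ← List.map_ofFn, List.ofFn_get]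
  rw [← h1]
  exact encode_mk _ _ _ (fun i j => adjB φ (vm φ i) (vm φ j))
    (fun i j => adjB_iff φ (vm φ i) (vm φ j))

/-- the output code as a polynomial-time function of the formula -/
theorem PT_enc_red : PT (fun φ : List H66.Cl => (red φ).encode) := by
  have hV : PT (fun φ : List H66.Cl => verts φ.length) := PT_verts (PT.length PT.id)
  have h1 : PT (fun φ : List H66.Cl => List.replicate (verts φ.length).length true ++ false ::
      ((verts φ.length).flatMap (fun x => (verts φ.length).map (fun y => adjB φ x y)) ++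
        (verts φ.length).map (fun x => decide (x.1 = 0)))) := by
    refine PT.append (PT.replicate (PT.length hV) (PT.const true)) (PT.cons (PT.const false)
      (PT.append ?_ ?_))
    · refine PT.flatMap (g := fun z : List H66.Cl × Name => (verts z.1.length).map
        (fun y => adjB z.1 z.2 y)) hV ?_
      refine PT.map (g := fun z : (List H66.Cl × Name) × Name => adjB z.1.1 z.1.2 z.2)
        (hV.comp PT.fst) ?_
      exact PT_adjB PT.fst.p1 PT.fst.p2 PT.snd
    · exact PT.map (g := fun z : List H66.Cl × Name => decide (z.2.1 = 0)) hV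
        (PT.neq PT.snd.p1 (PT.const 0))
  exact h1.congr fun φ => (enc_red φ).symm

/-- **The reduction is computed by a Turing machine in polynomial time.** -/
theorem red_polytime : Nonempty (Turing.TM2ComputableInPolyTime
    (fun φ : List H66.Cl => (toD φ).enc) ProbeInput.encode red) :=
  PT.toTM2_code PT_enc_red (fun _ => rfl)

end Pool.Agent.MP_96e1cb_lc
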