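import Pool.Agent.MP_96e1cb_lc.Sound

/-!
From a perfect completion to a satisfying assignment: connectors and clauses.
-/

set_option autoImplicit false

namespace Pool.Agent.MP_96e1cb_lc

open SimpleGraph

lemma rel_symm {φ : List H66.Cl} {p q : P3} (h : rel φ p q) : rel φ q p :=
  ⟨h.2.1, h.1, h.2.2.symm⟩

lemma sgn_symm {φ : List H66.Cl} {p q : P3} (h : sgn φ p q) : sgn φ q p := Eq.symm h

namespace Compl

variable {φ : List H66.Cl} {A : SimpleGraph Name} (h : Compl φ A)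

include h

lemma nww {p q : P3} (hp : p ∈ wsl φ.length) (hq : q ∈ wsl φ.length) :
    ¬ A.Adj (0, p, hb) (0, q, hb) := by
  by_cases hpq : p = q
  · rw [hpq]; exact fun h' => h'.ne rfl
  · have hp' := (mem_wsl.1 hp).1
    have hq' := (mem_wsl.1 hq).1
    refine h.forbidden (nps_of_wsl hp) (nps_of_wsl hq) ⟨hpq, ?_, ?_⟩ ?_
    · unfold opt1; omega
    · unfold opt1; omega
    · unfold frc frc1; omega

lemma nhy {c i : ℕ} (hc : c < φ.length) (hi : i < 4) :
    ¬ A.Adj (0, hb, hb) (0, (2, c, i), hb) := by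
  refine h.forbidden (nps_h _) (mem_nps.2 (Or.inr ⟨Or.inr rfl, hc, hi⟩)) ⟨by simp, ?_, ?_⟩ ?_
  · unfold opt1; simp
  · unfold opt1; simp
  · unfold frc frc1; simp

lemma nh3 {c : ℕ} (hc : c < φ.length) :
    ¬ A.Adj (0, hb, hb) (0, (1, c, 3), hb) := by
  refine h.forbidden (nps_h _) (mem_nps.2 (Or.inr ⟨Or.inl rfl, hc, by simp⟩)) ⟨by simp, ?_, ?_⟩ ?_
  · unfold opt1; simp
  · unfold opt1; simp
  · unfold frc frc1; simp

lemma fyy {c i j : ℕ} (hc : c < φ.length) (hi : i < 4) (hj : j < 4) (hij : i ≠ j) :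
    A.Adj (0, (2, c, i), hb) (0, (2, c, j), hb) := by
  refine h.forced (mem_nps.2 (Or.inr ⟨Or.inr rfl, hc, hi⟩)) (mem_nps.2 (Or.inr ⟨Or.inr rfl, hc, hj⟩))
    ⟨?_, ?_, ?_⟩ ?_
  · simp [hij]
  · unfold opt1; simp
  · unfold opt1; simp
  · unfold frc frc1; simp [hij]

lemma fwy {c i : ℕ} (hc : c < φ.length) (hi : i < 4) :
    A.Adj (0, (1, c, i), hb) (0, (2, c, i), hb) := by
  refine h.forced (mem_nps.2 (Or.inr ⟨Or.inl rfl, hc, hi⟩)) (mem_nps.2 (Or.inr ⟨Or.inr rfl, hc, hi⟩))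
    ⟨?_, ?_, ?_⟩ ?_
  · simp
  · unfold opt1; simp
  · unfold opt1; simp
  · unfold frc frc1; simp

lemma nwy {c i j : ℕ} (hc : c < φ.length) (hi : i < 4) (hj : j < 4)
    (hij : j + 1 = i ∨ (i = 0 ∧ j = 3)) :
    ¬ A.Adj (0, (1, c, i), hb) (0, (2, c, j), hb) := by
  refine h.forbidden (mem_nps.2 (Or.inr ⟨Or.inl rfl, hc, hi⟩))
    (mem_nps.2 (Or.inr ⟨Or.inr rfl, hc, hj⟩)) ⟨by simp, ?_, ?_⟩ ?_
  · unfold opt1; simp; omega
  · unfold opt1; simp
  · unfold frc frc1; simp; omega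

lemma th {p : P3} (hp : p ∈ wsl φ.length) : A.Adj (1, p, hb) (0, hb, hb) :=
  (h.agree _ _ (v1 hp) (v0 (nps_h _)) (by simp)).2 ((gr10 _ _ _).2 (Or.inl rfl))

lemma tw {p : P3} (hp : p ∈ wsl φ.length) : A.Adj (1, p, hb) (0, p, hb) :=
  (h.agree _ _ (v1 hp) (v0 (nps_of_wsl hp)) (by simp)).2 ((gr10 _ _ _).2 (Or.inr rfl))

lemma ntn {p r : P3} (hp : p ∈ wsl φ.length) (hr : r ∈ nps φ.length) (h1 : r ≠ hb) (h2 : r ≠ p) :
    ¬ A.Adj (1, p, hb) (0, r, hb) := by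
  intro h'
  have := (gr10 _ _ _).1 ((h.agree _ _ (v1 hp) (v0 hr) (by simp)).1 h')
  tauto

lemma ntt {p q : P3} (hp : p ∈ wsl φ.length) (hq : q ∈ wsl φ.length) :
    ¬ A.Adj (1, p, hb) (1, q, hb) := by
  intro h'
  exact gr11 _ _ _ ((h.agree _ _ (v1 hp) (v1 hq) (by simp)).1 h')

/-- same variable, same sign -/
lemma conn_same {p q : P3} (hp : p ∈ wsl φ.length) (hq : q ∈ wsl φ.length) (hr : rel φ p q)
    (hs : sgn φ p q) (he : A.Adj (0, hb, hb) (0, p, hb)) : A.Adj (0, hb, hb) (0, q, hb) := by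
  by_contra hq'
  have hpq : p ≠ q := by rintro rfl; exact hq' he
  have hph : p ≠ hb := by rintro rfl; exact absurd (mem_wsl.1 hp).1 (by decide)
  have hqh : q ≠ hb := by rintro rfl; exact absurd (mem_wsl.1 hq).1 (by decide)
  have w2 := v2 hp hq
  refine h.not5 (a := (0, p, hb)) (b := (0, hb, hb)) (c := (1, q, hb)) (d := (0, q, hb))
    (e := (2, p, q)) (v0 (nps_of_wsl hp)) (v0 (nps_h _)) (v1 hq) (v0 (nps_of_wsl hq)) w2 he.symm
    (h.th hq).symm (h.tw hq) ?_ ?_ ?_ hq' ?_ (h.nww hq hp) ?_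
  · exact (h.agree' w2 (v0 (nps_of_wsl hq)) (by simp)).2 ((gr20 _ _ _ _).2 ⟨hr, Or.inr ⟨hs, rfl⟩⟩)
  · exact (h.agree _ _ w2 (v0 (nps_of_wsl hp)) (by simp)).2 ((gr20 _ _ _ _).2 ⟨hr, Or.inl rfl⟩)
  · exact fun h' => h.ntn hq (nps_of_wsl hp) hph hpq h'.symm
  · intro h'
    exact gr21 _ _ _ _ ((h.agree' w2 (v1 hq) (by simp)).1 h')
  · intro h'
    have := (gr20 _ _ _ _).1 ((h.agree _ _ w2 (v0 (nps_h _)) (by simp)).1 h')
    rcases this.2 with h1 | h1
    · exact hph h1.symm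
    · exact hqh h1.2.symm

/-- same variable, opposite signs -/
lemma conn_opp {p q : P3} (hp : p ∈ wsl φ.length) (hq : q ∈ wsl φ.length) (hr : rel φ p q)
    (hs : ¬ sgn φ p q) : A.Adj (0, hb, hb) (0, p, hb) ↔ ¬ A.Adj (0, hb, hb) (0, q, hb) := by
  have hpq : p ≠ q := by rintro rfl; exact hs rfl
  have hph : p ≠ hb := by rintro rfl; exact absurd (mem_wsl.1 hp).1 (by decide)
  have hqh : q ≠ hb := by rintro rfl; exact absurd (mem_wsl.1 hq).1 (by decide)
  have w2 := v2 hp hq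
  have w3 := v3 hp hq
  have a1 : A.Adj (2, p, q) (0, p, hb) :=
    (h.agree _ _ w2 (v0 (nps_of_wsl hp)) (by simp)).2 ((gr20 _ _ _ _).2 ⟨hr, Or.inl rfl⟩)
  have a2 : A.Adj (2, p, q) (3, p, q) :=
    (h.agree _ _ w2 w3 (by simp)).2 ((gr23 _ _ _ _ _).2 ⟨hr, rfl, hs⟩)
  have a3 : A.Adj (3, p, q) (0, q, hb) :=
    (h.agree _ _ w3 (v0 (nps_of_wsl hq)) (by simp)).2 ((gr30 _ _ _ _).2 ⟨hr, hs, rfl⟩)
  have b1 : ¬ A.Adj (3, p, q) (0, hb, hb) := by
    intro h'
    have := (gr30 _ _ _ _).1 ((h.agree _ _ w3 (v0 (nps_h _)) (by simp)).1 h')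
    exact hqh this.2.2.symm
  have b2 : ¬ A.Adj (2, p, q) (0, q, hb) := by
    intro h'
    have := (gr20 _ _ _ _).1 ((h.agree _ _ w2 (v0 (nps_of_wsl hq)) (by simp)).1 h')
    rcases this.2 with h1 | h1
    · exact hpq h1.symm
    · exact hs h1.1
  have b3 : ¬ A.Adj (3, p, q) (0, p, hb) := by
    intro h'
    have := (gr30 _ _ _ _).1 ((h.agree _ _ w3 (v0 (nps_of_wsl hp)) (by simp)).1 h')
    exact hpq this.2.2
  have b4 : ¬ A.Adj (2, p, q) (0, hb, hb) := by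
    intro h'
    have := (gr20 _ _ _ _).1 ((h.agree _ _ w2 (v0 (nps_h _)) (by simp)).1 h')
    rcases this.2 with h1 | h1
    · exact hph h1.symm
    · exact hqh h1.2.symm
  have b5 : ∀ r ∈ wsl φ.length, ¬ A.Adj (2, p, q) (1, r, hb) := by
    intro r hr' h'
    exact gr21 _ _ _ _ ((h.agree _ _ w2 (v1 hr') (by simp)).1 h')
  have b6 : ∀ r ∈ wsl φ.length, ¬ A.Adj (3, p, q) (1, r, hb) := by
    intro r hr' h'
    exact gr31 _ _ _ _ ((h.agree _ _ w3 (v1 hr') (by simp)).1 h')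
  constructor
  · intro he he'
    exact h.not5 (a := (0, p, hb)) (b := (0, hb, hb)) (c := (0, q, hb)) (d := (3, p, q))
      (e := (2, p, q)) (v0 (nps_of_wsl hp)) (v0 (nps_h _)) (v0 (nps_of_wsl hq)) w3 w2 he.symm he'
      a3.symm a2.symm a1 (h.nww hp hq) (fun h' => b1 h'.symm) (fun h' => b2 h'.symm) b3 b4
  · intro he'
    by_contra he
    exact h.not7 (a := (0, p, hb)) (b := (1, p, hb)) (c := (0, hb, hb)) (d := (1, q, hb))
      (e := (0, q, hb)) (f := (3, p, q)) (g := (2, p, q)) (v0 (nps_of_wsl hp)) (v1 hp)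
      (v0 (nps_h _)) (v1 hq) (v0 (nps_of_wsl hq)) w3 w2 (h.tw hp).symm (h.th hp) (h.th hq).symm
      (h.tw hq) a3.symm a2.symm a1 (fun h' => he h'.symm)
      (fun h' => h.ntn hq (nps_of_wsl hp) hph hpq h'.symm) (h.nww hp hq) (fun h' => b3 h'.symm)
      (h.ntt hp hq) (h.ntn hp (nps_of_wsl hq) hqh hpq.symm) (fun h' => b6 p hp h'.symm)
      (fun h' => b5 p hp h'.symm) he' (fun h' => b1 h'.symm) (fun h' => b4 h'.symm)
      (fun h' => b6 q hq h'.symm) (fun h' => b5 q hq h'.symm) (fun h' => b2 h'.symm)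

/-- the seven-cycle through the hub and a clause gadget -/
lemma clause7 {c i j : ℕ} (hc : c < φ.length) (hi : i < 4) (hj : j < 4) (hi0 : i ≠ 0)
    (he : ∀ k, k < 4 → ¬ A.Adj (0, hb, hb) (0, (1, c, k), hb))
    (w1 : A.Adj (0, (1, c, j), hb) (0, (2, c, 0), hb))
    (w2 : ¬ A.Adj (0, (1, c, i), hb) (0, (2, c, 0), hb))
    (w3 : ¬ A.Adj (0, (1, c, j), hb) (0, (2, c, i), hb)) : False := by
  have hwi : ((1, c, i) : P3) ∈ wsl φ.length := mem_wsl.2 ⟨rfl, hc, hi⟩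
  have hwj : ((1, c, j) : P3) ∈ wsl φ.length := mem_wsl.2 ⟨rfl, hc, hj⟩
  have hyi : ((2, c, i) : P3) ∈ nps φ.length := mem_nps.2 (Or.inr ⟨Or.inr rfl, hc, hi⟩)
  have hy0 : ((2, c, 0) : P3) ∈ nps φ.length := mem_nps.2 (Or.inr ⟨Or.inr rfl, hc, by simp⟩)
  have hij : i ≠ j := by
    rintro rfl
    exact w2 w1
  refine h.not7 (a := (0, (1, c, i), hb)) (b := (0, (2, c, i), hb)) (c := (0, (2, c, 0), hb))
    (d := (0, (1, c, j), hb)) (e := (1, (1, c, j), hb)) (f := (0, hb, hb))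
    (g := (1, (1, c, i), hb)) (v0 (nps_of_wsl hwi)) (v0 hyi) (v0 hy0) (v0 (nps_of_wsl hwj))
    (v1 hwj) (v0 (nps_h _)) (v1 hwi) (h.fwy hc hi) (h.fyy hc hi (by decide) hi0) w1.symm
    (h.tw hwj).symm (h.th hwj) (h.th hwi).symm (h.tw hwi) w2 (h.nww hwi hwj) ?_
    (fun h' => he i hi h'.symm) (fun h' => w3 h'.symm) ?_ (fun h' => h.nhy hc hi h'.symm) ?_ ?_
    (fun h' => h.nhy hc (by decide) h'.symm) ?_ (fun h' => he j hj h'.symm) ?_ (h.ntt hwj hwi)
  · exact fun h' => h.ntn hwj (nps_of_wsl hwi) (by simp) (by simp [hij]) h'.symm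
  · exact fun h' => h.ntn hwj hyi (by simp) (by simp) h'.symm
  · exact fun h' => h.ntn hwi hyi (by simp) (by simp) h'.symm
  · exact fun h' => h.ntn hwj hy0 (by simp) (by simp) h'.symm
  · exact fun h' => h.ntn hwi hy0 (by simp) (by simp) h'.symm
  · exact fun h' => h.ntn hwi (nps_of_wsl hwj) (by simp) (by simp [hij.symm]) h'.symm

/-- in each clause some literal is true -/
lemma clause {c : ℕ} (hc : c < φ.length) :
    ∃ i, i < 3 ∧ A.Adj (0, hb, hb) (0, (1, c, i), hb) := by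
  by_contra hcon
  push Not at hcon
  have he : ∀ k, k < 4 → ¬ A.Adj (0, hb, hb) (0, (1, c, k), hb) := by
    intro k hk
    by_cases h3 : k = 3
    · rw [h3]; exact h.nh3 hc
    · exact hcon k (by omega)
  have d00 := h.fwy hc (i := 0) (by decide)
  have n03 := h.nwy hc (i := 0) (j := 3) (by decide) (by decide) (Or.inr ⟨rfl, rfl⟩)
  have n32 := h.nwy hc (i := 3) (j := 2) (by decide) (by decide) (Or.inl rfl)
  have n21 := h.nwy hc (i := 2) (j := 1) (by decide) (by decide) (Or.inl rfl)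
  have n10 := h.nwy hc (i := 1) (j := 0) (by decide) (by decide) (Or.inl rfl)
  by_cases h30 : A.Adj (0, (1, c, 3), hb) (0, (2, c, 0), hb)
  · by_cases h20 : A.Adj (0, (1, c, 2), hb) (0, (2, c, 0), hb)
    · exact h.clause7 hc (i := 1) (j := 2) (by decide) (by decide) (by decide) he h20 n10 n21
    · exact h.clause7 hc (i := 2) (j := 3) (by decide) (by decide) (by decide) he h30 h20 n32
  · exact h.clause7 hc (i := 3) (j := 0) (by decide) (by decide) (by decide) he d00 h30 n03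

/-- **A perfect completion yields a satisfying assignment.** -/
theorem sat : H66.Sat3 φ := by
  classical
  let e : P3 → Prop := fun p => A.Adj (0, hb, hb) (0, p, hb)
  let τ : ℕ → Bool := fun v => decide (∃ p, p ∈ wsl φ.length ∧ ¬ p.2.2 = 3 ∧ (litP φ p).2 = v ∧
    (e p ↔ (litP φ p).1 = true))
  have key : ∀ p, p ∈ wsl φ.length → ¬ p.2.2 = 3 → (e p ↔ τ (litP φ p).2 = (litP φ p).1) := by
    intro p hp hp3
    by_cases hτ : τ (litP φ p).2 = true
    · have h1 : ∃ q, q ∈ wsl φ.length ∧ ¬ q.2.2 = 3 ∧ (litP φ q).2 = (litP φ p).2 ∧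
          (e q ↔ (litP φ q).1 = true) := by simpa [τ] using hτ
      obtain ⟨q, hq, hq3, hv, hqe⟩ := h1
      have hr : rel φ p q := ⟨hp3, hq3, hv.symm⟩
      rw [hτ]
      by_cases hs : sgn φ p q
      · have h2 : e p ↔ e q :=
          ⟨h.conn_same hp hq hr hs, h.conn_same hq hp (rel_symm hr) (sgn_symm hs)⟩
        rw [h2, hqe]
        have h3 : (litP φ p).1 = (litP φ q).1 := hs
        rw [h3]
        exact eq_comm
      · have h2 : e p ↔ ¬ e q := h.conn_opp hp hq hr hs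
        rw [h2, hqe]
        have h3 : ¬ (litP φ p).1 = (litP φ q).1 := hs
        revert h3
        cases (litP φ p).1 <;> cases (litP φ q).1 <;> simp
    · have h1 : ¬ (e p ↔ (litP φ p).1 = true) := by
        intro h2
        apply hτ
        simp only [τ, decide_eq_true_iff]
        exact ⟨p, hp, hp3, rfl, h2⟩
      have h2 : τ (litP φ p).2 = false := by simpa using hτ
      rw [h2]
      by_cases he : e p
      · simp only [he, true_iff] at h1 ⊢
        revert h1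
        cases (litP φ p).1 <;> simp
      · simp only [he, false_iff] at h1 ⊢
        revert h1
        cases (litP φ p).1 <;> simp
  refine ⟨τ, ?_⟩
  intro cl hcl
  obtain ⟨c, hc, rfl⟩ := List.mem_iff_getElem.1 hcl
  obtain ⟨i, hi, he⟩ := h.clause hc
  have hp : ((1, c, i) : P3) ∈ wsl φ.length := mem_wsl.2 ⟨rfl, hc, by simp; omega⟩
  have h1 := (key (1, c, i) hp (by simp; omega)).1 he
  have hg : φ.getD c ((true, 0), (true, 0), (true, 0)) = φ[c] := by
    simp [hc]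
  have l0 : litP φ (1, c, 0) = φ[c].1 := by unfold litP; rw [if_pos rfl, hg]
  have l1 : litP φ (1, c, 1) = φ[c].2.1 := by
    unfold litP; rw [if_neg (by simp), if_pos rfl, hg]
  have l2 : litP φ (1, c, 2) = φ[c].2.2 := by
    unfold litP; rw [if_neg (by simp), if_neg (by simp), hg]
  unfold H66.ClSat H66.LitSat
  have : i = 0 ∨ i = 1 ∨ i = 2 := by omega
  rcases this with rfl | rfl | rfl
  · left
    rw [l0] at h1; exact h1
  · right; left
    rw [l1] at h1; exact h1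
  · right; right
    rw [l2] at h1; exact h1

end Compl

end Pool.Agent.MP_96e1cb_lc
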