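import Pool.Agent.MP_96e1cb_lc.Perf3
import Pool.Agent.Lib.helper60.NPLib

/-!
The check behind the upper bound: a clique and a colouring with the same number of colours.
-/

set_option autoImplicit false

namespace Pool.Agent.MP_96e1cb_lc

open SimpleGraph Lib.helper60

/-! ### leading ones -/

/-- step of the counter of leading ones -/
def lstep (s : Bool × ℕ) (b : Bool) : Bool × ℕ :=
  bif s.1 && b then (true, s.2 + 1) else (false, s.2)

/-- number of leading ones -/
def lead (w : List Bool) : ℕ := (w.foldl lstep (true, 0)).2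

lemma lead_aux_false (w : List Bool) : ∀ n, w.foldl lstep (false, n) = (false, n) := by
  induction w with
  | nil => intro n; rfl
  | cons b w ih => intro n; simp [lstep, ih]

lemma lead_aux (k : ℕ) (w : List Bool) : ∀ n,
    (List.replicate k true ++ false :: w).foldl lstep (true, n) = (false, n + k) := by
  induction k with
  | zero => intro n; simp [lstep, lead_aux_false]
  | succ k ih =>
    intro n
    have h : lstep (true, n) true = (true, n + 1) := by simp [lstep]
    rw [List.replicate_succ, List.cons_append, List.foldl_cons, h, ih]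
    simp only [Prod.mk.injEq, true_and]
    omega

lemma lead_replicate (k : ℕ) (w : List Bool) : lead (List.replicate k true ++ false :: w) = k := by
  unfold lead
  rw [lead_aux]
  simp

lemma drop_replicate' (k : ℕ) (w : List Bool) :
    (List.replicate k true ++ false :: w).drop (k + 1) = w := by
  have h : (List.replicate k true ++ false :: w) = (List.replicate k true ++ [false]) ++ w := by simp
  rw [h]
  exact List.drop_left' (by simp)

theorem PT_lead {α : Type} [DEnc α] {f : α → List Bool} (hf : PT f) : PT (fun a => lead (f a)) := by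
  unfold lead
  have hs : PT (fun z : α × (Bool × ℕ) × Bool => lstep z.2.1 z.2.2) := by
    unfold lstep
    exact PT.cond (PT.band PT.snd.p1.p1 PT.snd.p2) (PT.pair (PT.const true) (PT.nsucc PT.snd.p1.p2))
      (PT.pair (PT.const false) PT.snd.p1.p2)
  have h := PT.foldl_lin (init := fun _ : α => ((true, 0) : Bool × ℕ)) hf (PT.const _) hs 5 (by
    rintro x ⟨s, n⟩ b
    have h1 := tsize_pos s
    have e1 : tsize true = 3 := rfl
    have e2 : tsize false = 1 := rfl
    unfold lstep
    simp only
    cases (s && b)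
    · simp only [cond_false, tsize_pair, tsize_nat, e2]
      omega
    · simp only [cond_true, tsize_pair, tsize_nat, e1]
      omega)
  exact h.p2

/-! ### the check -/

/-- adjacency in the completed graph -/
def hadj (n : ℕ) (r E : List Bool) (i j : ℕ) : Bool :=
  r.getD (n * i + j) false || ((r.getD (n * n + i) false && r.getD (n * n + j) false) &&
    (!decide (i = j) && (E.getD (n * i + j) false || E.getD (n * j + i) false)))

/-- the set `X` has a clique and a colouring, both given by `c`, with the same number of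
colours -/
def chk (n : ℕ) (r E X c : List Bool) : Bool :=
  (List.range n).all fun i =>
    (!(c.getD i false) || X.getD i false) &&
    ((!(X.getD i false) || (List.range n).any fun k =>
      c.getD k false && c.getD (n + (n * i + k)) false) &&
    (List.range n).all fun j =>
      (!(r.getD (n * n + i) false && r.getD (n * n + j) false) || !(r.getD (n * i + j) false)) &&
      ((!((c.getD i false && c.getD j false) && !decide (i = j)) || hadj n r E i j) &&
      (!((X.getD i false && X.getD j false) && hadj n r E i j) || (List.range n).all fun k =>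
        !(c.getD (n + (n * i + k)) false && c.getD (n + (n * j + k)) false))))

theorem PT_hadj {α : Type} [DEnc α] {n i j : α → ℕ} {r E : α → List Bool}
    (hn : PT n) (hr : PT r) (hE : PT E) (hi : PT i) (hj : PT j) :
    PT (fun a => hadj (n a) (r a) (E a) (i a) (j a)) := by
  unfold hadj
  have f := PT.const (α := α) false
  exact PT.bor (PT.getD hr (PT.nadd (PT.nmul hn hi) hj) f) (PT.band (PT.band
    (PT.getD hr (PT.nadd (PT.nmul hn hn) hi) f) (PT.getD hr (PT.nadd (PT.nmul hn hn) hj) f))
    (PT.band (PT.bnot (PT.neq hi hj)) (PT.bor (PT.getD hE (PT.nadd (PT.nmul hn hi) hj) f)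
      (PT.getD hE (PT.nadd (PT.nmul hn hj) hi) f))))

theorem PT_chk {α : Type} [DEnc α] {n : α → ℕ} {r E X c : α → List Bool}
    (hn : PT n) (hr : PT r) (hE : PT E) (hX : PT X) (hc : PT c) :
    PT (fun a => chk (n a) (r a) (E a) (X a) (c a)) := by
  unfold chk
  refine PT.all (p := fun z : α × ℕ =>
    (!((c z.1).getD z.2 false) || (X z.1).getD z.2 false) &&
    ((!((X z.1).getD z.2 false) || (List.range (n z.1)).any fun k =>
      (c z.1).getD k false && (c z.1).getD (n z.1 + (n z.1 * z.2 + k)) false) &&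
    (List.range (n z.1)).all fun j =>
      (!((r z.1).getD (n z.1 * n z.1 + z.2) false && (r z.1).getD (n z.1 * n z.1 + j) false) ||
        !((r z.1).getD (n z.1 * z.2 + j) false)) &&
      ((!(((c z.1).getD z.2 false && (c z.1).getD j false) && !decide (z.2 = j)) ||
        hadj (n z.1) (r z.1) (E z.1) z.2 j) &&
      (!(((X z.1).getD z.2 false && (X z.1).getD j false) && hadj (n z.1) (r z.1) (E z.1) z.2 j) ||
        (List.range (n z.1)).all fun k =>
        !((c z.1).getD (n z.1 + (n z.1 * z.2 + k)) false &&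
          (c z.1).getD (n z.1 + (n z.1 * j + k)) false))))) (PT.range hn) ?_
  have f := PT.const (α := α × ℕ) false
  have n1 := hn.comp (PT.fst (α := α) (β := ℕ))
  have r1 := hr.comp (PT.fst (α := α) (β := ℕ))
  have E1 := hE.comp (PT.fst (α := α) (β := ℕ))
  have X1 := hX.comp (PT.fst (α := α) (β := ℕ))
  have c1 := hc.comp (PT.fst (α := α) (β := ℕ))
  have i1 : PT (fun z : α × ℕ => z.2) := PT.snd
  refine PT.band (PT.bor (PT.bnot (PT.getD c1 i1 f)) (PT.getD X1 i1 f)) (PT.band
    (PT.bor (PT.bnot (PT.getD X1 i1 f)) ?_) ?_)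
  · refine PT.any (p := fun y : (α × ℕ) × ℕ => (c y.1.1).getD y.2 false &&
      (c y.1.1).getD (n y.1.1 + (n y.1.1 * y.1.2 + y.2)) false) (PT.range n1) ?_
    have f2 := PT.const (α := (α × ℕ) × ℕ) false
    have n2 := n1.comp (PT.fst (α := α × ℕ) (β := ℕ))
    have c2 := c1.comp (PT.fst (α := α × ℕ) (β := ℕ))
    exact PT.band (PT.getD c2 PT.snd f2) (PT.getD c2 (PT.nadd n2 (PT.nadd (PT.nmul n2 PT.fst.p2)
      PT.snd)) f2)
  · refine PT.all (p := fun y : (α × ℕ) × ℕ =>
      (!((r y.1.1).getD (n y.1.1 * n y.1.1 + y.1.2) false &&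
        (r y.1.1).getD (n y.1.1 * n y.1.1 + y.2) false) ||
        !((r y.1.1).getD (n y.1.1 * y.1.2 + y.2) false)) &&
      ((!(((c y.1.1).getD y.1.2 false && (c y.1.1).getD y.2 false) && !decide (y.1.2 = y.2)) ||
        hadj (n y.1.1) (r y.1.1) (E y.1.1) y.1.2 y.2) &&
      (!(((X y.1.1).getD y.1.2 false && (X y.1.1).getD y.2 false) &&
        hadj (n y.1.1) (r y.1.1) (E y.1.1) y.1.2 y.2) ||
        (List.range (n y.1.1)).all fun k =>
        !((c y.1.1).getD (n y.1.1 + (n y.1.1 * y.1.2 + k)) false &&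
          (c y.1.1).getD (n y.1.1 + (n y.1.1 * y.2 + k)) false)))) (PT.range n1) ?_
    have f2 := PT.const (α := (α × ℕ) × ℕ) false
    have n2 := n1.comp (PT.fst (α := α × ℕ) (β := ℕ))
    have r2 := r1.comp (PT.fst (α := α × ℕ) (β := ℕ))
    have E2 := E1.comp (PT.fst (α := α × ℕ) (β := ℕ))
    have X2 := X1.comp (PT.fst (α := α × ℕ) (β := ℕ))
    have c2 := c1.comp (PT.fst (α := α × ℕ) (β := ℕ))
    have i2 : PT (fun y : (α × ℕ) × ℕ => y.1.2) := PT.fst.p2
    have j2 : PT (fun y : (α × ℕ) × ℕ => y.2) := PT.snd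
    have hh := PT_hadj n2 r2 E2 i2 j2
    refine PT.band (PT.bor (PT.bnot (PT.band (PT.getD r2 (PT.nadd (PT.nmul n2 n2) i2) f2)
      (PT.getD r2 (PT.nadd (PT.nmul n2 n2) j2) f2))) (PT.bnot (PT.getD r2 (PT.nadd (PT.nmul n2 i2)
      j2) f2))) (PT.band (PT.bor (PT.bnot (PT.band (PT.band (PT.getD c2 i2 f2) (PT.getD c2 j2 f2))
      (PT.bnot (PT.neq i2 j2)))) hh) (PT.bor (PT.bnot (PT.band (PT.band (PT.getD X2 i2 f2)
      (PT.getD X2 j2 f2)) hh)) ?_))
    refine PT.all (p := fun x : ((α × ℕ) × ℕ) × ℕ =>
        !((c x.1.1.1).getD (n x.1.1.1 + (n x.1.1.1 * x.1.1.2 + x.2)) false &&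
          (c x.1.1.1).getD (n x.1.1.1 + (n x.1.1.1 * x.1.2 + x.2)) false)) (PT.range n2) ?_
    have f3 := PT.const (α := ((α × ℕ) × ℕ) × ℕ) false
    have n3 := n2.comp (PT.fst (α := (α × ℕ) × ℕ) (β := ℕ))
    have c3 := c2.comp (PT.fst (α := (α × ℕ) × ℕ) (β := ℕ))
    exact PT.bnot (PT.band (PT.getD c3 (PT.nadd n3 (PT.nadd (PT.nmul n3 PT.fst.p1.p2) PT.snd)) f3)
      (PT.getD c3 (PT.nadd n3 (PT.nadd (PT.nmul n3 PT.fst.p2) PT.snd)) f3))

/-- the check on raw strings; the input is `((w, E), X, c)` -/
def verif (p : (List Bool × List Bool) × (List Bool × List Bool)) : Bool :=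
  chk (lead p.1.1) (p.1.1.drop (lead p.1.1 + 1)) p.1.2 p.2.1 p.2.2

theorem PT_verif : PT verif := by
  unfold verif
  have n := PT_lead (α := (List Bool × List Bool) × (List Bool × List Bool)) PT.fst.p1
  exact PT_chk n (PT.drop (PT.nsucc n) PT.fst.p1) PT.fst.p2 PT.snd.p1 PT.snd.p2

end Pool.Agent.MP_96e1cb_lc
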