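import Pool.Agent.MP_96e1cb_lc.Ver

/-!
Correctness of the check.
-/

set_option autoImplicit false

namespace Pool.Agent.MP_96e1cb_lc

open SimpleGraph Lib.helper60

/-! ### matrices as lists -/

/-- the rows of a matrix -/
def mat {n : ℕ} (f : Fin n → Fin n → Bool) : List Bool :=
  (List.ofFn fun i : Fin n => List.ofFn fun j : Fin n => f i j).flatten

lemma mat_eq {n : ℕ} (f : Fin n → Fin n → Bool) :
    mat f = List.ofFn (fun t : Fin (n * n) => f t.divNat t.modNat) := by
  unfold mat
  rw [List.ofFn_mul]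
  congr 1
  congr 1
  funext i
  congr 1
  funext j
  have hn : 0 < n := lt_of_le_of_lt (Nat.zero_le _) i.isLt
  congr 1
  · apply Fin.ext
    simp only [Fin.coe_divNat]
    rw [mul_comm, Nat.mul_add_div hn, Nat.div_eq_of_lt j.isLt, add_zero]
  · apply Fin.ext
    simp only [Fin.coe_modNat]
    rw [mul_comm, Nat.mul_add_mod, Nat.mod_eq_of_lt j.isLt]

lemma mat_length {n : ℕ} (f : Fin n → Fin n → Bool) : (mat f).length = n * n := by
  rw [mat_eq]
  simp

lemma mat_getD {n : ℕ} (f : Fin n → Fin n → Bool) (w : List Bool) (i j : Fin n) :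
    (mat f ++ w).getD (n * i.val + j.val) false = f i j := by
  have hlt : n * i.val + j.val < n * n := by
    have h1 := i.isLt
    have h2 := j.isLt
    nlinarith
  rw [List.getD_append _ _ _ _ (by rw [mat_length]; exact hlt)]
  have hn : 0 < n := lt_of_le_of_lt (Nat.zero_le _) i.isLt
  rw [mat_eq, List.getD_eq_getElem _ _ (by simpa using hlt), List.getElem_ofFn]
  have e1 : (⟨n * i.val + j.val, hlt⟩ : Fin (n * n)).divNat = i := by
    apply Fin.ext
    simp only [Fin.coe_divNat]
    rw [Nat.mul_add_div hn, Nat.div_eq_of_lt j.isLt, add_zero]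
  have e2 : (⟨n * i.val + j.val, hlt⟩ : Fin (n * n)).modNat = j := by
    apply Fin.ext
    simp only [Fin.coe_modNat]
    rw [Nat.mul_add_mod, Nat.mod_eq_of_lt j.isLt]
  rw [e1, e2]

lemma append_getD_add {l w : List Bool} {n : ℕ} (hl : l.length = n) (m : ℕ) :
    (l ++ w).getD (n + m) false = w.getD m false := by
  rw [List.getD_append_right _ _ _ _ (by omega), hl]
  congr 1
  omega

lemma ofFn_getD {n : ℕ} (f : Fin n → Bool) (w : List Bool) (i : Fin n) :
    (List.ofFn f ++ w).getD i.val false = f i := by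
  rw [List.getD_append _ _ _ _ (by simp), List.getD_eq_getElem _ _ (by simp), List.getElem_ofFn]

/-! ### the input -/

/-- the part of the code after `1^n 0` -/
def ProbeInput.rest (I : ProbeInput) : List Bool :=
  haveI := I.decAdj
  mat (fun i j => decide (I.G.Adj i j)) ++ List.ofFn I.N

lemma ProbeInput.encode_eq (I : ProbeInput) :
    I.encode = List.replicate I.n true ++ false :: I.rest := rfl

lemma ProbeInput.adj_bit (I : ProbeInput) (i j : Fin I.n) :
    I.rest.getD (I.n * i.val + j.val) false = true ↔ I.G.Adj i j := by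
  let iD : DecidableRel I.G.Adj := I.decAdj
  unfold ProbeInput.rest
  rw [mat_getD, decide_eq_true_iff]

lemma ProbeInput.N_bit (I : ProbeInput) (i : Fin I.n) :
    I.rest.getD (I.n * I.n + i.val) false = I.N i := by
  let iD : DecidableRel I.G.Adj := I.decAdj
  unfold ProbeInput.rest
  rw [append_getD_add (mat_length _)]
  have h := ofFn_getD I.N [] i
  rw [List.append_nil] at h
  exact h

/-- the graph of added edges coded by the string `E` -/
def addG (I : ProbeInput) (E : List Bool) : SimpleGraph (Fin I.n) where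
  Adj i j := (I.N i = true ∧ I.N j = true) ∧ i ≠ j ∧
    (E.getD (I.n * i.val + j.val) false = true ∨ E.getD (I.n * j.val + i.val) false = true)
  symm := ⟨fun _ _ h => ⟨⟨h.1.2, h.1.1⟩, h.2.1.symm, h.2.2.symm⟩⟩
  loopless := ⟨fun _ h => h.2.1 rfl⟩

lemma hadj_iff (I : ProbeInput) (E : List Bool) (i j : Fin I.n) :
    hadj I.n I.rest E i.val j.val = true ↔ (I.G ⊔ addG I E).Adj i j := by
  unfold hadj
  rw [SimpleGraph.sup_adj]
  simp only [Bool.or_eq_true, Bool.and_eq_true, I.adj_bit, I.N_bit, Bool.not_eq_true',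
    decide_eq_false_iff_not, addG, Fin.val_inj, ne_eq]

lemma chk_iff {n : ℕ} {r E X c : List Bool} : chk n r E X c = true ↔ ∀ i < n,
    (c.getD i false = true → X.getD i false = true) ∧
    (X.getD i false = true → ∃ k < n, c.getD k false = true ∧
      c.getD (n + (n * i + k)) false = true) ∧
    ∀ j < n, ((r.getD (n * n + i) false = true ∧ r.getD (n * n + j) false = true) →
        ¬ r.getD (n * i + j) false = true) ∧
      (((c.getD i false = true ∧ c.getD j false = true) ∧ i ≠ j) → hadj n r E i j = true) ∧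
      (((X.getD i false = true ∧ X.getD j false = true) ∧ hadj n r E i j = true) → ∀ k < n,
        ¬ (c.getD (n + (n * i + k)) false = true ∧ c.getD (n + (n * j + k)) false = true)) := by
  unfold chk
  simp only [List.all_eq_true, List.any_eq_true, List.mem_range, Bool.and_eq_true,
    Bool.or_eq_true, Bool.not_eq_true', ← Bool.not_eq_true, ← imp_iff_not_or,
    decide_eq_true_iff, ne_eq]

/-- the vertices marked in `X` -/
def setOf' (n : ℕ) (X : List Bool) : Finset (Fin n) :=
  Finset.univ.filter (fun i => X.getD i.val false = true)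

lemma chk_sound (I : ProbeInput) {E X c : List Bool} (h : chk I.n I.rest E X c = true) :
    (∀ i j, I.N i = true → I.N j = true → ¬ I.G.Adj i j) ∧
    Good (I.G ⊔ addG I E) (setOf' I.n X) := by
  classical
  rw [chk_iff] at h
  refine ⟨?_, ?_⟩
  · intro i j hi hj hij
    have h1 := ((h i.val i.isLt).2.2 j.val j.isLt).1
    rw [I.N_bit, I.N_bit, I.adj_bit] at h1
    exact h1 ⟨hi, hj⟩ hij
  · let K : Finset (Fin I.n) := setOf' I.n c
    have hK : ∀ i : Fin I.n, i ∈ K ↔ c.getD i.val false = true := fun i => by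
      simp [K, setOf']
    have hX : ∀ i : Fin I.n, i ∈ setOf' I.n X ↔ X.getD i.val false = true := fun i => by
      simp [setOf']
    refine ⟨K.card, ⟨K, ?_, rfl, ?_⟩, ?_⟩
    · intro i hi
      rw [hX]
      exact (h i.val i.isLt).1 ((hK i).1 hi)
    · intro i hi j hj hij
      have h1 := ((h i.val i.isLt).2.2 j.val j.isLt).2.1
      rw [hadj_iff] at h1
      exact h1 ⟨⟨(hK i).1 hi, (hK j).1 hj⟩, fun e => hij (Fin.ext e)⟩
    · have h2 : ∀ i : Fin I.n, i ∈ setOf' I.n X → ∃ k : Fin I.n, k ∈ K ∧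
          c.getD (I.n + (I.n * i.val + k.val)) false = true := by
        intro i hi
        obtain ⟨k, hk, h3, h4⟩ := (h i.val i.isLt).2.1 ((hX i).1 hi)
        exact ⟨⟨k, hk⟩, (hK _).2 h3, h4⟩
      choose! f hf1 hf2 using h2
      refine ⟨fun i => if hi : i ∈ setOf' I.n X then (K.equivFin ⟨f i, hf1 i hi⟩).val else 0,
        ?_, ?_⟩
      · intro i hi
        simp only [hi, dif_pos]
        exact (K.equivFin _).isLt
      · intro i hi j hj hij
        simp only [hi, hj, dif_pos]
        intro e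
        have e1 := K.equivFin.injective (Fin.ext e)
        have e2 : f i = f j := congrArg Subtype.val e1
        have h1 := ((h i.val i.isLt).2.2 j.val j.isLt).2.2
        rw [hadj_iff] at h1
        refine h1 ⟨⟨(hX i).1 hi, (hX j).1 hj⟩, hij⟩ (f i).val (f i).isLt ⟨hf2 i hi, ?_⟩
        rw [e2]
        exact hf2 j hj

lemma chk_complete (I : ProbeInput) {E X : List Bool}
    (h1 : ∀ i j, I.N i = true → I.N j = true → ¬ I.G.Adj i j)
    (h2 : Good (I.G ⊔ addG I E) (setOf' I.n X)) :
    ∃ c : List Bool, c.length ≤ I.n + I.n * I.n ∧ chk I.n I.rest E X c = true := by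
  classical
  obtain ⟨k, ⟨K, hKX, hKc, hKa⟩, col, hc1, hc2⟩ := h2
  have hX : ∀ i : Fin I.n, i ∈ setOf' I.n X ↔ X.getD i.val false = true := fun i => by
    simp [setOf']
  let e : K ≃ Fin k := K.equivFinOfCardEq hKc
  let C : Fin I.n → Fin I.n → Bool := fun i j =>
    decide (∃ hj : j ∈ K, (e ⟨j, hj⟩).val = col i)
  let c : List Bool := List.ofFn (fun i : Fin I.n => decide (i ∈ K)) ++ mat C
  have hcK : ∀ i : Fin I.n, c.getD i.val false = true ↔ i ∈ K := by
    intro i
    simp only [c]
    rw [ofFn_getD, decide_eq_true_iff]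
  have hcC : ∀ i j : Fin I.n, c.getD (I.n + (I.n * i.val + j.val)) false = true ↔
      ∃ hj : j ∈ K, (e ⟨j, hj⟩).val = col i := by
    intro i j
    simp only [c]
    rw [append_getD_add (by simp)]
    have h := mat_getD C [] i j
    rw [List.append_nil] at h
    rw [h]
    simp only [C, decide_eq_true_iff]
  refine ⟨c, by simp [c, mat_length], ?_⟩
  rw [chk_iff]
  intro i hi
  have ei : i = (⟨i, hi⟩ : Fin I.n).val := rfl
  rw [ei]
  generalize (⟨i, hi⟩ : Fin I.n) = i'
  refine ⟨?_, ?_, ?_⟩
  · rw [hcK, ← hX]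
    exact fun h => hKX h
  · rw [← hX]
    intro h
    have h3 := hc1 i' h
    have hj := (e.symm ⟨col i', h3⟩).2
    refine ⟨(e.symm ⟨col i', h3⟩).1.val, (e.symm ⟨col i', h3⟩).1.isLt, ?_, ?_⟩
    · rw [hcK]
      exact hj
    · rw [hcC]
      refine ⟨hj, ?_⟩
      simp
  · intro j hj
    have ej : j = (⟨j, hj⟩ : Fin I.n).val := rfl
    rw [ej]
    generalize (⟨j, hj⟩ : Fin I.n) = j'
    refine ⟨?_, ?_, ?_⟩
    · rw [I.N_bit, I.N_bit, I.adj_bit]
      exact fun h => h1 i' j' h.1 h.2
    · rw [hcK, hcK, hadj_iff]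
      rintro ⟨⟨h3, h4⟩, h5⟩
      exact hKa i' h3 j' h4 (fun h => h5 (congrArg Fin.val h))
    · rw [← hX, ← hX, hadj_iff]
      rintro ⟨⟨h3, h4⟩, h5⟩ t ht
      have et : t = (⟨t, ht⟩ : Fin I.n).val := rfl
      rw [et, hcC, hcC]
      rintro ⟨⟨h6, h7⟩, ⟨_, h8⟩⟩
      exact hc2 i' h3 j' h4 h5 (h7.symm.trans h8)

/-- a string for every set of vertices -/
lemma exists_setOf' (n : ℕ) (T : Finset (Fin n)) :
    ∃ X : List Bool, X.length = n ∧ setOf' n X = T := by
  classical
  refine ⟨List.ofFn (fun i : Fin n => decide (i ∈ T)), by simp, ?_⟩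
  ext i
  have h := ofFn_getD (fun i : Fin n => decide (i ∈ T)) [] i
  rw [List.append_nil] at h
  simp only [setOf', Finset.mem_filter, Finset.mem_univ, true_and]
  rw [h, decide_eq_true_iff]

/-- a string for every set of added edges -/
lemma exists_addG (I : ProbeInput) (H : SimpleGraph (Fin I.n))
    (hH : ∀ i j, H.Adj i j → I.N i = true ∧ I.N j = true) :
    ∃ E : List Bool, E.length = I.n * I.n ∧ addG I E = H := by
  classical
  refine ⟨mat (fun i j => decide (H.Adj i j)), mat_length _, ?_⟩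
  have h : ∀ i j : Fin I.n, (mat (fun i j => decide (H.Adj i j))).getD
      (I.n * i.val + j.val) false = decide (H.Adj i j) := by
    intro i j
    have h := mat_getD (fun i j => decide (H.Adj i j)) [] i j
    rw [List.append_nil] at h
    exact h
  ext i j
  simp only [addG]
  rw [h, h, decide_eq_true_iff, decide_eq_true_iff]
  constructor
  · rintro ⟨_, _, h1 | h1⟩
    · exact h1
    · exact h1.symm
  · intro h1
    exact ⟨hH i j h1, h1.ne, Or.inl h1⟩

/-- the quantified form of the problem -/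
theorem probePerfect_iff (I : ProbeInput) : IsProbePerfect I ↔
    ∃ E : List Bool, E.length ≤ I.n * I.n ∧ ∀ X : List Bool, X.length ≤ I.n →
      ∃ c : List Bool, c.length ≤ I.n + I.n * I.n ∧ chk I.n I.rest E X c = true := by
  classical
  constructor
  · rintro ⟨h1, H, hH, hP⟩
    obtain ⟨E, hE, rfl⟩ := exists_addG I H hH
    refine ⟨E, hE.le, ?_⟩
    intro X _
    exact chk_complete I h1 ((isPerfect_iff_good _).1 hP _)
  · rintro ⟨E, _, h⟩
    have h1 : ∀ T : Finset (Fin I.n), (∀ i j, I.N i = true → I.N j = true → ¬ I.G.Adj i j) ∧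
        Good (I.G ⊔ addG I E) T := by
      intro T
      obtain ⟨X, hX, rfl⟩ := exists_setOf' I.n T
      obtain ⟨c, _, hc⟩ := h X hX.le
      exact chk_sound I hc
    exact ⟨(h1 ∅).1, addG I E, fun i j hij => hij.1, (isPerfect_iff_good _).2 fun T => (h1 T).2⟩

lemma verif_eq (I : ProbeInput) (E X c : List Bool) :
    verif ((I.encode, E), (X, c)) = chk I.n I.rest E X c := by
  unfold verif
  have h1 : lead I.encode = I.n := by rw [I.encode_eq, lead_replicate]
  have h2 : I.encode.drop (I.n + 1) = I.rest := by rw [I.encode_eq, drop_replicate']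
  simp only [h1, h2]

lemma n_le (I : ProbeInput) : I.n ≤ I.encode.length := by
  rw [I.encode_eq]
  simp

end Pool.Agent.MP_96e1cb_lc
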